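import Mathlib

/-!
A vanishing lemma of Phragmen-Lindelof type: a function holomorphic on the right half-plane,
bounded on `1 ≤ re z` and exponentially decaying in the upper (or lower) quadrant, vanishes.
-/

set_option autoImplicit false

namespace Pool.Agent.H25

open Complex Filter Asymptotics Set Topology Bornology

noncomputable section

/-- the comparison factor -/
def kap (ε : ℝ) (u : ℂ) : ℂ :=
  Complex.exp (-2 * ((u + 1) * Complex.log (u + 1)) - I * (Real.pi * ε : ℝ) * u)

theorem norm_kap (ε : ℝ) (u : ℂ) : ‖kap ε u‖ =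
    Real.exp (-2 * ((u.re + 1) * Real.log ‖u + 1‖) + 2 * (u.im * Complex.arg (u + 1))
      + Real.pi * (ε * u.im)) := by
  unfold kap
  rw [Complex.norm_exp]
  congr 1
  simp [Complex.sub_re, Complex.mul_re, Complex.log_re, Complex.log_im]
  ring

theorem kap_bound (ε : ℝ) (hε : ε = 1 ∨ ε = -1) (u : ℂ) (hu : 0 ≤ u.re) :
    ‖kap ε u‖ ≤ Real.exp (-2 * ((u.re + 1) * Real.log ‖u + 1‖)) * 
      Real.exp (2 * Real.pi * max (ε * u.im) 0) := by
  rw [norm_kap, ← Real.exp_add]
  apply Real.exp_le_exp.mpr
  have hre : (u + 1).re = u.re + 1 := by simp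
  have hpos : 0 < (u + 1).re := by rw [hre]; linarith
  have harg : |Complex.arg (u + 1)| ≤ Real.pi / 2 := by
    rw [Complex.abs_arg_le_pi_div_two_iff]; exact hpos.le
  have h1 : u.im * Complex.arg (u + 1) ≤ |u.im| * (Real.pi / 2) := by
    calc u.im * Complex.arg (u + 1) ≤ |u.im * Complex.arg (u + 1)| := le_abs_self _
      _ = |u.im| * |Complex.arg (u + 1)| := abs_mul _ _
      _ ≤ _ := mul_le_mul_of_nonneg_left harg (abs_nonneg _)
  have h2 : |u.im| + ε * u.im = 2 * max (ε * u.im) 0 := by
    rcases hε with rfl | rfl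
    · rcases le_or_gt 0 u.im with h | h
      · rw [one_mul, max_eq_left h, abs_of_nonneg h]; ring
      · rw [one_mul, max_eq_right h.le, abs_of_neg h]; ring
    · rcases le_or_gt 0 u.im with h | h
      · rw [max_eq_right (by linarith), abs_of_nonneg h]; ring
      · rw [max_eq_left (by linarith), abs_of_neg h]; ring
  have h3 : 2 * Real.pi * max (ε * u.im) 0 = Real.pi * |u.im| + Real.pi * (ε * u.im) := by
    rw [← mul_add, h2]; ring
  rw [h3]
  linarith

theorem log_norm_nonneg (u : ℂ) (hu : 0 ≤ u.re) : 0 ≤ Real.log ‖u + 1‖ := by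
  apply Real.log_nonneg
  have : (u + 1).re ≤ ‖u + 1‖ := Complex.re_le_norm _
  have hre : (u + 1).re = u.re + 1 := by simp
  linarith

/-- Phragmen-Lindelof vanishing lemma. -/
theorem pl_vanish (ε : ℝ) (hε : ε = 1 ∨ ε = -1) (g : ℂ → ℂ)
    (hd : DifferentiableOn ℂ g {z | 0 < z.re})
    (C : ℝ) (hb : ∀ z : ℂ, 1 ≤ z.re → ‖g z‖ ≤ C)
    (hdec : ∀ z : ℂ, 1 ≤ z.re → 1 ≤ ε * z.im →
      ‖g z‖ ≤ C * Real.exp (-(2 * Real.pi * (ε * z.im)))) :
    ∀ z : ℂ, 1 ≤ z.re → g z = 0 := by
  have hC : 0 ≤ C := le_trans (norm_nonneg _) (hb 1 (by simp))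
  set C' : ℝ := C * Real.exp (2 * Real.pi) with hC'
  have hpi := Real.pi_pos
  have hCC' : C ≤ C' := by
    rw [hC']
    exact le_mul_of_one_le_right hC (Real.one_le_exp (by positivity))
  have hC'0 : 0 ≤ C' := le_trans hC hCC'
  -- uniform bound
  have key : ∀ z : ℂ, 1 ≤ z.re → ‖g z‖ ≤ C' * Real.exp (-(2 * Real.pi * max (ε * z.im) 0)) := by
    intro z hz
    rcases le_or_gt 0 (ε * z.im) with h | h
    · rw [max_eq_left h]
      rcases le_or_gt 1 (ε * z.im) with h1 | h1
      · refine le_trans (hdec z hz h1) ?_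
        exact mul_le_mul_of_nonneg_right hCC' (Real.exp_nonneg _)
      · refine le_trans (hb z hz) ?_
        rw [hC', mul_assoc, ← Real.exp_add]
        apply le_mul_of_one_le_right hC
        apply Real.one_le_exp
        nlinarith
    · rw [max_eq_right h.le]
      simpa using le_trans (hb z hz) hCC'
  set f : ℂ → ℂ := fun u => g (u + 1) * kap ε u with hf
  -- the pointwise bound
  have hfb : ∀ u : ℂ, 0 ≤ u.re → ‖f u‖ ≤ C' * Real.exp (-2 * ((u.re + 1) * Real.log ‖u + 1‖)) := by
    intro u hu
    rw [hf]
    simp only [norm_mul]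
    have h1 := key (u + 1) (by simp; linarith)
    have h2 := kap_bound ε hε u hu
    have him : (u + 1).im = u.im := by simp
    rw [him] at h1
    calc ‖g (u + 1)‖ * ‖kap ε u‖ ≤ (C' * Real.exp (-(2 * Real.pi * max (ε * u.im) 0))) *
        (Real.exp (-2 * ((u.re + 1) * Real.log ‖u + 1‖)) * 
          Real.exp (2 * Real.pi * max (ε * u.im) 0)) := by gcongr
      _ = C' * Real.exp (-2 * ((u.re + 1) * Real.log ‖u + 1‖)) *
          (Real.exp (-(2 * Real.pi * max (ε * u.im) 0)) *
            Real.exp (2 * Real.pi * max (ε * u.im) 0)) := by ring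
      _ = C' * Real.exp (-2 * ((u.re + 1) * Real.log ‖u + 1‖)) := by
          rw [← Real.exp_add]; simp
  have hfC : ∀ u : ℂ, 0 ≤ u.re → ‖f u‖ ≤ C' := by
    intro u hu
    refine le_trans (hfb u hu) ?_
    apply mul_le_of_le_one_right hC'0
    rw [Real.exp_le_one_iff]
    have := log_norm_nonneg u hu
    nlinarith [mul_nonneg (by linarith : 0 ≤ u.re + 1) this]
  have hdiff : DifferentiableOn ℂ f {z : ℂ | -1 < z.re} := by
    apply DifferentiableOn.mul
    · have : DifferentiableOn ℂ (g ∘ fun u => u + 1) {z : ℂ | -1 < z.re} := by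
        apply hd.comp (by fun_prop)
        intro z hz
        simp only [mem_ofPred_eq] at hz ⊢
        simp; linarith
      exact this
    · unfold kap
      apply DifferentiableOn.cexp
      apply DifferentiableOn.sub
      · apply DifferentiableOn.const_mul
        apply DifferentiableOn.mul (by fun_prop)
        apply DifferentiableOn.clog (by fun_prop)
        intro z hz
        left
        simp only [mem_ofPred_eq] at hz
        simp; linarith
      · fun_prop
  have hdc : DiffContOnCl ℂ f {z | 0 < z.re} := by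
    apply DifferentiableOn.diffContOnCl
    apply hdiff.mono
    intro z hz
    have : closure {z : ℂ | 0 < z.re} ⊆ {z : ℂ | 0 ≤ z.re} := by
      apply closure_minimal
      · intro w hw
        simp only [mem_ofPred_eq] at hw ⊢
        exact hw.le
      · exact isClosed_le continuous_const Complex.continuous_re
    have h0 := this hz
    simp only [mem_ofPred_eq] at h0 ⊢
    linarith
  have main := PhragmenLindelof.eq_zero_on_right_half_plane_of_superexponential_decay (f := f) hdc
    ?_ ?_ ?_
  · intro z hz
    have h1 : f (z - 1) = 0 := main (by simp only [mem_ofPred_eq]; simp; linarith)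
    rw [hf] at h1
    simp only [sub_add_cancel] at h1
    rcases mul_eq_zero.mp h1 with h | h
    · exact h
    · exfalso; exact Complex.exp_ne_zero _ h
  · refine ⟨1, by norm_num, 0, ?_⟩
    apply IsBigO.of_bound C'
    filter_upwards [mem_inf_of_right (mem_principal_self _)] with z hz
    have : ‖f z‖ ≤ C' := hfC z (le_of_lt hz)
    simpa using this
  · -- superexponential decay on the real axis
    intro n
    have hlim : Tendsto (fun x : ℝ => C' * Real.exp (-x)) atTop (𝓝 0) := by
      have := (Real.tendsto_exp_neg_atTop_nhds_zero).const_mul C'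
      simpa using this
    apply squeeze_zero' (g := fun x : ℝ => C' * Real.exp (-x))
    · filter_upwards with x
      positivity
    · filter_upwards [eventually_ge_atTop (Real.exp (n + 1)), eventually_ge_atTop 0] with x hx hx0
      have h1 := hfb (x : ℂ) (by simpa using hx0)
      have hnorm : ‖(x : ℂ) + 1‖ = x + 1 := by
        have : ((x : ℂ) + 1) = ((x + 1 : ℝ) : ℂ) := by push_cast; ring
        rw [this, Complex.norm_real, Real.norm_eq_abs, abs_of_nonneg (by linarith)]
      rw [hnorm] at h1
      simp only [Complex.ofReal_re] at h1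
      have hlog : (n : ℝ) + 1 ≤ Real.log (x + 1) := by
        rw [Real.le_log_iff_exp_le (by linarith)]
        linarith
      calc Real.exp x ^ n * ‖f x‖ ≤ Real.exp x ^ n * (C' * Real.exp (-2 * ((x + 1) * Real.log (x + 1)))) := by
            gcongr
        _ = C' * Real.exp (n * x + -2 * ((x + 1) * Real.log (x + 1))) := by
            rw [← Real.exp_nat_mul, Real.exp_add]; ring
        _ ≤ C' * Real.exp (-x) := by
            apply mul_le_mul_of_nonneg_left _ hC'0
            apply Real.exp_le_exp.mpr
            have h3 : (x + 1) * ((n : ℝ) + 1) ≤ (x + 1) * Real.log (x + 1) :=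
              mul_le_mul_of_nonneg_left hlog (by linarith)
            have hn : (0 : ℝ) ≤ n := Nat.cast_nonneg n
            nlinarith [mul_nonneg hx0 hn]
    · exact hlim
  · refine ⟨C', fun x => hfC _ ?_⟩
    simp

end

end Pool.Agent.H25
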