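import Mathlib

/-!
Elementary facts on evaluating multivariate polynomials along lines.
-/

set_option autoImplicit false

namespace Pool.Agent.H25

open MvPolynomial

noncomputable section

/-- directional derivative on polynomials -/
def Dv (v : ℕ → ℂ) : Derivation ℂ (MvPolynomial ℕ ℂ) (MvPolynomial ℕ ℂ) :=
  MvPolynomial.mkDerivation ℂ (fun i => MvPolynomial.C (v i))

theorem Dv_X (v : ℕ → ℂ) (i : ℕ) : Dv v (X i) = C (v i) := by
  simp [Dv, MvPolynomial.mkDerivation_X]

theorem Dv_C (v : ℕ → ℂ) (a : ℂ) : Dv v (C a) = 0 := by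
  exact (Dv v).map_algebraMap a

/-- restriction to a line -/
def lineMap (x v : ℕ → ℂ) : MvPolynomial ℕ ℂ →ₐ[ℂ] Polynomial ℂ :=
  MvPolynomial.aeval (fun i => Polynomial.C (x i) + Polynomial.C (v i) * Polynomial.X)

theorem eval_lineMap (x v : ℕ → ℂ) (c : ℂ) (P : MvPolynomial ℕ ℂ) :
    Polynomial.eval c (lineMap x v P) = MvPolynomial.eval (fun i => x i + c * v i) P := by
  induction P using MvPolynomial.induction_on with
  | C a => simp [lineMap]
  | add p q hp hq => simp [hp, hq]
  | mul_X p i hp =>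
    rw [map_mul, Polynomial.eval_mul, hp, map_mul]
    simp only [lineMap, aeval_X, Polynomial.eval_add, Polynomial.eval_mul, Polynomial.eval_C,
      Polynomial.eval_X, MvPolynomial.eval_X]
    ring

theorem derivative_lineMap (x v : ℕ → ℂ) (P : MvPolynomial ℕ ℂ) :
    Polynomial.derivative (lineMap x v P) = lineMap x v (Dv v P) := by
  induction P using MvPolynomial.induction_on with
  | C a => simp [lineMap]
  | add p q hp hq => simp [hp, hq]
  | mul_X p i hp =>
    rw [map_mul, Polynomial.derivative_mul, hp, Derivation.leibniz, map_add, Dv_X]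
    simp [lineMap]
    ring

theorem iterate_derivative_lineMap (x v : ℕ → ℂ) (P : MvPolynomial ℕ ℂ) (k : ℕ) :
    Polynomial.derivative^[k] (lineMap x v P) = lineMap x v ((Dv v)^[k] P) := by
  induction k generalizing P with
  | zero => rfl
  | succ k ih => rw [Function.iterate_succ_apply, Function.iterate_succ_apply,
      derivative_lineMap, ih]

/-- if a family of polynomials vanishing at `x` is stable under the directional derivative
along `v`, then it vanishes on the line through `x` in the direction of `v`. -/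
theorem vanish_line (J : Set (MvPolynomial ℕ ℂ)) (v : ℕ → ℂ) (hJ : ∀ P ∈ J, Dv v P ∈ J)
    (x : ℕ → ℂ) (hx : ∀ P ∈ J, MvPolynomial.eval x P = 0) (c : ℂ) :
    ∀ P ∈ J, MvPolynomial.eval (fun i => x i + c * v i) P = 0 := by
  intro P hP
  have hit : ∀ k : ℕ, ((Dv v)^[k] P) ∈ J := by
    intro k
    induction k with
    | zero => exact hP
    | succ k ih => rw [Function.iterate_succ_apply']; exact hJ _ ih
  have hz : lineMap x v P = 0 := by
    ext k
    have h1 : (Polynomial.derivative^[k] (lineMap x v P)).coeff 0 =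
        (lineMap x v ((Dv v)^[k] P)).coeff 0 := by rw [iterate_derivative_lineMap]
    rw [Polynomial.coeff_iterate_derivative, zero_add, Polynomial.coeff_zero_eq_eval_zero,
      eval_lineMap] at h1
    have h2 : MvPolynomial.eval (fun i => x i + 0 * v i) ((Dv v)^[k] P) = 0 := by
      simpa using hx _ (hit k)
    rw [h2] at h1
    simp only [nsmul_eq_mul, mul_eq_zero, Nat.cast_eq_zero] at h1
    rcases h1 with h | h
    · exfalso
      rw [Nat.descFactorial_self] at h
      exact Nat.factorial_ne_zero k h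
    · simpa using h
  rw [← eval_lineMap, hz]
  simp

theorem eval_bound (B : ℕ → ℝ) (P : MvPolynomial ℕ ℂ) :
    ∃ K : ℝ, 0 ≤ K ∧ ∀ x : ℕ → ℂ, (∀ i, ‖x i‖ ≤ B i) → ‖MvPolynomial.eval x P‖ ≤ K := by
  induction P using MvPolynomial.induction_on with
  | C a => exact ⟨‖a‖, norm_nonneg _, fun x _ => by simp⟩
  | add p q hp hq =>
    obtain ⟨K1, h1, h1'⟩ := hp
    obtain ⟨K2, h2, h2'⟩ := hq
    refine ⟨K1 + K2, by positivity, fun x hx => ?_⟩
    rw [map_add]
    exact (norm_add_le _ _).trans (add_le_add (h1' x hx) (h2' x hx))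
  | mul_X p i hp =>
    obtain ⟨K1, h1, h1'⟩ := hp
    refine ⟨K1 * |B i|, by positivity, fun x hx => ?_⟩
    rw [map_mul, MvPolynomial.eval_X, norm_mul]
    exact mul_le_mul (h1' x hx) ((hx i).trans (le_abs_self _)) (norm_nonneg _) h1

theorem eval_lip (B E : ℕ → ℝ) (P : MvPolynomial ℕ ℂ) :
    ∃ K : ℝ, 0 ≤ K ∧ ∀ (x r : ℕ → ℂ) (η : ℝ), 0 ≤ η → (∀ i, ‖x i‖ ≤ B i) →
      (∀ i, ‖x i + r i‖ ≤ B i) → (∀ i, ‖r i‖ ≤ η * E i) →
      ‖MvPolynomial.eval (fun i => x i + r i) P - MvPolynomial.eval x P‖ ≤ K * η := by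
  induction P using MvPolynomial.induction_on with
  | C a => exact ⟨0, le_rfl, fun x r η _ _ _ _ => by simp⟩
  | add p q hp hq =>
    obtain ⟨K1, h1, h1'⟩ := hp
    obtain ⟨K2, h2, h2'⟩ := hq
    refine ⟨K1 + K2, by positivity, fun x r η hη hx hxr hr => ?_⟩
    rw [map_add, map_add]
    have e : ∀ a b c d : ℂ, a + b - (c + d) = (a - c) + (b - d) := by intros; ring
    rw [e, add_mul]
    exact (norm_add_le _ _).trans (add_le_add (h1' x r η hη hx hxr hr) (h2' x r η hη hx hxr hr))
  | mul_X p i hp =>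
    obtain ⟨K1, h1, h1'⟩ := hp
    obtain ⟨K2, h2, h2'⟩ := eval_bound B p
    refine ⟨K1 * |B i| + K2 * |E i|, by positivity, fun x r η hη hx hxr hr => ?_⟩
    rw [map_mul, map_mul, MvPolynomial.eval_X, MvPolynomial.eval_X]
    have e : (MvPolynomial.eval (fun i => x i + r i) p) * (x i + r i)
        - (MvPolynomial.eval x p) * x i =
        (MvPolynomial.eval (fun i => x i + r i) p - MvPolynomial.eval x p) * (x i + r i)
        + MvPolynomial.eval x p * r i := by ring
    rw [e]
    refine (norm_add_le _ _).trans ?_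
    rw [norm_mul, norm_mul]
    have a1 := h1' x r η hη hx hxr hr
    have a2 := h2' x hx
    calc ‖MvPolynomial.eval (fun i => x i + r i) p - MvPolynomial.eval x p‖ * ‖x i + r i‖
        + ‖MvPolynomial.eval x p‖ * ‖r i‖ ≤ (K1 * η) * |B i| + K2 * (η * |E i|) := by
          apply add_le_add
          · exact mul_le_mul a1 ((hxr i).trans (le_abs_self _)) (norm_nonneg _) (by positivity)
          · apply mul_le_mul a2 _ (norm_nonneg _) h2
            exact (hr i).trans (mul_le_mul_of_nonneg_left (le_abs_self _) hη)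
      _ = (K1 * |B i| + K2 * |E i|) * η := by ring

theorem eval_taylor (M : ℝ) (B : ℕ → ℝ) (v : ℕ → ℂ) (P : MvPolynomial ℕ ℂ) :
    ∃ K : ℝ, 0 ≤ K ∧ ∀ (x : ℕ → ℂ) (c : ℂ), ‖c‖ ≤ M → (∀ i, ‖x i‖ ≤ B i) →
      ‖MvPolynomial.eval (fun i => x i + c * v i) P - MvPolynomial.eval x P
        - c * MvPolynomial.eval x (Dv v P)‖ ≤ K * ‖c‖ ^ 2 := by
  induction P using MvPolynomial.induction_on with
  | C a => exact ⟨0, le_rfl, fun x c _ _ => by simp⟩
  | add p q hp hq =>
    obtain ⟨K1, h1, h1'⟩ := hp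
    obtain ⟨K2, h2, h2'⟩ := hq
    refine ⟨K1 + K2, by positivity, fun x c hc hx => ?_⟩
    simp only [map_add]
    have e : ∀ a b c d e' f k : ℂ, a + b - (c + d) - k * (e' + f) =
      (a - c - k * e') + (b - d - k * f) := by intros; ring
    rw [e, add_mul]
    exact (norm_add_le _ _).trans (add_le_add (h1' x c hc hx) (h2' x c hc hx))
  | mul_X p i hp =>
    obtain ⟨K1, h1, h1'⟩ := hp
    obtain ⟨K2, h2, h2'⟩ := eval_bound B (Dv v p)
    refine ⟨K1 * (|B i| + |M| * ‖v i‖) + K2 * ‖v i‖, by positivity, fun x c hc hx => ?_⟩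
    have a1 := h1' x c hc hx
    have a2 := h2' x hx
    rw [Derivation.leibniz, Dv_X]
    simp only [map_mul, MvPolynomial.eval_X, map_add, smul_eq_mul, MvPolynomial.eval_C]
    have e : (MvPolynomial.eval (fun i => x i + c * v i) p) * (x i + c * v i)
        - (MvPolynomial.eval x p) * x i - c * ((MvPolynomial.eval x p) * v i +
          x i * (MvPolynomial.eval x (Dv v p)))
        = (MvPolynomial.eval (fun i => x i + c * v i) p - MvPolynomial.eval x p -
          c * (MvPolynomial.eval x (Dv v p))) * (x i + c * v i)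
        + (c * c) * (MvPolynomial.eval x (Dv v p) * v i) := by ring
    rw [e]
    refine (norm_add_le _ _).trans ?_
    simp only [norm_mul]
    have hxi : ‖x i + c * v i‖ ≤ |B i| + |M| * ‖v i‖ := by
      refine (norm_add_le _ _).trans (add_le_add ((hx i).trans (le_abs_self _)) ?_)
      rw [norm_mul]
      exact mul_le_mul_of_nonneg_right (hc.trans (le_abs_self _)) (norm_nonneg _)
    calc _ ≤ (K1 * ‖c‖ ^ 2) * (|B i| + |M| * ‖v i‖) + (‖c‖ * ‖c‖) * (K2 * ‖v i‖) := by
          apply add_le_add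
          · exact mul_le_mul a1 hxi (norm_nonneg _) (by positivity)
          · apply mul_le_mul_of_nonneg_left _ (by positivity)
            exact mul_le_mul_of_nonneg_right a2 (norm_nonneg _)
      _ = (K1 * (|B i| + |M| * ‖v i‖) + K2 * ‖v i‖) * ‖c‖ ^ 2 := by ring

end

end Pool.Agent.H25
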