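import Mathlib
import Pool.Agent.H25.PL
import Pool.Agent.H25.Poly

/-!
The core argument: a function `W` holomorphic on the slit plane, bounded on `1/2 ≤ re z`, with
`W z - W (-z) = ∑ h n e^{2πinz}` on the upper half plane, all `h n ≠ 0` for `n ≥ 1`, satisfies no
algebraic differential equation with constant coefficients.
-/

set_option autoImplicit false

namespace Pool.Agent.H25

open Complex Filter Asymptotics Set Topology Bornology

noncomputable section

/-- the exponentials -/
def qe (n : ℕ) (z : ℂ) : ℂ := Complex.exp (2 * Real.pi * I * n * z)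

/-- the directions -/
def vn (n : ℕ) : ℕ → ℂ := fun i => (2 * Real.pi * I * n) ^ i

/-- the jet of a function -/
def jet (f : ℂ → ℂ) (z : ℂ) : ℕ → ℂ := fun i => iteratedDeriv i f z

theorem norm_qe (n : ℕ) (z : ℂ) : ‖qe n z‖ = Real.exp (-(2 * Real.pi * n * z.im)) := by
  unfold qe
  rw [Complex.norm_exp]
  congr 1
  simp

theorem differentiable_qe (n : ℕ) : Differentiable ℂ (qe n) := by
  unfold qe; fun_prop

theorem iteratedDeriv_qe (n i : ℕ) (z : ℂ) :
    iteratedDeriv i (qe n) z = vn n i * qe n z := by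
  unfold qe vn
  rw [iteratedDeriv_cexp_const_mul]

theorem differentiableOn_eval {S : Set ℂ} (f : ℕ → ℂ → ℂ)
    (hf : ∀ i, DifferentiableOn ℂ (f i) S) (P : MvPolynomial ℕ ℂ) :
    DifferentiableOn ℂ (fun z => MvPolynomial.eval (fun i => f i z) P) S := by
  induction P using MvPolynomial.induction_on with
  | C a => simp
  | add p q hp hq =>
    simp only [map_add]
    exact hp.add hq
  | mul_X p i hp =>
    simp only [map_mul, MvPolynomial.eval_X]
    exact hp.mul (hf i)

theorem differentiableOn_iteratedDeriv {S : Set ℂ} (hS : IsOpen S) {f : ℂ → ℂ}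
    (hf : DifferentiableOn ℂ f S) (i : ℕ) : DifferentiableOn ℂ (iteratedDeriv i f) S := by
  rw [iteratedDeriv_eq_iterate]
  exact ((hf.analyticOnNhd hS).iterated_deriv i).differentiableOn

theorem contDiffAt_of_diffOn {S : Set ℂ} (hS : IsOpen S) {f : ℂ → ℂ}
    (hf : DifferentiableOn ℂ f S) {z : ℂ} (hz : z ∈ S) (i : ℕ) : ContDiffAt ℂ i f z :=
  (hf.analyticAt (hS.mem_nhds hz)).contDiffAt

theorem cauchy_bound {f : ℂ → ℂ} {z : ℂ} {C : ℝ} {S : Set ℂ}
    (hf : DifferentiableOn ℂ f S) (hS : Metric.closedBall z (1 / 2) ⊆ S)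
    (hC : ∀ w ∈ Metric.sphere z (1 / 2), ‖f w‖ ≤ C) (i : ℕ) :
    ‖iteratedDeriv i f z‖ ≤ i.factorial * C / (1 / 2) ^ i := by
  apply Complex.norm_iteratedDeriv_le_of_forall_mem_sphere_norm_le i (by norm_num) _ hC
  apply DifferentiableOn.diffContOnCl
  rw [closure_ball z (by norm_num)]
  exact hf.mono hS

section main

variable (W : ℂ → ℂ) (h : ℕ → ℂ)

/-- the ideal of differential polynomials vanishing at `W` -/
def inI (P : MvPolynomial ℕ ℂ) : Prop :=
  ∀ z ∈ slitPlane, MvPolynomial.eval (jet W z) P = 0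

/-- the remainder -/
def Rem (n : ℕ) (z : ℂ) : ℂ := W z - W (-z) - ∑ k ∈ Finset.range (n + 1), h k * qe k z

theorem slit_of_im {z : ℂ} (hz : z.im ≠ 0) : z ∈ slitPlane := by
  rw [mem_slitPlane_iff]; right; exact hz

theorem slit_of_re {z : ℂ} (hz : 0 < z.re) : z ∈ slitPlane := by
  rw [mem_slitPlane_iff]; left; exact hz

variable (hW : DifferentiableOn ℂ W slitPlane)
  (CW : ℝ) (hbd : ∀ z : ℂ, 1 / 2 ≤ z.re → ‖W z‖ ≤ CW)
  (hH : ∀ z : ℂ, 0 < z.im → HasSum (fun n : ℕ => h n * qe n z) (W z - W (-z)))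
  (h0 : h 0 = 0) (hne : ∀ n, 1 ≤ n → h n ≠ 0)

include hW hbd in
theorem jet_bound (z : ℂ) (hz : 1 ≤ z.re) (i : ℕ) :
    ‖jet W z i‖ ≤ i.factorial * CW / (1 / 2) ^ i := by
  have hsub : Metric.closedBall z (1 / 2) ⊆ {w : ℂ | 1 / 2 ≤ w.re} := by
    intro w hw
    simp only [mem_ofPred_eq]
    rw [Metric.mem_closedBall, dist_eq_norm] at hw
    have h1 : |(w - z).re| ≤ 1 / 2 := (Complex.abs_re_le_norm _).trans hw
    rw [Complex.sub_re] at h1
    have := (abs_le.mp h1).1
    linarith
  apply cauchy_bound hW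
  · intro w hw
    apply slit_of_re
    have := hsub hw
    simp only [mem_ofPred_eq] at this
    linarith
  · intro w hw
    apply hbd
    have := hsub (Metric.sphere_subset_closedBall hw)
    simpa only [mem_ofPred_eq] using this

include hW in
theorem rem_diff (n : ℕ) : DifferentiableOn ℂ (Rem W h n) {z : ℂ | 0 < z.im} := by
  unfold Rem
  apply DifferentiableOn.sub
  · apply DifferentiableOn.sub
    · apply hW.mono
      intro z hz
      simp only [mem_ofPred_eq] at hz
      exact slit_of_im hz.ne'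
    · have : DifferentiableOn ℂ (W ∘ fun z => -z) {z : ℂ | 0 < z.im} := by
        apply hW.comp (by fun_prop)
        intro z hz
        simp only [mem_ofPred_eq] at hz
        apply slit_of_im
        simp only [Complex.neg_im]
        linarith
      exact this
  · apply DifferentiableOn.fun_sum
    intro k _
    exact ((differentiable_qe k).const_mul _).differentiableOn

include hH in
theorem rem_bound (n : ℕ) : ∃ K : ℝ, 0 ≤ K ∧ ∀ z : ℂ, 1 / 2 ≤ z.im →
    ‖Rem W h n z‖ ≤ K * Real.exp (-(2 * Real.pi * (n + 1) * z.im)) := by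
  have hpi := Real.pi_pos
  have hs0 : Summable (fun k : ℕ => ‖h k‖ * Real.exp (-(Real.pi * k))) := by
    have := (hH (I / 2) (by simp)).summable.norm
    refine this.congr ?_
    intro k
    rw [norm_mul, norm_qe]
    congr 2
    simp
    ring
  have hs1 : Summable (fun k : ℕ => ‖h (k + (n + 1))‖ * Real.exp (-(Real.pi * k))) := by
    have h1 := ((summable_nat_add_iff (n + 1)).mpr hs0).mul_right (Real.exp (Real.pi * (n + 1)))
    refine h1.congr ?_
    intro k
    rw [mul_assoc, ← Real.exp_add]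
    congr 2
    push_cast
    ring
  refine ⟨∑' k : ℕ, ‖h (k + (n + 1))‖ * Real.exp (-(Real.pi * k)), 
    tsum_nonneg (fun k => by positivity), ?_⟩
  intro z hz
  have hz' : 0 < z.im := by linarith
  have h2 : HasSum (fun k : ℕ => h (k + (n + 1)) * qe (k + (n + 1)) z) (Rem W h n z) :=
    (hasSum_nat_add_iff' (n + 1)).mpr (hH z hz')
  rw [← h2.tsum_eq]
  apply tsum_of_norm_bounded (hs1.hasSum.mul_right _)
  intro k
  rw [norm_mul, norm_qe, mul_assoc (‖h (k + (n + 1))‖), ← Real.exp_add]
  apply mul_le_mul_of_nonneg_left _ (norm_nonneg _)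
  apply Real.exp_le_exp.mpr
  push_cast
  have hk : (0 : ℝ) ≤ k := Nat.cast_nonneg k
  nlinarith [mul_nonneg hpi.le hk, mul_nonneg (mul_nonneg hpi.le hk) (by linarith : 0 ≤ z.im - 1 / 2)]

include hW hH in
theorem rem_jet_bound (n : ℕ) : ∃ E : ℕ → ℝ, (∀ i, 0 ≤ E i) ∧ ∀ z : ℂ, 1 ≤ z.im → ∀ i,
    ‖jet (Rem W h n) z i‖ ≤ Real.exp (-(2 * Real.pi * (n + 1) * z.im)) * E i := by
  obtain ⟨K, hK0, hK⟩ := rem_bound W h hH n
  have hpi := Real.pi_pos
  refine ⟨fun i => i.factorial * (K * Real.exp (Real.pi * (n + 1))) / (1 / 2) ^ i,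
    fun i => by positivity, ?_⟩
  intro z hz i
  have hsub : ∀ w ∈ Metric.closedBall z (1 / 2), z.im - 1 / 2 ≤ w.im := by
    intro w hw
    rw [Metric.mem_closedBall, dist_eq_norm] at hw
    have h1 : |(w - z).im| ≤ 1 / 2 := (Complex.abs_im_le_norm _).trans hw
    rw [Complex.sub_im] at h1
    have := (abs_le.mp h1).1
    linarith
  have := cauchy_bound (z := z)
    (C := K * Real.exp (Real.pi * (n + 1)) * Real.exp (-(2 * Real.pi * (n + 1) * z.im)))
    (rem_diff W h hW n) ?_ ?_ i
  · unfold jet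
    refine this.trans (le_of_eq ?_)
    ring
  · intro w hw
    simp only [mem_ofPred_eq]
    have := hsub w hw
    linarith
  · intro w hw
    have h1 := hsub w (Metric.sphere_subset_closedBall hw)
    refine (hK w (by linarith)).trans ?_
    rw [mul_assoc K, ← Real.exp_add]
    apply mul_le_mul_of_nonneg_left _ hK0
    apply Real.exp_le_exp.mpr
    have hn : (0 : ℝ) ≤ n := Nat.cast_nonneg n
    nlinarith [mul_le_mul_of_nonneg_left h1 (by positivity : 0 ≤ 2 * Real.pi * ((n : ℝ) + 1))]

include hW in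
theorem jet_relation (n : ℕ) (z : ℂ) (hz : 0 < z.im) (i : ℕ) :
    (-1) ^ i * jet W (-z) i = jet W z i - (∑ k ∈ Finset.range (n + 1), h k * qe k z * vn k i)
      - jet (Rem W h n) z i := by
  have hS : IsOpen {w : ℂ | 0 < w.im} := isOpen_lt continuous_const Complex.continuous_im
  have hz1 : z ∈ slitPlane := slit_of_im hz.ne'
  have hz2 : (-z) ∈ slitPlane := slit_of_im (by simp only [Complex.neg_im]; linarith)
  have c1 : ContDiffAt ℂ i W z := contDiffAt_of_diffOn isOpen_slitPlane hW hz1 i
  have c2 : ContDiffAt ℂ i (fun w => W (-w)) z := by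
    have : ContDiffAt ℂ i W (-z) := contDiffAt_of_diffOn isOpen_slitPlane hW hz2 i
    exact ContDiffAt.comp z this contDiff_neg.contDiffAt
  have c3 : ContDiffAt ℂ i (fun w => ∑ k ∈ Finset.range (n + 1), h k * qe k w) z := by
    apply ContDiffAt.sum
    intro k _
    exact contDiffAt_const.mul ((differentiable_qe k).contDiff.contDiffAt)
  have e3 : iteratedDeriv i (fun w => ∑ k ∈ Finset.range (n + 1), h k * qe k w) z =
      ∑ k ∈ Finset.range (n + 1), h k * qe k z * vn k i := by
    rw [iteratedDeriv_fun_sum]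
    · apply Finset.sum_congr rfl
      intro k _
      rw [iteratedDeriv_const_mul_field, iteratedDeriv_qe]
      ring
    · intro k _
      exact contDiffAt_const.mul ((differentiable_qe k).contDiff.contDiffAt)
  have e2 : iteratedDeriv i (fun w => W (-w)) z = (-1) ^ i * jet W (-z) i := by
    rw [iteratedDeriv_comp_neg]; rfl
  have e4 : jet (Rem W h n) z i = jet W z i - (-1) ^ i * jet W (-z) i -
      ∑ k ∈ Finset.range (n + 1), h k * qe k z * vn k i := by
    rw [← e2, ← e3]
    unfold jet Rem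
    rw [iteratedDeriv_fun_sub (c1.sub c2) c3, iteratedDeriv_fun_sub c1 c2]
  rw [e4]
  ring

include hW in
theorem eval_extend (s : ℕ → ℂ) (P : MvPolynomial ℕ ℂ)
    (hP : ∀ z : ℂ, 1 ≤ z.re → MvPolynomial.eval (fun i => s i * jet W z i) P = 0) :
    ∀ z ∈ slitPlane, MvPolynomial.eval (fun i => s i * jet W z i) P = 0 := by
  have hd : DifferentiableOn ℂ (fun z => MvPolynomial.eval (fun i => s i * jet W z i) P)
      slitPlane := by
    apply differentiableOn_eval (fun i z => s i * jet W z i)
    intro i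
    exact (differentiableOn_iteratedDeriv isOpen_slitPlane hW i).const_mul _
  have ha := hd.analyticOnNhd isOpen_slitPlane
  have hpre : IsPreconnected slitPlane := by
    apply IsPathConnected.isConnected _ |>.isPreconnected
    exact starConvex_one_slitPlane.isPathConnected one_mem_slitPlane
  have h2 : (2 : ℂ) ∈ slitPlane := slit_of_re (by simp)
  have := ha.eqOn_zero_of_preconnected_of_eventuallyEq_zero hpre h2 ?_
  · intro z hz
    simpa using this hz
  · have : {z : ℂ | 1 < z.re} ∈ 𝓝 (2 : ℂ) := by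
      apply (isOpen_lt continuous_const Complex.continuous_re).mem_nhds
      simp
    filter_upwards [this] with z hz
    have hz' : 1 < z.re := hz
    exact hP z hz'.le

include hW hbd hH h0 in
theorem stepA (P : MvPolynomial ℕ ℂ) (hP : inI W P) :
    ∀ z ∈ slitPlane, MvPolynomial.eval (fun i => (-1) ^ i * jet W z i) P = 0 := by
  apply eval_extend W hW (fun i => (-1) ^ i)
  obtain ⟨E, hE0, hE⟩ := rem_jet_bound W h hW hH 0
  set B : ℕ → ℝ := fun i => i.factorial * CW / (1 / 2) ^ i with hB
  have hBx : ∀ z : ℂ, 1 ≤ z.re → ∀ i, ‖(-1 : ℂ) ^ i * jet W z i‖ ≤ B i := by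
    intro z hz i
    rw [norm_mul, norm_pow, norm_neg, norm_one, one_pow, one_mul]
    exact jet_bound W hW CW hbd z hz i
  obtain ⟨K1, hK10, hK1⟩ := eval_bound B P
  obtain ⟨K2, hK20, hK2⟩ := eval_lip (fun i => B i + E i) E P
  have hpi := Real.pi_pos
  refine pl_vanish (-1) (Or.inr rfl)
    (fun z => MvPolynomial.eval (fun i => (-1) ^ i * jet W z i) P) ?_ (max K1 K2) ?_ ?_
  · apply DifferentiableOn.mono (t := slitPlane)
    · apply differentiableOn_eval (fun i z => (-1) ^ i * jet W z i)
      intro i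
      exact (differentiableOn_iteratedDeriv isOpen_slitPlane hW i).const_mul _
    · intro z hz
      simp only [mem_ofPred_eq] at hz
      exact slit_of_re hz
  · intro z hz
    exact (hK1 _ (hBx z hz)).trans (le_max_left _ _)
  · intro z hz hzi
    have hy : 1 ≤ (-z).im := by simp only [Complex.neg_im]; linarith
    have hrel : ∀ i, jet W (-z) i = (-1) ^ i * jet W z i + jet (Rem W h 0) (-z) i := by
      intro i
      have := jet_relation W h hW 0 (-z) (by linarith) i
      simp only [neg_neg, zero_add, Finset.range_one, Finset.sum_singleton, h0, zero_mul,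
        sub_zero] at this
      rw [this]; ring
    have hz0 : MvPolynomial.eval (fun i => (-1) ^ i * jet W z i + jet (Rem W h 0) (-z) i) P = 0 := by
      have h1 := hP (-z) (slit_of_im (by linarith))
      have : (fun i => (-1) ^ i * jet W z i + jet (Rem W h 0) (-z) i) = jet W (-z) := by
        funext i; exact (hrel i).symm
      rw [this]; exact h1
    have hEr := hE (-z) hy
    have hexp1 : Real.exp (-(2 * Real.pi * ((0 : ℕ) + 1) * (-z).im)) ≤ 1 := by
      rw [Real.exp_le_one_iff]
      push_cast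
      nlinarith
    have hlip := hK2 (fun i => (-1) ^ i * jet W z i) (fun i => jet (Rem W h 0) (-z) i)
      (Real.exp (-(2 * Real.pi * ((0 : ℕ) + 1) * (-z).im))) (Real.exp_nonneg _) ?_ ?_ hEr
    · rw [hz0, zero_sub, norm_neg] at hlip
      refine hlip.trans ?_
      have : Real.exp (-(2 * Real.pi * ((0 : ℕ) + 1) * (-z).im)) =
          Real.exp (-(2 * Real.pi * (-1 * z.im))) := by
        congr 1
        simp
      rw [this]
      exact mul_le_mul_of_nonneg_right (le_max_right _ _) (Real.exp_nonneg _)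
    · intro i
      exact (hBx z hz i).trans (le_add_of_nonneg_right (hE0 i))
    · intro i
      refine (norm_add_le _ _).trans (add_le_add (hBx z hz i) ?_)
      exact (hEr i).trans (mul_le_of_le_one_left (hE0 i) hexp1)

/-- the intermediate points -/
def xm (m : ℕ) (z : ℂ) : ℕ → ℂ := fun i =>
  jet W z i + ∑ k ∈ Finset.range m, (-(h k * qe k z)) * vn k i

include h0 in
theorem vanish_xm (n : ℕ) (ih : ∀ m, 1 ≤ m → m < n → ∀ P, inI W P → inI W (Dv (vn m) P))
    (z : ℂ) (hz : z ∈ slitPlane) (m : ℕ) (hm : m ≤ n) :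
    ∀ P, inI W P → MvPolynomial.eval (xm W h m z) P = 0 := by
  induction m with
  | zero =>
    intro P hP
    have : xm W h 0 z = jet W z := by funext i; simp [xm]
    rw [this]; exact hP z hz
  | succ m ihm =>
    have ihm' := ihm (by omega)
    rcases Nat.eq_zero_or_pos m with hm0 | hmpos
    · intro P hP
      have : xm W h (m + 1) z = xm W h m z := by
        funext i; simp [xm, hm0, h0]
      rw [this]; exact ihm' P hP
    · intro P hP
      have := vanish_line {P | inI W P} (vn m) (fun Q hQ => ih m hmpos (by omega) Q hQ)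
        (xm W h m z) (fun Q hQ => ihm' Q hQ) (-(h m * qe m z)) P hP
      have e : xm W h (m + 1) z = fun i => xm W h m z i + (-(h m * qe m z)) * vn m i := by
        funext i; simp only [xm, Finset.sum_range_succ]; ring
      rw [e]; exact this

theorem norm_qe_eq_pow (k : ℕ) (z : ℂ) : ‖qe k z‖ = (Real.exp (-(2 * Real.pi * z.im))) ^ k := by
  rw [norm_qe, ← Real.exp_nat_mul]
  congr 1
  ring

include hW hbd hH h0 hne in
theorem stepB (n : ℕ) (hn : 1 ≤ n)
    (ih : ∀ m, 1 ≤ m → m < n → ∀ P, inI W P → inI W (Dv (vn m) P))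
    (P : MvPolynomial ℕ ℂ) (hP : inI W P) : inI W (Dv (vn n) P) := by
  suffices hs : ∀ z : ℂ, 1 ≤ z.re → MvPolynomial.eval (jet W z) (Dv (vn n) P) = 0 by
    intro z hz
    have := eval_extend W hW (fun _ => 1) (Dv (vn n) P) (by
      intro z hz
      have := hs z hz
      have e : (fun i => (1 : ℂ) * jet W z i) = jet W z := by funext i; simp
      rw [e]; exact this) z hz
    have e : (fun i => (1 : ℂ) * jet W z i) = jet W z := by funext i; simp
    rwa [e] at this
  obtain ⟨E, hE0, hE⟩ := rem_jet_bound W h hW hH n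
  set B : ℕ → ℝ := fun i => i.factorial * CW / (1 / 2) ^ i with hB
  set S : ℕ → ℝ := fun i => ∑ k ∈ Finset.range n, ‖h k‖ * ‖vn k i‖ with hS
  have hS0 : ∀ i, 0 ≤ S i := fun i => Finset.sum_nonneg (fun k _ => by positivity)
  have hBx : ∀ z : ℂ, 1 ≤ z.re → ∀ i, ‖jet W z i‖ ≤ B i := fun z hz i =>
    jet_bound W hW CW hbd z hz i
  set v := vn n with hv
  set D := Dv v P with hD
  have hnn : 0 < ‖h n‖ := norm_pos_iff.mpr (hne n hn)
  obtain ⟨K0, hK00, hK0⟩ := eval_bound B D
  obtain ⟨K1, hK10, hK1⟩ := eval_lip (fun i => B i + S i + ‖h n‖ * ‖v i‖ + E i) E P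
  obtain ⟨K2, hK20, hK2⟩ := eval_taylor ‖h n‖ (fun i => B i + S i) v P
  obtain ⟨K4, hK40, hK4⟩ := eval_lip (fun i => B i + S i) S D
  have hpi := Real.pi_pos
  have hdiff : DifferentiableOn ℂ (fun z => MvPolynomial.eval (jet W z) D) {z | 0 < z.re} := by
    apply DifferentiableOn.mono (t := slitPlane)
    · apply differentiableOn_eval (fun i z => jet W z i)
      intro i
      exact differentiableOn_iteratedDeriv isOpen_slitPlane hW i
    · intro z hz
      simp only [mem_ofPred_eq] at hz
      exact slit_of_re hz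
  refine pl_vanish 1 (Or.inl rfl) (fun z => MvPolynomial.eval (jet W z) D) hdiff
    (max K0 ((K1 + K2 * ‖h n‖ ^ 2) / ‖h n‖ + K4)) ?_ ?_
  · intro z hz
    exact (hK0 _ (hBx z hz)).trans (le_max_left _ _)
  · intro z hz hzi
    rw [one_mul] at hzi ⊢
    set q := Real.exp (-(2 * Real.pi * z.im)) with hq
    have hq0 : 0 < q := Real.exp_pos _
    have hq1 : q ≤ 1 := by
      rw [hq, Real.exp_le_one_iff]; nlinarith
    have hqn : Real.exp (-(2 * Real.pi * (n + 1) * z.im)) = q ^ (n + 1) := by
      rw [hq, ← Real.exp_nat_mul]; congr 1; push_cast; ring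
    have hEz := hE z hzi
    rw [hqn] at hEz
    have hqek : ∀ k, ‖qe k z‖ ≤ 1 := fun k => by
      rw [norm_qe_eq_pow]; exact pow_le_one₀ hq0.le hq1
    have hterm : ∀ i, ‖∑ k ∈ Finset.range n, (-(h k * qe k z)) * vn k i‖ ≤ q * S i := by
      intro i
      rw [hS, Finset.mul_sum]
      refine norm_sum_le_of_le _ ?_
      intro k _
      rcases Nat.eq_zero_or_pos k with hk | hk
      · rw [hk, h0]; simp
      · rw [norm_mul, norm_neg, norm_mul]
        have : ‖qe k z‖ ≤ q := by
          rw [norm_qe_eq_pow]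
          calc q ^ k ≤ q ^ 1 := pow_le_pow_of_le_one hq0.le hq1 hk
            _ = q := pow_one q
        calc ‖h k‖ * ‖qe k z‖ * ‖vn k i‖ ≤ ‖h k‖ * q * ‖vn k i‖ := by gcongr
          _ = q * (‖h k‖ * ‖vn k i‖) := by ring
    have hterm' : ∀ i, ‖∑ k ∈ Finset.range n, (-(h k * qe k z)) * vn k i‖ ≤ S i := fun i =>
      (hterm i).trans (mul_le_of_le_one_left (hS0 i) hq1)
    have hX : ∀ i, ‖xm W h n z i‖ ≤ B i + S i := by
      intro i
      exact (norm_add_le _ _).trans (add_le_add (hBx z hz i) (hterm' i))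
    have hslit : z ∈ slitPlane := slit_of_re (by linarith)
    have hX0 : MvPolynomial.eval (xm W h n z) P = 0 :=
      vanish_xm W h h0 n ih z hslit n le_rfl P hP
    set c : ℂ := -(h n * qe n z) with hc
    have hcn : ‖c‖ = ‖h n‖ * q ^ n := by
      rw [hc, norm_neg, norm_mul, norm_qe_eq_pow]
    have hc1 : ‖c‖ ≤ ‖h n‖ := by
      rw [hcn]; exact mul_le_of_le_one_right hnn.le (pow_le_one₀ hq0.le hq1)
    -- the relation
    have hneg : (-z) ∈ slitPlane := slit_of_im (by simp only [Complex.neg_im]; linarith)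
    have hrel := stepA W h hW CW hbd hH h0 P hP (-z) hneg
    have hfun : (fun i => (-1) ^ i * jet W (-z) i) =
        fun i => (xm W h n z i + c * v i) + (-(jet (Rem W h n) z i)) := by
      funext i
      rw [jet_relation W h hW n z (by linarith) i, Finset.sum_range_succ]
      simp only [xm, hc, hv]
      rw [Finset.sum_congr rfl (fun k _ => (neg_mul (h k * qe k z) (vn k i))),
        Finset.sum_neg_distrib]
      ring
    rw [hfun] at hrel
    have a1 := hK1 (fun i => xm W h n z i + c * v i) (fun i => -(jet (Rem W h n) z i))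
      (q ^ (n + 1)) (by positivity) ?_ ?_ ?_
    · rw [hrel, zero_sub, norm_neg] at a1
      have a2 := hK2 (xm W h n z) c hc1 hX
      rw [hX0, sub_zero] at a2
      -- bound on c * eval
      have a3 : ‖c‖ * ‖MvPolynomial.eval (xm W h n z) D‖ ≤ K1 * q ^ (n + 1) + K2 * ‖c‖ ^ 2 := by
        rw [← norm_mul]
        have e : c * MvPolynomial.eval (xm W h n z) D =
          MvPolynomial.eval (fun i => xm W h n z i + c * v i) P -
          (MvPolynomial.eval (fun i => xm W h n z i + c * v i) P
            - c * MvPolynomial.eval (xm W h n z) D) := by ring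
        rw [e]
        exact (norm_sub_le _ _).trans (add_le_add a1 a2)
      have a4 : ‖MvPolynomial.eval (xm W h n z) D‖ ≤ (K1 + K2 * ‖h n‖ ^ 2) / ‖h n‖ * q := by
        have hqn0 : 0 < q ^ n := pow_pos hq0 n
        have h5 : q ^ n * (‖h n‖ * ‖MvPolynomial.eval (xm W h n z) D‖) ≤
            q ^ n * ((K1 + K2 * ‖h n‖ ^ 2) * q) := by
          calc q ^ n * (‖h n‖ * ‖MvPolynomial.eval (xm W h n z) D‖)
              = ‖c‖ * ‖MvPolynomial.eval (xm W h n z) D‖ := by rw [hcn]; ring
            _ ≤ K1 * q ^ (n + 1) + K2 * ‖c‖ ^ 2 := a3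
            _ = q ^ n * (K1 * q + K2 * ‖h n‖ ^ 2 * q ^ n) := by rw [hcn]; ring
            _ ≤ q ^ n * (K1 * q + K2 * ‖h n‖ ^ 2 * q) := by
                apply mul_le_mul_of_nonneg_left _ hqn0.le
                apply add_le_add le_rfl
                apply mul_le_mul_of_nonneg_left _ (by positivity)
                calc q ^ n ≤ q ^ 1 := pow_le_pow_of_le_one hq0.le hq1 hn
                  _ = q := pow_one q
            _ = q ^ n * ((K1 + K2 * ‖h n‖ ^ 2) * q) := by ring
        have h6 := le_of_mul_le_mul_left h5 hqn0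
        rw [div_mul_eq_mul_div, le_div_iff₀ hnn, mul_comm]
        exact h6
      have a5 := hK4 (jet W z) (fun i => ∑ k ∈ Finset.range n, (-(h k * qe k z)) * vn k i) q
        hq0.le (fun i => (hBx z hz i).trans (le_add_of_nonneg_right (hS0 i))) hX hterm
      have a6 : ‖MvPolynomial.eval (jet W z) D‖ ≤
          ((K1 + K2 * ‖h n‖ ^ 2) / ‖h n‖ + K4) * q := by
        have e : MvPolynomial.eval (jet W z) D = MvPolynomial.eval (xm W h n z) D -
          (MvPolynomial.eval (xm W h n z) D - MvPolynomial.eval (jet W z) D) := by ring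
        rw [e, add_mul]
        exact (norm_sub_le _ _).trans (add_le_add a4 a5)
      refine a6.trans ?_
      exact mul_le_mul_of_nonneg_right (le_max_right _ _) hq0.le
    · intro i
      refine (norm_add_le _ _).trans ?_
      have h7 : ‖c * v i‖ ≤ ‖h n‖ * ‖v i‖ := by
        rw [norm_mul]; exact mul_le_mul_of_nonneg_right hc1 (norm_nonneg _)
      linarith [hX i, hE0 i]
    · intro i
      refine (norm_add_le _ _).trans ?_
      have h8 := (norm_add_le (xm W h n z i) (c * v i))
      have h7 : ‖c * v i‖ ≤ ‖h n‖ * ‖v i‖ := by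
        rw [norm_mul]; exact mul_le_mul_of_nonneg_right hc1 (norm_nonneg _)
      rw [norm_neg]
      have h9 : ‖jet (Rem W h n) z i‖ ≤ E i :=
        (hEz i).trans (mul_le_of_le_one_left (hE0 i) (pow_le_one₀ hq0.le hq1))
      linarith [hX i]
    · intro i
      rw [norm_neg]
      exact hEz i

include hW hbd hH h0 hne in
theorem stepB_all (n : ℕ) (hn : 1 ≤ n) (P : MvPolynomial ℕ ℂ) (hP : inI W P) :
    inI W (Dv (vn n) P) := by
  induction n using Nat.strong_induction_on generalizing P with
  | _ n IH =>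
    exact stepB W h hW CW hbd hH h0 hne n hn (fun m hm hmn Q hQ => IH m hmn hm Q hQ) P hP

include hW hbd hH h0 hne in
theorem vanish_span (N : ℕ) (c : ℕ → ℂ) : ∀ P, inI W P →
    MvPolynomial.eval (fun i => jet W 1 i + ∑ k ∈ Finset.range N, c k * vn (k + 1) i) P = 0 := by
  induction N with
  | zero =>
    intro P hP
    simp only [Finset.range_zero, Finset.sum_empty, add_zero]
    exact hP 1 one_mem_slitPlane
  | succ N ih =>
    intro P hP
    have := vanish_line {P | inI W P} (vn (N + 1))
      (fun Q hQ => stepB_all W h hW CW hbd hH h0 hne (N + 1) (by omega) Q hQ)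
      _ (fun Q hQ => ih Q hQ) (c N) P hP
    have e : (fun i => jet W 1 i + ∑ k ∈ Finset.range (N + 1), c k * vn (k + 1) i) =
      fun i => (jet W 1 i + ∑ k ∈ Finset.range N, c k * vn (k + 1) i) + c N * vn (N + 1) i := by
      funext i; rw [Finset.sum_range_succ]; ring
    rw [e]; exact this

include hW hbd hH h0 hne in
/-- **Core theorem.** The function `W` satisfies no nontrivial algebraic differential equation
with constant coefficients. -/
theorem core (P : MvPolynomial ℕ ℂ) (hP : inI W P) : P = 0 := by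
  apply MvPolynomial.funext
  intro y
  rw [map_zero]
  -- a bound for the variables
  obtain ⟨N, hN⟩ : ∃ N : ℕ, ∀ i ∈ P.vars, i < N := by
    refine ⟨P.vars.sup id + 1, fun i hi => ?_⟩
    have : i ≤ P.vars.sup id := Finset.le_sup (f := id) hi
    omega
  -- Vandermonde
  set w : Fin N → ℂ := fun k => 2 * Real.pi * I * ((k : ℕ) + 1 : ℕ) with hw
  have hwinj : Function.Injective w := by
    intro a b hab
    simp only [hw] at hab
    have h2 : (2 * Real.pi * I : ℂ) ≠ 0 := Complex.two_pi_I_ne_zero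
    have h3 := mul_left_cancel₀ h2 hab
    have h4 : ((a : ℕ) + 1) = (b : ℕ) + 1 := by exact_mod_cast h3
    exact Fin.ext (by omega)
  have hdet : IsUnit (Matrix.vandermonde w).det :=
    (Matrix.det_vandermonde_ne_zero_iff.mpr hwinj).isUnit
  set b : Fin N → ℂ := fun i => y i - jet W 1 i with hb
  set c : Fin N → ℂ := Matrix.vecMul b (Matrix.vandermonde w)⁻¹ with hc
  have hcb : Matrix.vecMul c (Matrix.vandermonde w) = b := by
    rw [hc, Matrix.vecMul_vecMul, Matrix.nonsing_inv_mul _ hdet, Matrix.vecMul_one]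
  have h1 := vanish_span W h hW CW hbd hH h0 hne N
    (fun k => if hk : k < N then c ⟨k, hk⟩ else 0) P hP
  rw [← h1]
  apply MvPolynomial.eval₂_congr
  intro i m him hm
  have hiN : i < N := hN i (by
    rw [MvPolynomial.mem_vars_iff_mem_support]
    exact ⟨m, MvPolynomial.mem_support_iff.mpr hm, him⟩)
  have h2 := congrFun hcb ⟨i, hiN⟩
  simp only [Matrix.vecMul, dotProduct, Matrix.vandermonde_apply, hb] at h2
  rw [← Fin.sum_univ_eq_sum_range (fun k => (if hk : k < N then c ⟨k, hk⟩ else 0) *
    vn (k + 1) i) N]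
  have h3 : ∑ k : Fin N, (if hk : (k : ℕ) < N then c ⟨k, hk⟩ else 0) * vn ((k : ℕ) + 1) i =
      ∑ x : Fin N, c x * w x ^ i := by
    apply Finset.sum_congr rfl
    intro k _
    simp [vn, hw]
  rw [h3, h2]
  ring

end main

end

end Pool.Agent.H25
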