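import Mathlib

/-!
Differential algebra: closure of finitely generated differentially algebraic extensions.
-/

set_option autoImplicit false

namespace Pool.Agent.H25

open Polynomial

noncomputable section

section

variable {R : Type*} [CommRing R] [IsDomain R] [Algebra ℂ R] (δ : Derivation ℂ R R)

/-- the relative algebraic closure of the algebra generated by `s` -/
def clos (s : Set R) : Subalgebra (Algebra.adjoin ℂ s) R :=
  Subalgebra.algebraicClosure (Algebra.adjoin ℂ s) R

theorem mem_clos {s : Set R} {x : R} : x ∈ clos s ↔ IsAlgebraic (Algebra.adjoin ℂ s) x := Iff.rfl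

theorem subset_clos {s : Set R} {x : R} (hx : x ∈ s) : x ∈ clos s := by
  rw [mem_clos]
  exact isAlgebraic_algebraMap (⟨x, Algebra.subset_adjoin hx⟩ : Algebra.adjoin ℂ s)

theorem const_clos {s : Set R} (c : ℂ) : algebraMap ℂ R c ∈ clos s := by
  rw [mem_clos]
  exact isAlgebraic_algebraMap (⟨algebraMap ℂ R c, Subalgebra.algebraMap_mem _ c⟩ :
    Algebra.adjoin ℂ s)

theorem clos_of_mul {s : Set R} {x y : R} (hx : x ≠ 0) (hxs : x ∈ clos s)
    (hxy : x * y ∈ clos s) : y ∈ clos s := by
  rw [mem_clos] at *
  exact IsAlgebraic.of_mul (mem_nonZeroDivisors_of_ne_zero hx) hxs hxy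

/-- derivation of elements of the adjoined algebra -/
theorem deriv_adjoin {s : Set R} (hs : ∀ y ∈ s, δ y ∈ clos s) (a : R)
    (ha : a ∈ Algebra.adjoin ℂ s) : δ a ∈ clos s := by
  have hsub : ∀ b, b ∈ Algebra.adjoin ℂ s → b ∈ clos s := fun b hb =>
    isAlgebraic_algebraMap (⟨b, hb⟩ : Algebra.adjoin ℂ s)
  induction ha using Algebra.adjoin_induction with
  | mem x hx => exact hs x hx
  | algebraMap r => rw [Derivation.map_algebraMap]; exact Subalgebra.zero_mem _
  | add x y _ _ hx hy => rw [map_add]; exact Subalgebra.add_mem _ hx hy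
  | mul x y hx' hy' hx hy =>
    rw [Derivation.leibniz]
    exact Subalgebra.add_mem _ (Subalgebra.mul_mem _ (hsub x hx') hy)
      (Subalgebra.mul_mem _ (hsub y hy') hx)

theorem deriv_aeval {s : Set R} (hs : ∀ y ∈ s, δ y ∈ clos s) {x : R} (hx : x ∈ clos s)
    (p : Polynomial (Algebra.adjoin ℂ s)) :
    ∃ r ∈ clos s, δ (aeval x p) = r + aeval x (derivative p) * δ x := by
  induction p using Polynomial.induction_on' with
  | add p q hp hq =>
    obtain ⟨r1, h1, h1'⟩ := hp
    obtain ⟨r2, h2, h2'⟩ := hq
    refine ⟨r1 + r2, Subalgebra.add_mem _ h1 h2, ?_⟩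
    rw [map_add, map_add, h1', h2', derivative_add, map_add]
    ring
  | monomial n a =>
    refine ⟨x ^ n * δ (a : R), Subalgebra.mul_mem _ (Subalgebra.pow_mem _ hx n)
      (deriv_adjoin δ hs a a.2), ?_⟩
    rw [aeval_monomial, derivative_monomial, aeval_monomial, Derivation.leibniz,
      Derivation.leibniz_pow]
    simp only [map_mul, map_natCast, smul_eq_mul, nsmul_eq_mul]
    have : algebraMap (Algebra.adjoin ℂ s) R a = (a : R) := rfl
    rw [this]
    ring

/-- The relative algebraic closure is stable under the derivation. -/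
theorem deriv_clos {s : Set R} (hs : ∀ y ∈ s, δ y ∈ clos s) {x : R} (hx : x ∈ clos s) :
    δ x ∈ clos s := by
  classical
  have hx' := hx
  rw [mem_clos] at hx'
  -- choose a polynomial of minimal degree
  have hex : ∃ n : ℕ, ∃ p : Polynomial (Algebra.adjoin ℂ s), p ≠ 0 ∧ aeval x p = 0 ∧
      p.natDegree = n := by
    obtain ⟨p, hp, hp0⟩ := hx'
    exact ⟨_, p, hp, hp0, rfl⟩
  obtain ⟨p, hp, hp0, hpn⟩ := Nat.find_spec hex
  have hmin : ∀ q : Polynomial (Algebra.adjoin ℂ s), q ≠ 0 → aeval x q = 0 →
      p.natDegree ≤ q.natDegree := by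
    intro q hq hq0
    rw [hpn]
    exact Nat.find_min' hex ⟨q, hq, hq0, rfl⟩
  have hpos : 0 < p.natDegree := by
    by_contra hcon
    have h0 : p.natDegree = 0 := by omega
    rw [Polynomial.eq_C_of_natDegree_eq_zero h0, aeval_C] at hp0
    have h1 : p.coeff 0 = 0 := by
      apply Subtype.val_injective
      exact hp0
    apply hp
    rw [Polynomial.eq_C_of_natDegree_eq_zero h0, h1, C_0]
  have hder0 : derivative p ≠ 0 := by
    intro h
    have : p.natDegree = 0 := by
      have hcz : CharZero (Algebra.adjoin ℂ s) :=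
        charZero_of_injective_algebraMap (algebraMap ℂ (Algebra.adjoin ℂ s)).injective
      have htf : IsAddTorsionFree (Algebra.adjoin ℂ s) := inferInstance
      exact derivative_eq_zero.mp h
    omega
  have hder : aeval x (derivative p) ≠ 0 := by
    intro h
    have h1 := hmin _ hder0 h
    have h2 := natDegree_derivative_lt (by omega : p.natDegree ≠ 0)
    omega
  obtain ⟨r, hr, hr'⟩ := deriv_aeval δ hs hx p
  rw [hp0, map_zero] at hr'
  apply clos_of_mul hder
  · -- aeval x q ∈ clos
    have : ∀ q : Polynomial (Algebra.adjoin ℂ s), aeval x q ∈ clos s := by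
      intro q
      have h1 : ((aeval (⟨x, hx⟩ : clos s) q : clos s) : R) = aeval x q :=
        Polynomial.aeval_subalgebra_coe q (clos s) ⟨x, hx⟩
      rw [← h1]
      exact Subtype.property _
    exact this _
  · have : aeval x (derivative p) * δ x = -r := by
      rw [eq_neg_iff_add_eq_zero, add_comm]; exact hr'.symm
    rw [this]
    exact Subalgebra.neg_mem _ hr

/-- **Closure lemma.** If `s` is finite and `δ` maps `s` into its algebraic closure, every
element algebraic over `ℂ[s]` is differentially algebraic over `ℂ`. -/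
theorem dalg_of_clos {s : Set R} (hfin : s.Finite) (hs : ∀ y ∈ s, δ y ∈ clos s) {x : R}
    (hx : x ∈ clos s) :
    ∃ P : MvPolynomial ℕ ℂ, P ≠ 0 ∧ MvPolynomial.aeval (fun i : ℕ => (δ^[i]) x) P = 0 := by
  have hit : ∀ i : ℕ, (δ^[i]) x ∈ clos s := by
    intro i
    induction i with
    | zero => exact hx
    | succ i ih => rw [Function.iterate_succ_apply']; exact deriv_clos δ hs ih
  by_contra hcon
  push Not at hcon
  have hind : AlgebraicIndependent ℂ (fun i : ℕ => (δ^[i]) x) := by
    rw [algebraicIndependent_iff]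
    intro p hp
    by_contra hp0
    exact hcon p hp0 hp
  have hinj : Function.Injective (fun i : ℕ => (δ^[i]) x) := hind.injective
  set T : Set R := Set.range (fun i : ℕ => (δ^[i]) x) with hT
  have hTinf : T.Infinite := Set.infinite_range_of_injective hinj
  have hfs : FaithfulSMul ℂ R := (faithfulSMul_iff_algebraMap_injective ℂ R).mpr
    (algebraMap ℂ R).injective
  have hTind : (AlgebraicIndependent.matroid ℂ R).Indep T := by
    rw [AlgebraicIndependent.matroid_indep_iff]
    exact hind.to_subtype_range
  have hTcl : T ⊆ (AlgebraicIndependent.matroid ℂ R).closure s := by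
    rw [AlgebraicIndependent.matroid_closure_eq]
    rintro _ ⟨i, rfl⟩
    exact hit i
  have h1 : T.encard ≤ (AlgebraicIndependent.matroid ℂ R).eRk
      ((AlgebraicIndependent.matroid ℂ R).closure s) := hTind.encard_le_eRk_of_subset hTcl
  rw [Matroid.eRk_closure_eq] at h1
  have h2 : T.encard ≤ s.encard := h1.trans (Matroid.eRk_le_encard _ _)
  have h3 : s.encard < ⊤ := by
    rw [Set.encard_lt_top_iff]; exact hfin
  have h4 : T.encard = ⊤ := by rw [Set.encard_eq_top_iff]; exact hTinf
  rw [h4] at h2
  exact absurd h3 (not_lt.mpr h2)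

theorem clos_mono {s t : Set R} (hst : s ⊆ t) {x : R} (hx : x ∈ clos s) : x ∈ clos t := by
  rw [mem_clos] at *
  obtain ⟨p, hp, hp0⟩ := hx
  have hle : Algebra.adjoin ℂ s ≤ Algebra.adjoin ℂ t := Algebra.adjoin_mono hst
  have hinj : Function.Injective (Subalgebra.inclusion hle).toRingHom :=
    Subalgebra.inclusion_injective hle
  refine ⟨p.map (Subalgebra.inclusion hle).toRingHom,
    (Polynomial.map_ne_zero_iff hinj).mpr hp, ?_⟩
  rw [aeval_def, eval₂_map]
  rw [aeval_def] at hp0
  exact hp0

/-- Extracting an algebraic element from an algebraic relation in a sequence. -/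
theorem exists_clos_of_rel (z : ℕ → R) {P : MvPolynomial ℕ ℂ} (hP : P ≠ 0)
    (hz : MvPolynomial.aeval z P = 0) : ∃ n : ℕ, z n ∈ clos (z '' Set.Iio n) := by
  by_contra hcon
  push Not at hcon
  have hfs : Function.Injective (algebraMap ℂ R) := (algebraMap ℂ R).injective
  have hind : ∀ n : ℕ, AlgebraicIndepOn ℂ z (Set.Iio n) := by
    intro n
    induction n with
    | zero =>
      have : Set.Iio (0 : ℕ) = ∅ := by ext x; simp
      rw [this]
      exact (algebraicIndependent_empty_type_iff (R := ℂ) (A := R)).mpr hfs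
    | succ n ih =>
      have : Set.Iio (n + 1) = insert n (Set.Iio n) := by
        ext x; simp only [Set.mem_Iio, Set.mem_insert_iff]; omega
      rw [this]
      exact ih.insert (hcon n)
  have hall : AlgebraicIndependent ℂ z := by
    apply algebraicIndependent_of_finite_type
    intro t ht
    obtain ⟨n, hn⟩ := ht.bddAbove
    have hsub : t ⊆ Set.Iio (n + 1) := fun x hx => by
      have := hn hx
      simp only [Set.mem_Iio]; omega
    exact (hind (n + 1)).mono hsub
  exact hP (hall.eq_zero_of_aeval_eq_zero P hz)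

end

end

end Pool.Agent.H25
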