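import Mathlib

/-!
MacMahon's formula, part 1: interlacing sequences and the commutation relation.
-/

set_option autoImplicit false

namespace Pool.Agent.H25

open scoped ENNReal

noncomputable section

/-- finitely supported sequences -/
abbrev Pt := ℕ →₀ ℕ

/-- interlacing `l ≻ m` -/
def inter (l m : Pt) : Prop := ∀ i, m i ≤ l i ∧ l (i + 1) ≤ m i

/-- size -/
def sz (l : Pt) : ℕ := ∑ i ∈ l.support, l i

theorem sz_eq_range (l : Pt) (K : ℕ) (h : ∀ i, K ≤ i → l i = 0) :
    sz l = ∑ i ∈ Finset.range K, l i := by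
  unfold sz
  apply Finset.sum_subset
  · intro i hi
    rw [Finsupp.mem_support_iff] at hi
    rw [Finset.mem_range]
    by_contra hc
    exact hi (h i (by omega))
  · intro i _ hi
    rw [Finsupp.notMem_support_iff] at hi
    exact hi

theorem exists_bound (l : Pt) : ∃ K, ∀ i, K ≤ i → l i = 0 := by
  refine ⟨l.support.sup id + 1, fun i hi => ?_⟩
  by_contra hc
  have h1 : i ∈ l.support := Finsupp.mem_support_iff.mpr hc
  have h2 : i ≤ l.support.sup id := Finset.le_sup (f := id) h1
  omega

theorem sz_zero : sz 0 = 0 := by simp [sz]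

theorem inter_zero_left {m : Pt} (h : inter 0 m) : m = 0 := by
  ext i
  have := (h i).1
  simpa using this

theorem inter_zero_zero : inter 0 0 := fun i => by simp

section bij

variable (m n : Pt)

/-- upper common neighbours -/
abbrev Up := {l : Pt // inter l m ∧ inter l n}

/-- lower common neighbours -/
abbrev Dn := {k : Pt // inter m k ∧ inter n k}

/-- forward map -/
def fwdK (l : Up m n) : Pt :=
  Finsupp.onFinset m.support
    (fun i => max (m (i + 1)) (n (i + 1)) + min (m i) (n i) - l.1 (i + 1)) (by
      intro i hi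
      rw [Finsupp.mem_support_iff]
      intro h0
      apply hi
      have h1 := l.2.1 i
      have h2 := l.2.1 (i + 1)
      have h3 := l.2.2 (i + 1)
      omega)

theorem fwdK_apply (l : Up m n) (i : ℕ) :
    fwdK m n l i = max (m (i + 1)) (n (i + 1)) + min (m i) (n i) - l.1 (i + 1) := rfl

/-- backward map -/
def bwdL (a : ℕ) (k : Dn m n) : Pt :=
  Finsupp.onFinset (insert 0 (m.support.image Nat.succ))
    (fun i => match i with
      | 0 => max (m 0) (n 0) + a
      | i + 1 => max (m (i + 1)) (n (i + 1)) + min (m i) (n i) - k.1 i) (by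
      intro i hi
      rcases i with _ | i
      · simp
      · apply Finset.mem_insert_of_mem
        rw [Finset.mem_image]
        refine ⟨i, ?_, rfl⟩
        rw [Finsupp.mem_support_iff]
        intro h0
        apply hi
        have h1 := k.2.1 i
        have h2 := k.2.2 i
        simp only
        omega)

theorem bwdL_zero (a : ℕ) (k : Dn m n) : bwdL m n a k 0 = max (m 0) (n 0) + a := rfl

theorem bwdL_succ (a : ℕ) (k : Dn m n) (i : ℕ) :
    bwdL m n a k (i + 1) = max (m (i + 1)) (n (i + 1)) + min (m i) (n i) - k.1 i := rfl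

/-- the local bijection -/
def locEquiv : Up m n ≃ ℕ × Dn m n where
  toFun l := (l.1 0 - max (m 0) (n 0), ⟨fwdK m n l, by
    constructor <;> intro i <;> rw [fwdK_apply] <;>
      have h1 := l.2.1 i <;> have h2 := l.2.1 (i + 1) <;> have h3 := l.2.2 i <;>
      have h4 := l.2.2 (i + 1) <;> omega⟩)
  invFun p := ⟨bwdL m n p.1 p.2, by
    constructor
    · intro i
      rcases i with _ | i
      · rw [bwdL_zero, bwdL_succ]
        have h1 := p.2.2.1 0
        have h2 := p.2.2.2 0
        omega
      · rw [bwdL_succ, bwdL_succ]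
        have h1 := p.2.2.1 i
        have h2 := p.2.2.2 i
        have h3 := p.2.2.1 (i + 1)
        have h4 := p.2.2.2 (i + 1)
        omega
    · intro i
      rcases i with _ | i
      · rw [bwdL_zero, bwdL_succ]
        have h1 := p.2.2.1 0
        have h2 := p.2.2.2 0
        omega
      · rw [bwdL_succ, bwdL_succ]
        have h1 := p.2.2.1 i
        have h2 := p.2.2.2 i
        have h3 := p.2.2.1 (i + 1)
        have h4 := p.2.2.2 (i + 1)
        omega⟩
  left_inv l := by
    apply Subtype.ext
    ext i
    rcases i with _ | i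
    · simp only [bwdL_zero]
      have h1 := l.2.1 0
      have h2 := l.2.2 0
      omega
    · simp only [bwdL_succ, fwdK_apply]
      have h1 := l.2.1 i
      have h2 := l.2.2 i
      have h3 := l.2.1 (i + 1)
      have h4 := l.2.2 (i + 1)
      omega
  right_inv p := by
    obtain ⟨a, k⟩ := p
    apply Prod.ext
    · simp only [bwdL_zero]; omega
    · apply Subtype.ext
      ext i
      simp only [fwdK_apply, bwdL_succ]
      have h1 := k.2.1 i
      have h2 := k.2.2 i
      omega

theorem size_rel (l : Up m n) :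
    sz l.1 + sz (fwdK m n l) = sz m + sz n + (l.1 0 - max (m 0) (n 0)) := by
  obtain ⟨K1, h1⟩ := exists_bound l.1
  obtain ⟨K2, h2⟩ := exists_bound (fwdK m n l)
  obtain ⟨K3, h3⟩ := exists_bound m
  obtain ⟨K4, h4⟩ := exists_bound n
  set K := K1 + K2 + K3 + K4 with hK
  rw [sz_eq_range l.1 (K + 1) (fun i hi => h1 i (by omega)),
    sz_eq_range (fwdK m n l) K (fun i hi => h2 i (by omega)),
    sz_eq_range m (K + 1) (fun i hi => h3 i (by omega)),
    sz_eq_range n (K + 1) (fun i hi => h4 i (by omega)),
    Finset.sum_range_succ' (fun i => l.1 i)]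
  have e1 : ∀ i, l.1 (i + 1) + fwdK m n l i =
      max (m (i + 1)) (n (i + 1)) + min (m i) (n i) := by
    intro i
    rw [fwdK_apply]
    have h1 := l.2.1 i
    have h2 := l.2.2 i
    omega
  have e2 : ∑ i ∈ Finset.range K, l.1 (i + 1) + ∑ i ∈ Finset.range K, fwdK m n l i =
      ∑ i ∈ Finset.range K, max (m (i + 1)) (n (i + 1)) + ∑ i ∈ Finset.range K, min (m i) (n i) := by
    rw [← Finset.sum_add_distrib, ← Finset.sum_add_distrib]
    exact Finset.sum_congr rfl (fun i _ => e1 i)
  have e3 : ∑ i ∈ Finset.range (K + 1), m i + ∑ i ∈ Finset.range (K + 1), n i =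
      ∑ i ∈ Finset.range (K + 1), max (m i) (n i) + ∑ i ∈ Finset.range (K + 1), min (m i) (n i) := by
    rw [← Finset.sum_add_distrib, ← Finset.sum_add_distrib]
    exact Finset.sum_congr rfl (fun i _ => by omega)
  have e4 : ∑ i ∈ Finset.range (K + 1), min (m i) (n i) =
      ∑ i ∈ Finset.range K, min (m i) (n i) := by
    rw [Finset.sum_range_succ, h3 K (by omega)]
    simp
  have e5 := Finset.sum_range_succ' (fun i => max (m i) (n i)) K
  have h0 := l.2.1 0
  have h0' := l.2.2 0
  have h0'' : max (m 0) (n 0) ≤ l.1 0 := max_le h0.1 h0'.1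
  omega

theorem size_le {m k : Pt} (h : inter m k) : sz k ≤ sz m := by
  obtain ⟨K1, h1⟩ := exists_bound m
  obtain ⟨K2, h2⟩ := exists_bound k
  rw [sz_eq_range m (K1 + K2) (fun i hi => h1 i (by omega)),
    sz_eq_range k (K1 + K2) (fun i hi => h2 i (by omega))]
  exact Finset.sum_le_sum (fun i _ => (h i).1)

/-- The commutation relation. -/
theorem commutation (z : ℝ≥0∞) :
    ∑' l : Up m n, z ^ sz l.1 = (1 - z)⁻¹ * ∑' k : Dn m n, z ^ (sz m + sz n - sz k.1) := by
  rw [← (locEquiv m n).symm.tsum_eq, ENNReal.tsum_prod', ← ENNReal.tsum_geometric,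
    ← ENNReal.tsum_mul_right]
  apply tsum_congr
  intro a
  rw [← ENNReal.tsum_mul_left]
  apply tsum_congr
  intro k
  rw [← pow_add]
  congr 1
  have h1 := size_rel m n ((locEquiv m n).symm (a, k))
  have h2 : fwdK m n ((locEquiv m n).symm (a, k)) = k.1 := by
    have := (locEquiv m n).apply_symm_apply (a, k)
    have h3 := congrArg (fun p => p.2.1) this
    exact h3
  have h4 : ((locEquiv m n).symm (a, k)).1 0 - max (m 0) (n 0) = a := by
    have := (locEquiv m n).apply_symm_apply (a, k)
    exact congrArg (fun p => p.1) this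
  rw [h2, h4] at h1
  have h5 := size_le k.2.1
  omega

end bij

end

end Pool.Agent.H25
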