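import Mathlib
import Pool.Agent.H25.Mac1

/-!
MacMahon's formula, part 2: weighted path sums.
-/

set_option autoImplicit false

namespace Pool.Agent.H25

open scoped ENNReal
open Classical

noncomputable section

/-- indicator -/
def ind (p : Prop) : ℝ≥0∞ := if p then 1 else 0

theorem ind_mul (p q : Prop) : ind p * ind q = ind (p ∧ q) := by
  unfold ind
  by_cases hp : p <;> by_cases hq : q <;> simp [hp, hq]

theorem commutation_ind (m n : Pt) (z : ℝ≥0∞) :
    ∑' l : Pt, ind (inter l m ∧ inter l n) * z ^ sz l =
      (1 - z)⁻¹ * ∑' k : Pt, ind (inter m k ∧ inter n k) * z ^ (sz m + sz n - sz k) := by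
  have h1 : ∑' l : Pt, ind (inter l m ∧ inter l n) * z ^ sz l = ∑' l : Up m n, z ^ sz l.1 := by
    have := tsum_subtype {l : Pt | inter l m ∧ inter l n} (fun l => z ^ sz l)
    refine Eq.trans ?_ this.symm
    apply tsum_congr
    intro l
    by_cases h : inter l m ∧ inter l n
    · rw [Set.indicator_of_mem (by exact h)]; simp [ind, h]
    · rw [Set.indicator_of_notMem (by exact h)]; simp [ind, h]
  have h2 : ∑' k : Pt, ind (inter m k ∧ inter n k) * z ^ (sz m + sz n - sz k) =
      ∑' k : Dn m n, z ^ (sz m + sz n - sz k.1) := by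
    have := tsum_subtype {k : Pt | inter m k ∧ inter n k} (fun k => z ^ (sz m + sz n - sz k))
    refine Eq.trans ?_ this.symm
    apply tsum_congr
    intro l
    by_cases h : inter m l ∧ inter n l
    · rw [Set.indicator_of_mem (by exact h)]; simp [ind, h]
    · rw [Set.indicator_of_notMem (by exact h)]; simp [ind, h]
  rw [h1, h2]
  exact commutation m n z

/-- weights of increasing chains -/
def wv (t : ℝ≥0∞) : ℕ → Pt → ℝ≥0∞
  | 0, l => ind (l = 0)
  | k + 1, l => (∑' m, wv t k m * ind (inter l m)) * t ^ sz l

theorem wv_at_zero (t : ℝ≥0∞) (k : ℕ) : wv t k 0 = 1 := by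
  induction k with
  | zero => simp [wv, ind]
  | succ k ih =>
    simp only [wv]
    rw [tsum_eq_single 0]
    · rw [ih, sz_zero]; simp [ind, inter_zero_zero]
    · intro m hm
      have : ¬ inter 0 m := fun h => hm (inter_zero_left h)
      simp [ind, this]

/-- the eigenvector relation -/
theorem eigen (t : ℝ≥0∞) (N : ℕ) : ∀ (e : ℕ) (n : Pt),
    ∑' l, wv t N l * ind (inter l n) * t ^ (e * sz l) =
      (∏ i ∈ Finset.range N, (1 - t ^ (i + 1 + e))⁻¹) * wv t N n * t ^ (e * sz n) := by
  induction N with
  | zero =>
    intro e n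
    simp only [Finset.range_zero, Finset.prod_empty, one_mul]
    rw [tsum_eq_single 0]
    · by_cases h : n = 0
      · subst h; simp [wv, ind, inter_zero_zero, sz_zero]
      · have : ¬ inter 0 n := fun h' => h (inter_zero_left h')
        simp [wv, ind, this, h]
    · intro l hl
      simp [wv, ind, hl]
  | succ N ih =>
    intro e n
    set z : ℝ≥0∞ := t ^ (e + 1) with hz
    have hzp : ∀ a : ℕ, z ^ a = t ^ ((e + 1) * a) := fun a => by rw [hz, pow_mul]
    calc ∑' l, wv t (N + 1) l * ind (inter l n) * t ^ (e * sz l)
        = ∑' l, ∑' m, wv t N m * (ind (inter l m ∧ inter l n) * z ^ sz l) := by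
          apply tsum_congr
          intro l
          simp only [wv]
          rw [mul_assoc, mul_assoc, ← ENNReal.tsum_mul_right]
          apply tsum_congr
          intro m
          rw [← ind_mul, hzp]
          have : t ^ ((e + 1) * sz l) = t ^ sz l * t ^ (e * sz l) := by
            rw [← pow_add]; congr 1; ring
          rw [this]
          ring
      _ = ∑' m, wv t N m * ∑' l, (ind (inter l m ∧ inter l n) * z ^ sz l) := by
          rw [ENNReal.tsum_comm]
          apply tsum_congr
          intro m
          rw [ENNReal.tsum_mul_left]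
      _ = ∑' m, wv t N m * ((1 - z)⁻¹ * ∑' k : Pt, ind (inter m k ∧ inter n k) *
            z ^ (sz m + sz n - sz k)) := by
          apply tsum_congr
          intro m
          rw [commutation_ind]
      _ = ∑' m, ∑' k, (1 - z)⁻¹ * ((ind (inter n k) * z ^ (sz n - sz k)) *
            (wv t N m * ind (inter m k) * t ^ ((e + 1) * sz m))) := by
          apply tsum_congr
          intro m
          rw [← ENNReal.tsum_mul_left, ← ENNReal.tsum_mul_left]
          apply tsum_congr
          intro k
          rw [← ind_mul]
          by_cases h : inter n k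
          · have h1 := size_le h
            have h2 : sz m + sz n - sz k = sz m + (sz n - sz k) := by omega
            rw [h2, pow_add, ← hzp]
            ring
          · simp [ind, h]
      _ = (1 - z)⁻¹ * ∑' k, (ind (inter n k) * z ^ (sz n - sz k)) *
            ∑' m, (wv t N m * ind (inter m k) * t ^ ((e + 1) * sz m)) := by
          rw [ENNReal.tsum_comm, ← ENNReal.tsum_mul_left]
          apply tsum_congr
          intro k
          rw [← ENNReal.tsum_mul_left, ← ENNReal.tsum_mul_left]
      _ = (1 - z)⁻¹ * ∑' k, (ind (inter n k) * z ^ (sz n - sz k)) *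
            ((∏ i ∈ Finset.range N, (1 - t ^ (i + 1 + (e + 1)))⁻¹) * wv t N k *
              t ^ ((e + 1) * sz k)) := by
          congr 1
          apply tsum_congr
          intro k
          rw [ih (e + 1) k]
      _ = (1 - z)⁻¹ * ∑' k, ((∏ i ∈ Finset.range N, (1 - t ^ (i + 1 + (e + 1)))⁻¹) * z ^ sz n) *
            (wv t N k * ind (inter n k)) := by
          congr 1
          apply tsum_congr
          intro k
          by_cases h : inter n k
          · have h1 := size_le h
            have h2 : z ^ sz n = z ^ (sz n - sz k) * z ^ sz k := by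
              rw [← pow_add]; congr 1; omega
            rw [h2, ← hzp]
            ring
          · simp [ind, h]
      _ = (∏ i ∈ Finset.range (N + 1), (1 - t ^ (i + 1 + e))⁻¹) * wv t (N + 1) n *
            t ^ (e * sz n) := by
          rw [ENNReal.tsum_mul_left, Finset.prod_range_succ']
          simp only [wv]
          have h1 : z ^ sz n = t ^ sz n * t ^ (e * sz n) := by
            rw [hzp, ← pow_add]; congr 1; ring
          have h2 : ∏ i ∈ Finset.range N, (1 - t ^ (i + 1 + (e + 1)))⁻¹ =
              ∏ i ∈ Finset.range N, (1 - t ^ (i + 1 + 1 + e))⁻¹ := by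
            apply Finset.prod_congr rfl
            intro i _
            congr 3
            ring
          have h3 : (1 - z)⁻¹ = (1 - t ^ (0 + 1 + e))⁻¹ := by
            rw [hz]; congr 3; ring
          rw [h1, h2, h3]
          ring

/-- general path sums -/
def ps (M : ℕ → Pt → Pt → ℝ≥0∞) : ℕ → Pt → ℝ≥0∞
  | 0, b => ind (b = 0)
  | K + 1, b => ∑' a, ps M K a * M K a b

theorem ps_eq_tsum (M : ℕ → Pt → Pt → ℝ≥0∞) (K : ℕ) : ∀ g : Pt → ℝ≥0∞,
    ∑' b, ps M K b * g b = ∑' s : Fin (K + 1) → Pt,
      ind (s 0 = 0) * (∏ i : Fin K, M i (s i.castSucc) (s i.succ)) * g (s (Fin.last K)) := by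
  induction K with
  | zero =>
    intro g
    rw [← (Equiv.funUnique (Fin 1) Pt).symm.tsum_eq]
    apply tsum_congr
    intro b
    simp [ps]
  | succ K ih =>
    intro g
    calc ∑' b, ps M (K + 1) b * g b = ∑' a, ps M K a * ∑' b, M K a b * g b := by
          simp only [ps]
          have : ∀ b, (∑' a, ps M K a * M K a b) * g b = ∑' a, ps M K a * (M K a b * g b) := by
            intro b
            rw [← ENNReal.tsum_mul_right]
            apply tsum_congr; intro a; ring
          rw [tsum_congr this, ENNReal.tsum_comm]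
          apply tsum_congr
          intro a
          rw [ENNReal.tsum_mul_left]
      _ = ∑' s : Fin (K + 1) → Pt, ind (s 0 = 0) *
            (∏ i : Fin K, M i (s i.castSucc) (s i.succ)) *
            ∑' b, M K (s (Fin.last K)) b * g b := ih _
      _ = ∑' b, ∑' s : Fin (K + 1) → Pt, ind (s 0 = 0) *
            (∏ i : Fin K, M i (s i.castSucc) (s i.succ)) *
            (M K (s (Fin.last K)) b * g b) := by
          rw [ENNReal.tsum_comm]
          apply tsum_congr
          intro s
          rw [ENNReal.tsum_mul_left]
      _ = _ := by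
          rw [← (Fin.snocEquiv (fun _ : Fin (K + 2) => Pt)).tsum_eq, ENNReal.tsum_prod']
          apply tsum_congr
          intro b
          apply tsum_congr
          intro s
          rw [Fin.prod_univ_castSucc]
          simp only [Fin.snocEquiv_apply, Fin.snoc_last, Fin.succ_last]
          have h0 : (Fin.snoc (α := fun _ => Pt) s b : Fin (K + 2) → Pt) 0 = s 0 := by
            have : (0 : Fin (K + 2)) = Fin.castSucc (0 : Fin (K + 1)) := rfl
            rw [this, Fin.snoc_castSucc]
          have h1 : ∀ i : Fin K, M (i.castSucc : Fin (K + 1))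
              ((Fin.snoc (α := fun _ => Pt) s b : Fin (K + 2) → Pt) i.castSucc.castSucc)
              ((Fin.snoc (α := fun _ => Pt) s b : Fin (K + 2) → Pt) i.castSucc.succ) =
              M i (s i.castSucc) (s i.succ) := by
            intro i
            rw [Fin.snoc_castSucc, ← Fin.castSucc_succ, Fin.snoc_castSucc]
            rfl
          rw [Finset.prod_congr rfl (fun i _ => h1 i), h0, Fin.snoc_castSucc]
          simp only [Fin.val_last]
          ring

/-- the transfer matrices -/
def Mt (t : ℝ≥0∞) (N : ℕ) (d : ℕ) (a b : Pt) : ℝ≥0∞ :=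
  if d < N then ind (inter b a) * t ^ sz b else ind (inter a b) * t ^ sz b

theorem ps_up (t : ℝ≥0∞) (N k : ℕ) (hk : k ≤ N) : ps (Mt t N) k = wv t k := by
  induction k with
  | zero => rfl
  | succ k ih =>
    funext b
    simp only [ps, wv]
    rw [ih (by omega), ← ENNReal.tsum_mul_right]
    apply tsum_congr
    intro a
    rw [Mt, if_pos (by omega)]
    ring

theorem ps_down (t : ℝ≥0∞) (N j : ℕ) (b : Pt) : ps (Mt t N) (N + j) b =
    (∏ e ∈ Finset.range j, ∏ i ∈ Finset.range N, (1 - t ^ (i + 1 + e))⁻¹) *
      (wv t N b * t ^ (j * sz b)) := by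
  induction j generalizing b with
  | zero => simp [ps_up t N N le_rfl]
  | succ j ih =>
    have : N + (j + 1) = (N + j) + 1 := by ring
    rw [this]
    simp only [ps]
    calc ∑' a, ps (Mt t N) (N + j) a * Mt t N (N + j) a b
        = ∑' a, ((∏ e ∈ Finset.range j, ∏ i ∈ Finset.range N, (1 - t ^ (i + 1 + e))⁻¹) *
            t ^ sz b) * (wv t N a * ind (inter a b) * t ^ (j * sz a)) := by
          apply tsum_congr
          intro a
          rw [ih a, Mt, if_neg (by omega)]
          ring
      _ = _ := by
          rw [ENNReal.tsum_mul_left, eigen t N j b, Finset.prod_range_succ]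
          have : t ^ ((j + 1) * sz b) = t ^ sz b * t ^ (j * sz b) := by
            rw [← pow_add]; congr 1; ring
          rw [this]
          ring

theorem ps_total (t : ℝ≥0∞) (N : ℕ) : ps (Mt t N) (N + N) 0 =
    ∏ e ∈ Finset.range N, ∏ i ∈ Finset.range N, (1 - t ^ (i + 1 + e))⁻¹ := by
  rw [ps_down, wv_at_zero, sz_zero]
  simp

/-- the path sum formula -/
theorem path_formula (t : ℝ≥0∞) (N : ℕ) :
    ∑' s : Fin (N + N + 1) → Pt, ind (s 0 = 0) *
      (∏ i : Fin (N + N), Mt t N i (s i.castSucc) (s i.succ)) * ind (s (Fin.last (N + N)) = 0) =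
    ∏ e ∈ Finset.range N, ∏ i ∈ Finset.range N, (1 - t ^ (i + 1 + e))⁻¹ := by
  rw [← ps_eq_tsum (Mt t N) (N + N) (fun b => ind (b = 0)), ← ps_total]
  rw [tsum_eq_single 0]
  · simp [ind]
  · intro b hb
    simp [ind, hb]

end

end Pool.Agent.H25
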