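import Mathlib
import Pool.Agent.H25.Mac2

/-!
MacMahon's formula, part 3: plane partitions inside an `N × N` square and chains of
interlacing sequences.
-/

set_option autoImplicit false

namespace Pool.Agent.H25

open scoped ENNReal
open Classical

noncomputable section

theorem ind_pos {p : Prop} (h : p) : ind p = 1 := by simp [ind, h]

theorem ind_neg {p : Prop} (h : ¬ p) : ind p = 0 := by simp [ind, h]

/-- plane partition arrays -/
def IsPP {N : ℕ} (f : Fin N → Fin N → ℕ) : Prop :=
  (∀ i j k : Fin N, i ≤ k → f k j ≤ f i j) ∧ (∀ i j k : Fin N, j ≤ k → f i k ≤ f i j)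

/-- extension by zero -/
def ext0 {N : ℕ} (f : Fin N → Fin N → ℕ) (i j : ℕ) : ℕ :=
  if h : i < N ∧ j < N then f ⟨i, h.1⟩ ⟨j, h.2⟩ else 0

theorem ext0_of_ge_left {N : ℕ} (f : Fin N → Fin N → ℕ) {i : ℕ} (j : ℕ) (h : N ≤ i) :
    ext0 f i j = 0 := by
  unfold ext0; rw [dif_neg]; omega

theorem ext0_of_ge_right {N : ℕ} (f : Fin N → Fin N → ℕ) (i : ℕ) {j : ℕ} (h : N ≤ j) :
    ext0 f i j = 0 := by
  unfold ext0; rw [dif_neg]; omega

theorem ext0_anti_left {N : ℕ} {f : Fin N → Fin N → ℕ} (hf : IsPP f) {i k : ℕ} (j : ℕ)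
    (hik : i ≤ k) : ext0 f k j ≤ ext0 f i j := by
  unfold ext0
  by_cases h : k < N ∧ j < N
  · rw [dif_pos h, dif_pos ⟨by omega, h.2⟩]
    exact hf.1 _ _ _ (by simpa using hik)
  · rw [dif_neg h]; exact Nat.zero_le _

theorem ext0_anti_right {N : ℕ} {f : Fin N → Fin N → ℕ} (hf : IsPP f) (i : ℕ) {j k : ℕ}
    (hjk : j ≤ k) : ext0 f i k ≤ ext0 f i j := by
  unfold ext0
  by_cases h : i < N ∧ k < N
  · rw [dif_pos h, dif_pos ⟨h.1, by omega⟩]
    exact hf.2 _ _ _ (by simpa using hjk)
  · rw [dif_neg h]; exact Nat.zero_le _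

/-- diagonal slices -/
def sl {N : ℕ} (f : Fin N → Fin N → ℕ) (d : ℕ) : Pt :=
  Finsupp.onFinset (Finset.range N) (fun i => ext0 f (i + (d - N)) (i + (N - d))) (by
    intro i hi
    rw [Finset.mem_range]
    by_contra hc
    exact hi (ext0_of_ge_left f _ (by omega)))

theorem sl_apply {N : ℕ} (f : Fin N → Fin N → ℕ) (d i : ℕ) :
    sl f d i = ext0 f (i + (d - N)) (i + (N - d)) := rfl

/-- the chain of slices -/
def chain {N : ℕ} (f : Fin N → Fin N → ℕ) : Fin (N + N + 1) → Pt := fun d => sl f d

theorem chain_injective {N : ℕ} : Function.Injective (chain (N := N)) := by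
  intro f g h
  funext i j
  have h1 : chain f ⟨N + i - j, by omega⟩ (min i j) = chain g ⟨N + i - j, by omega⟩ (min i j) := by
    rw [h]
  simp only [chain, sl_apply] at h1
  have e1 : min (i : ℕ) j + (N + i - j - N) = i := by omega
  have e2 : min (i : ℕ) j + (N - (N + i - j)) = j := by omega
  rw [e1, e2] at h1
  unfold ext0 at h1
  rw [dif_pos ⟨i.2, j.2⟩, dif_pos ⟨i.2, j.2⟩] at h1
  exact h1

theorem sl_sum {N : ℕ} (f : Fin N → Fin N → ℕ) :
    ∑ d ∈ Finset.range (N + N), sz (sl f (d + 1)) = ∑ i, ∑ j, f i j := by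
  have h1 : ∀ d, sz (sl f (d + 1)) = ∑ i ∈ Finset.range N,
      ext0 f (i + (d + 1 - N)) (i + (N - (d + 1))) := by
    intro d
    apply sz_eq_range
    intro i hi
    exact ext0_of_ge_left f _ (by omega)
  have h2 : ∑ i, ∑ j, f i j = ∑ p ∈ Finset.range N ×ˢ Finset.range N, ext0 f p.1 p.2 := by
    rw [Finset.sum_product, ← Fin.sum_univ_eq_sum_range (fun i => ∑ j ∈ Finset.range N, ext0 f i j)]
    apply Finset.sum_congr rfl
    intro i _
    rw [← Fin.sum_univ_eq_sum_range (fun j => ext0 f i j)]
    apply Finset.sum_congr rfl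
    intro j _
    unfold ext0
    rw [dif_pos ⟨i.2, j.2⟩]
  rw [h2, Finset.sum_congr rfl (fun d _ => h1 d), ← Finset.sum_product']
  symm
  apply Finset.sum_of_injOn (fun p : ℕ × ℕ => (N + p.1 - p.2 - 1, min p.1 p.2))
  · rintro ⟨a, b⟩ hab ⟨c, d⟩ hcd h
    simp only [Finset.coe_product, Finset.coe_range, Set.mem_prod, Set.mem_Iio] at hab hcd
    simp only [Prod.mk.injEq] at h ⊢
    omega
  · rintro ⟨a, b⟩ hab
    simp only [Finset.coe_product, Finset.coe_range, Set.mem_prod, Set.mem_Iio] at hab ⊢
    omega
  · rintro ⟨d, i⟩ hdi hni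
    simp only [Finset.mem_product, Finset.mem_range] at hdi
    by_contra hne
    apply hni
    have hb : i + (d + 1 - N) < N ∧ i + (N - (d + 1)) < N := by
      by_contra hc
      apply hne
      unfold ext0
      rw [dif_neg hc]
    refine ⟨(i + (d + 1 - N), i + (N - (d + 1))), ?_, ?_⟩
    · simp only [Finset.coe_product, Finset.coe_range, Set.mem_prod, Set.mem_Iio]
      exact hb
    · simp only [Prod.mk.injEq]
      omega
  · rintro ⟨a, b⟩ hab
    simp only [Finset.mem_product, Finset.mem_range] at hab
    simp only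
    congr 1 <;> omega

theorem inter_up {N : ℕ} {f : Fin N → Fin N → ℕ} (hf : IsPP f) {d : ℕ} (hd : d < N) :
    inter (sl f (d + 1)) (sl f d) := by
  intro i
  rw [sl_apply, sl_apply, sl_apply]
  constructor
  · have e1 : i + (d + 1 - N) = i + (d - N) := by omega
    rw [e1]
    exact ext0_anti_right hf _ (by omega)
  · have e1 : i + 1 + (N - (d + 1)) = i + (N - d) := by omega
    rw [e1]
    exact ext0_anti_left hf _ (by omega)

theorem inter_down {N : ℕ} {f : Fin N → Fin N → ℕ} (hf : IsPP f) {d : ℕ} (hd : N ≤ d) :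
    inter (sl f d) (sl f (d + 1)) := by
  intro i
  rw [sl_apply, sl_apply, sl_apply]
  constructor
  · have e1 : i + (N - (d + 1)) = i + (N - d) := by omega
    rw [e1]
    exact ext0_anti_left hf _ (by omega)
  · have e1 : i + 1 + (d - N) = i + (d + 1 - N) := by omega
    rw [e1]
    exact ext0_anti_right hf _ (by omega)

/-- the summand of the path formula -/
def summand (t : ℝ≥0∞) (N : ℕ) (s : Fin (N + N + 1) → Pt) : ℝ≥0∞ :=
  ind (s 0 = 0) * (∏ i : Fin (N + N), Mt t N i (s i.castSucc) (s i.succ)) *
    ind (s (Fin.last (N + N)) = 0)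

theorem summand_chain (t : ℝ≥0∞) {N : ℕ} {f : Fin N → Fin N → ℕ} (hf : IsPP f) :
    summand t N (chain f) = t ^ (∑ i, ∑ j, f i j) := by
  unfold summand
  have h0 : chain f 0 = 0 := by
    ext i
    simp only [chain, sl_apply, Fin.val_zero, Finsupp.coe_zero, Pi.zero_apply]
    exact ext0_of_ge_right f _ (by omega)
  have hl : chain f (Fin.last (N + N)) = 0 := by
    ext i
    simp only [chain, sl_apply, Fin.val_last, Finsupp.coe_zero, Pi.zero_apply]
    exact ext0_of_ge_left f _ (by omega)
  have hM : ∀ i : Fin (N + N), Mt t N i (chain f i.castSucc) (chain f i.succ) =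
      t ^ sz (sl f (i + 1)) := by
    intro i
    unfold Mt
    by_cases h : (i : ℕ) < N
    · rw [if_pos h]
      have : inter (chain f i.succ) (chain f i.castSucc) := by
        simp only [chain, Fin.val_succ, Fin.val_castSucc]
        exact inter_up hf h
      rw [ind_pos this, one_mul]
      simp only [chain, Fin.val_succ]
    · rw [if_neg h]
      have : inter (chain f i.castSucc) (chain f i.succ) := by
        simp only [chain, Fin.val_succ, Fin.val_castSucc]
        exact inter_down hf (by omega)
      rw [ind_pos this, one_mul]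
      simp only [chain, Fin.val_succ]
  rw [h0, hl, Finset.prod_congr rfl (fun i _ => hM i), Finset.prod_pow_eq_pow_sum]
  simp only [ind, if_true, one_mul, mul_one]
  congr 1
  rw [← sl_sum f, ← Fin.sum_univ_eq_sum_range (fun d => sz (sl f (d + 1)))]

/-- chains with nonzero weight come from plane partitions -/
theorem support_subset (t : ℝ≥0∞) (N : ℕ) (s : Fin (N + N + 1) → Pt) (hs : summand t N s ≠ 0) :
    ∃ f : Fin N → Fin N → ℕ, IsPP f ∧ chain f = s := by
  have h0 : s 0 = 0 := by
    by_contra h
    apply hs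
    simp [summand, ind, h]
  have hl : s (Fin.last (N + N)) = 0 := by
    by_contra h
    apply hs
    simp [summand, ind, h]
  have hM : ∀ i : Fin (N + N), Mt t N i (s i.castSucc) (s i.succ) ≠ 0 := by
    intro i h
    apply hs
    unfold summand
    rw [Finset.prod_eq_zero (Finset.mem_univ i) h]
    simp
  -- natural number indexing
  set S : ℕ → Pt := fun d => if h : d < N + N + 1 then s ⟨d, h⟩ else 0 with hS
  have hSs : ∀ d : Fin (N + N + 1), S d = s d := by
    intro d; simp only [hS]; rw [dif_pos d.2]
  have hS0 : S 0 = 0 := by simp only [hS]; rw [dif_pos (by omega)]; exact h0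
  have hS2N : S (N + N) = 0 := by simp only [hS]; rw [dif_pos (by omega)]; exact hl
  have hup : ∀ d, d < N → inter (S (d + 1)) (S d) := by
    intro d hd
    have h1 := hM ⟨d, by omega⟩
    unfold Mt at h1
    rw [if_pos (by simpa using hd)] at h1
    by_contra hc
    apply h1
    have h2 : ¬ inter (s (Fin.succ ⟨d, by omega⟩)) (s (Fin.castSucc ⟨d, by omega⟩)) := by
      intro h3
      apply hc
      have e1 : S (d + 1) = s (Fin.succ ⟨d, by omega⟩) := hSs (Fin.succ ⟨d, by omega⟩)
      have e2 : S d = s (Fin.castSucc ⟨d, by omega⟩) := hSs (Fin.castSucc ⟨d, by omega⟩)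
      rw [e1, e2]; exact h3
    rw [ind_neg h2, zero_mul]
  have hdn : ∀ d, N ≤ d → d < N + N → inter (S d) (S (d + 1)) := by
    intro d hd hd2
    have h1 := hM ⟨d, hd2⟩
    unfold Mt at h1
    rw [if_neg (by simp only; omega)] at h1
    by_contra hc
    apply h1
    have h2 : ¬ inter (s (Fin.castSucc ⟨d, hd2⟩)) (s (Fin.succ ⟨d, hd2⟩)) := by
      intro h3
      apply hc
      have e1 : S (d + 1) = s (Fin.succ ⟨d, hd2⟩) := hSs (Fin.succ ⟨d, hd2⟩)
      have e2 : S d = s (Fin.castSucc ⟨d, hd2⟩) := hSs (Fin.castSucc ⟨d, hd2⟩)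
      rw [e1, e2]; exact h3
    rw [ind_neg h2, zero_mul]
  -- vanishing
  have hz1 : ∀ d, d ≤ N → ∀ i, d ≤ i → S d i = 0 := by
    intro d
    induction d with
    | zero => intro _ i _; rw [hS0]; rfl
    | succ d ih =>
      intro hd i hi
      obtain ⟨k, rfl⟩ : ∃ k, i = k + 1 := ⟨i - 1, by omega⟩
      have h1 := (hup d (by omega) k).2
      have h2 := ih (by omega) k (by omega)
      omega
  have hz2 : ∀ e, e ≤ N → ∀ i, e ≤ i → S (N + N - e) i = 0 := by
    intro e
    induction e with
    | zero => intro _ i _; simp only [Nat.sub_zero]; rw [hS2N]; rfl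
    | succ e ih =>
      intro he i hi
      obtain ⟨k, rfl⟩ : ∃ k, i = k + 1 := ⟨i - 1, by omega⟩
      have h1 := (hdn (N + N - (e + 1)) (by omega) (by omega) k).2
      have h2 := ih (by omega) k (by omega)
      have e1 : N + N - (e + 1) + 1 = N + N - e := by omega
      rw [e1] at h1
      omega
  refine ⟨fun i j => S (N + i - j) (min (i : ℕ) j), ⟨?_, ?_⟩, ?_⟩
  · -- antitone in the row index
    have step : ∀ i j : ℕ, i + 1 < N → j < N →
        S (N + (i + 1) - j) (min (i + 1) j) ≤ S (N + i - j) (min i j) := by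
      intro i j hi hj
      rcases Nat.lt_or_ge i j with h | h
      · have h1 := (hup (N + i - j) (by omega) i).2
        have e1 : N + (i + 1) - j = N + i - j + 1 := by omega
        have e2 : min (i + 1) j = i + 1 := by omega
        have e3 : min i j = i := by omega
        rw [e1, e2, e3]; exact h1
      · have h1 := (hdn (N + i - j) (by omega) (by omega) j).1
        have e1 : N + (i + 1) - j = N + i - j + 1 := by omega
        have e2 : min (i + 1) j = j := by omega
        have e3 : min i j = j := by omega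
        rw [e1, e2, e3]; exact h1
    intro i j k hik
    simp only
    have key : ∀ n : ℕ, ∀ i j : ℕ, i + n < N → j < N →
        S (N + (i + n) - j) (min (i + n) j) ≤ S (N + i - j) (min i j) := by
      intro n
      induction n with
      | zero => intro i j _ _; exact le_rfl
      | succ n ih =>
        intro i j h1 h2
        have h3 := step (i + n) j (by omega) h2
        exact h3.trans (ih i j (by omega) h2)
    have h1 := key (k - i) i j (by omega) j.2
    have hik' : (i : ℕ) ≤ k := hik
    have e1 : (i : ℕ) + (k - i) = k := by omega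
    rw [e1] at h1
    exact h1
  · -- antitone in the column index
    have step : ∀ i j : ℕ, i < N → j + 1 < N →
        S (N + i - (j + 1)) (min i (j + 1)) ≤ S (N + i - j) (min i j) := by
      intro i j hi hj
      rcases Nat.lt_or_ge j i with h | h
      · have h1 := (hdn (N + i - (j + 1)) (by omega) (by omega) j).2
        have e1 : N + i - (j + 1) + 1 = N + i - j := by omega
        have e2 : min i (j + 1) = j + 1 := by omega
        have e3 : min i j = j := by omega
        rw [e1] at h1
        rw [e2, e3]; exact h1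
      · have h1 := (hup (N + i - (j + 1)) (by omega) i).1
        have e1 : N + i - (j + 1) + 1 = N + i - j := by omega
        have e2 : min i (j + 1) = i := by omega
        have e3 : min i j = i := by omega
        rw [e1] at h1
        rw [e2, e3]; exact h1
    intro i j k hjk
    simp only
    have key : ∀ n : ℕ, ∀ i j : ℕ, i < N → j + n < N →
        S (N + i - (j + n)) (min i (j + n)) ≤ S (N + i - j) (min i j) := by
      intro n
      induction n with
      | zero => intro i j _ _; exact le_rfl
      | succ n ih =>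
        intro i j h1 h2
        have h3 := step i (j + n) h1 (by omega)
        exact h3.trans (ih i j h1 (by omega))
    have h1 := key (k - j) i j i.2 (by omega)
    have hjk' : (j : ℕ) ≤ k := hjk
    have e1 : (j : ℕ) + (k - j) = k := by omega
    rw [e1] at h1
    exact h1
  · -- the chain
    funext d
    rw [← hSs d]
    ext i
    simp only [chain, sl_apply]
    unfold ext0
    have hd := d.2
    by_cases h : i + ((d : ℕ) - N) < N ∧ i + (N - (d : ℕ)) < N
    · rw [dif_pos h]
      simp only
      have e1 : N + (i + ((d : ℕ) - N)) - (i + (N - (d : ℕ))) = d := by omega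
      have e2 : min (i + ((d : ℕ) - N)) (i + (N - (d : ℕ))) = i := by omega
      rw [e1, e2]
    · rw [dif_neg h]
      symm
      rcases Nat.lt_or_ge N d with h1 | h1
      · have := hz2 (N + N - d) (by omega) i (by omega)
        have e1 : N + N - (N + N - (d : ℕ)) = d := by omega
        rwa [e1] at this
      · exact hz1 d h1 i (by omega)

/-- generating function of plane partitions in the square -/
theorem pp_square (t : ℝ≥0∞) (N : ℕ) :
    ∑' f : {f : Fin N → Fin N → ℕ // IsPP f}, t ^ (∑ i, ∑ j, f.1 i j) =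
      ∏ e ∈ Finset.range N, ∏ i ∈ Finset.range N, (1 - t ^ (i + 1 + e))⁻¹ := by
  rw [← path_formula t N]
  have hinj : Function.Injective (fun f : {f : Fin N → Fin N → ℕ // IsPP f} => chain f.1) :=
    fun f g h => Subtype.ext (chain_injective h)
  have h1 := hinj.tsum_eq (f := summand t N) (by
    intro s hs
    obtain ⟨f, hf, hfs⟩ := support_subset t N s hs
    exact ⟨⟨f, hf⟩, hfs⟩)
  have h2 : ∀ f : {f : Fin N → Fin N → ℕ // IsPP f},
      summand t N (chain f.1) = t ^ (∑ i, ∑ j, f.1 i j) := fun f => summand_chain t f.2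
  rw [← tsum_congr h2]
  exact h1

end

end Pool.Agent.H25
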