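import Mathlib
import Pool.Agent.H25.DiffAlg

/-!
From an algebraic differential equation for `f` with `X f' = f G` to one for `G`, and its
evaluation inside the unit disc.
-/

set_option autoImplicit false

namespace Pool.Agent.H25

open PowerSeries

noncomputable section

/-- the series `∑ n^i σ₂(n) X^n` -/
def Gi (i : ℕ) : PowerSeries ℂ :=
  PowerSeries.mk (fun n => (n : ℂ) ^ i * ((ArithmeticFunction.sigma 2 n : ℕ) : ℂ))

/-- the Euler derivation -/
def theta : Derivation ℂ (PowerSeries ℂ) (PowerSeries ℂ) :=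
  (PowerSeries.X : PowerSeries ℂ) • PowerSeries.derivative ℂ

theorem theta_apply (a : PowerSeries ℂ) :
    theta a = PowerSeries.X * PowerSeries.derivative ℂ a := rfl

theorem theta_Gi (i : ℕ) : theta (Gi i) = Gi (i + 1) := by
  rw [theta_apply]
  ext n
  rcases n with _ | n
  · simp [Gi]
  · rw [PowerSeries.coeff_succ_X_mul, PowerSeries.coeff_derivative]
    simp only [Gi, PowerSeries.coeff_mk]
    push_cast
    ring

theorem iterate_theta (i : ℕ) : (theta^[i]) (Gi 0) = Gi i := by
  induction i with
  | zero => rfl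
  | succ i ih => rw [Function.iterate_succ_apply', ih, theta_Gi]

theorem aeval_X_polynomial (p : Polynomial ℂ) :
    Polynomial.aeval (PowerSeries.X : PowerSeries ℂ) p = (p : PowerSeries ℂ) := by
  induction p using Polynomial.induction_on' with
  | add p q hp hq => rw [map_add, hp, hq, Polynomial.coe_add]
  | monomial n a =>
    rw [Polynomial.aeval_monomial, Polynomial.coe_monomial, PowerSeries.monomial_eq_mk]
    ext m
    rw [PowerSeries.algebraMap_apply, PowerSeries.coeff_C_mul, PowerSeries.coeff_X_pow]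
    simp

theorem X_not_clos_empty : (PowerSeries.X : PowerSeries ℂ) ∉ clos (∅ : Set (PowerSeries ℂ)) := by
  intro h
  rw [mem_clos] at h
  have h' : IsAlgebraic (⊥ : Subalgebra ℂ (PowerSeries ℂ)) (PowerSeries.X : PowerSeries ℂ) := by
    rw [← Algebra.adjoin_empty]; exact h
  obtain ⟨p, hp, hp0⟩ := Subalgebra.isAlgebraic_of_isAlgebraic_bot h'
  rw [aeval_X_polynomial] at hp0
  exact hp (Polynomial.coe_eq_zero_iff.mp hp0)

/-- **Stage 1.** -/
theorem stage1 (f : PowerSeries ℂ) (hf : f ≠ 0)
    (hG : PowerSeries.X * PowerSeries.derivative ℂ f = f * Gi 0)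
    (Q : MvPolynomial ℕ ℂ) (hQ : Q ≠ 0)
    (hrel : MvPolynomial.aeval (fun i : ℕ => if i = 0 then (PowerSeries.X : PowerSeries ℂ)
      else (⇑(PowerSeries.derivative ℂ))^[i - 1] f) Q = 0) :
    ∃ P : MvPolynomial ℕ ℂ, P ≠ 0 ∧ MvPolynomial.aeval Gi P = 0 := by
  set z : ℕ → PowerSeries ℂ := fun i : ℕ => if i = 0 then (PowerSeries.X : PowerSeries ℂ)
      else (⇑(PowerSeries.derivative ℂ))^[i - 1] f with hz
  obtain ⟨n, hn⟩ := exists_clos_of_rel z hQ hrel
  set s : Set (PowerSeries ℂ) := z '' Set.Iio n with hs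
  have hsfin : s.Finite := (Set.finite_Iio n).image z
  have hn0 : n ≠ 0 := by
    rintro rfl
    have h1 : s = ∅ := by rw [hs]; ext x; simp
    rw [h1] at hn
    exact X_not_clos_empty hn
  have hX : (PowerSeries.X : PowerSeries ℂ) ∈ s := ⟨0, by simp; omega, by simp [hz]⟩
  have hXc : (PowerSeries.X : PowerSeries ℂ) ∈ clos s := subset_clos hX
  have hD : ∀ y ∈ s, PowerSeries.derivative ℂ y ∈ clos s := by
    rintro _ ⟨i, hi, rfl⟩
    simp only [Set.mem_Iio] at hi
    rcases Nat.eq_zero_or_pos i with h0 | hpos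
    · have : z i = PowerSeries.X := by simp [hz, h0]
      rw [this, PowerSeries.derivative_X]
      exact Subalgebra.one_mem _
    · have h1 : PowerSeries.derivative ℂ (z i) = z (i + 1) := by
        obtain ⟨k, rfl⟩ : ∃ k, i = k + 1 := ⟨i - 1, by omega⟩
        simp only [hz]
        simp [Function.iterate_succ_apply']
      rw [h1]
      rcases Nat.lt_or_ge (i + 1) n with h2 | h2
      · exact subset_clos ⟨i + 1, by simpa using h2, rfl⟩
      · have : i + 1 = n := by omega
        rw [this]; exact hn
  have hfc : f ∈ clos s := by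
    have h1 : z 1 = f := by simp [hz]
    rcases Nat.lt_or_ge 1 n with h2 | h2
    · rw [← h1]; exact subset_clos ⟨1, by simpa using h2, rfl⟩
    · have : n = 1 := by omega
      rw [← h1, ← this]; exact hn
  have hDf : PowerSeries.derivative ℂ f ∈ clos s := deriv_clos _ hD hfc
  have hGc : Gi 0 ∈ clos s := by
    apply clos_of_mul hf hfc
    rw [← hG]
    exact Subalgebra.mul_mem _ hXc hDf
  have hth : ∀ y ∈ s, theta y ∈ clos s := by
    intro y hy
    rw [theta_apply]
    exact Subalgebra.mul_mem _ hXc (hD y hy)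
  obtain ⟨P, hP, hP0⟩ := dalg_of_clos theta hsfin hth hGc
  refine ⟨P, hP, ?_⟩
  rw [← hP0]
  congr 2
  funext i
  exact (iterate_theta i).symm

/-! ### evaluation at a point of the disc -/

/-- absolute convergence at `q` -/
def conv (q : ℂ) (a : PowerSeries ℂ) : Prop := Summable (fun n => ‖PowerSeries.coeff n a * q ^ n‖)

/-- value at `q` -/
def evq (q : ℂ) (a : PowerSeries ℂ) : ℂ := ∑' n, PowerSeries.coeff n a * q ^ n

theorem conv_C (q c : ℂ) : conv q (PowerSeries.C c) ∧ evq q (PowerSeries.C c) = c := by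
  constructor
  · unfold conv
    apply summable_of_ne_finset_zero (s := {0})
    intro b hb
    simp only [Finset.mem_singleton] at hb
    rw [PowerSeries.coeff_C, if_neg hb]; simp
  · unfold evq
    rw [tsum_eq_single 0]
    · simp
    · intro b hb
      rw [PowerSeries.coeff_C, if_neg hb]; simp

theorem conv_add {q : ℂ} {a b : PowerSeries ℂ} (ha : conv q a) (hb : conv q b) :
    conv q (a + b) ∧ evq q (a + b) = evq q a + evq q b := by
  constructor
  · unfold conv at *
    refine Summable.of_nonneg_of_le (fun n => norm_nonneg _) (fun n => ?_) (ha.add hb)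
    rw [map_add, add_mul]
    exact norm_add_le _ _
  · unfold evq
    rw [← (Summable.of_norm ha).tsum_add (Summable.of_norm hb)]
    apply tsum_congr
    intro n
    rw [map_add, add_mul]

theorem conv_mul {q : ℂ} {a b : PowerSeries ℂ} (ha : conv q a) (hb : conv q b) :
    conv q (a * b) ∧ evq q (a * b) = evq q a * evq q b := by
  have e : (fun n => PowerSeries.coeff n (a * b) * q ^ n) = fun n =>
      ∑ kl ∈ Finset.HasAntidiagonal.antidiagonal n,
      (PowerSeries.coeff kl.1 a * q ^ kl.1) * (PowerSeries.coeff kl.2 b * q ^ kl.2) := by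
    funext n
    rw [PowerSeries.coeff_mul, Finset.sum_mul]
    apply Finset.sum_congr rfl
    intro kl hkl
    rw [Finset.HasAntidiagonal.mem_antidiagonal] at hkl
    rw [← hkl, pow_add]
    ring
  have ha' : Summable (fun n => ‖(fun n => PowerSeries.coeff n a * q ^ n) n‖) := ha
  have hb' : Summable (fun n => ‖(fun n => PowerSeries.coeff n b * q ^ n) n‖) := hb
  have h1 := summable_norm_sum_mul_antidiagonal_of_summable_norm ha' hb'
  have h2 := tsum_mul_tsum_eq_tsum_sum_antidiagonal_of_summable_norm ha' hb'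
  refine ⟨?_, ?_⟩
  · have : (fun n => ‖PowerSeries.coeff n (a * b) * q ^ n‖) = fun n =>
      ‖(fun n => ∑ kl ∈ Finset.HasAntidiagonal.antidiagonal n,
      (PowerSeries.coeff kl.1 a * q ^ kl.1) * (PowerSeries.coeff kl.2 b * q ^ kl.2)) n‖ := by
      rw [← e]
    unfold conv
    rw [this]
    exact h1
  · unfold evq
    rw [e]
    exact h2.symm

theorem conv_aeval {q : ℂ} (x : ℕ → PowerSeries ℂ) (hx : ∀ i, conv q (x i))
    (P : MvPolynomial ℕ ℂ) : conv q (MvPolynomial.aeval x P) ∧
      evq q (MvPolynomial.aeval x P) = MvPolynomial.eval (fun i => evq q (x i)) P := by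
  induction P using MvPolynomial.induction_on with
  | C a =>
    have : MvPolynomial.aeval x (MvPolynomial.C a) = PowerSeries.C a := by
      rw [MvPolynomial.aeval_C]; rfl
    rw [this, MvPolynomial.eval_C]
    exact conv_C q a
  | add p r hp hr =>
    rw [map_add, map_add, ← hp.2, ← hr.2]
    exact conv_add hp.1 hr.1
  | mul_X p i hp =>
    rw [map_mul, map_mul, MvPolynomial.aeval_X, MvPolynomial.eval_X, ← hp.2]
    exact conv_mul hp.1 (hx i)

end

end Pool.Agent.H25
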