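import Mathlib
import Pool.Agent.H25.Mac3
import Pool.Agent.H25.Stage1

/-!
MacMahon's formula, part 4: power series form.
-/

set_option autoImplicit false

namespace Pool.Agent.H25

open scoped ENNReal

noncomputable section

/-- plane partitions of `n` inside the `N × N` square -/
def ppSet (N n : ℕ) : Set (Fin N → Fin N → ℕ) := {f | IsPP f ∧ (∑ i, ∑ j, f i j) = n}

theorem ppSet_finite (N n : ℕ) : (ppSet N n).Finite := by
  apply (Set.finite_Icc (0 : Fin N → Fin N → ℕ) (fun _ _ => n)).subset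
  rintro f ⟨_, hf⟩
  constructor
  · intro i j; exact Nat.zero_le _
  · intro i j
    calc f i j ≤ ∑ j, f i j := Finset.single_le_sum (f := fun j => f i j)
          (fun _ _ => Nat.zero_le _) (Finset.mem_univ j)
      _ ≤ ∑ i, ∑ j, f i j := Finset.single_le_sum (f := fun i => ∑ j, f i j)
          (fun _ _ => Nat.zero_le _) (Finset.mem_univ i)
      _ = n := hf

/-- number of plane partitions of `n` inside the `N × N` square -/
def pN (N n : ℕ) : ℕ := (ppSet N n).ncard

theorem tsum_pN (t : ℝ≥0∞) (N : ℕ) :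
    ∑' n : ℕ, (pN N n : ℝ≥0∞) * t ^ n =
      ∏ e ∈ Finset.range N, ∏ i ∈ Finset.range N, (1 - t ^ (i + 1 + e))⁻¹ := by
  rw [← pp_square t N]
  set w : {f : Fin N → Fin N → ℕ // IsPP f} → ℕ := fun f => ∑ i, ∑ j, f.1 i j with hw
  rw [← (Equiv.sigmaFiberEquiv w).tsum_eq, ENNReal.tsum_sigma']
  apply tsum_congr
  intro n
  have h1 : ∀ x : {f : {f : Fin N → Fin N → ℕ // IsPP f} // w f = n},
      t ^ (∑ i, ∑ j, ((Equiv.sigmaFiberEquiv w) ⟨n, x⟩).1 i j) = t ^ n := by
    intro x
    have : w x.1 = n := x.2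
    simp only [hw] at this
    simp only [Equiv.sigmaFiberEquiv_apply]
    rw [this]
  rw [tsum_congr h1, ENNReal.tsum_const]
  congr 1
  have e : {f : {f : Fin N → Fin N → ℕ // IsPP f} // w f = n} ≃ ppSet N n :=
    Equiv.subtypeSubtypeEquivSubtypeInter (fun f : Fin N → Fin N → ℕ => IsPP f)
      (fun f => (∑ i, ∑ j, f i j) = n)
  rw [ENat.card_congr e]
  have h2 : ENat.card (ppSet N n) = (ppSet N n).encard := rfl
  rw [h2, ← (ppSet_finite N n).cast_ncard_eq]
  rfl

/-- the power series of `pN N` -/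
def AN (N : ℕ) : PowerSeries ℂ := PowerSeries.mk (fun n => (pN N n : ℂ))

theorem AN_eval (N : ℕ) {t : ℝ} (h0 : 0 < t) (h1 : t < 1) :
    conv (t : ℂ) (AN N) ∧ evq (t : ℂ) (AN N) =
      ∏ e ∈ Finset.range N, ∏ i ∈ Finset.range N, (1 - (t : ℂ) ^ (i + 1 + e))⁻¹ := by
  set T : ℝ≥0∞ := ENNReal.ofReal t with hT
  have hfac : ∀ m : ℕ, (1 - T ^ (m + 1))⁻¹ = ENNReal.ofReal ((1 - t ^ (m + 1))⁻¹) := by
    intro m
    have h2 : t ^ (m + 1) < 1 := pow_lt_one₀ h0.le h1 (by omega)
    rw [hT, ← ENNReal.ofReal_pow h0.le, ← ENNReal.ofReal_one,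
      ← ENNReal.ofReal_sub _ (by positivity), ENNReal.ofReal_inv_of_pos (by linarith)]
  have hpos : ∀ m : ℕ, 0 ≤ (1 - t ^ (m + 1))⁻¹ := by
    intro m
    have h2 : t ^ (m + 1) < 1 := pow_lt_one₀ h0.le h1 (by omega)
    exact inv_nonneg.mpr (by linarith)
  have hprod : ∏ e ∈ Finset.range N, ∏ i ∈ Finset.range N, (1 - T ^ (i + 1 + e))⁻¹ =
      ENNReal.ofReal (∏ e ∈ Finset.range N, ∏ i ∈ Finset.range N, (1 - t ^ (i + 1 + e))⁻¹) := by
    rw [ENNReal.ofReal_prod_of_nonneg]
    · apply Finset.prod_congr rfl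
      intro e _
      rw [ENNReal.ofReal_prod_of_nonneg]
      · apply Finset.prod_congr rfl
        intro i _
        have : i + 1 + e = (i + e) + 1 := by ring
        rw [this]
        exact hfac _
      · intro i _
        have : i + 1 + e = (i + e) + 1 := by ring
        rw [this]
        exact hpos _
    · intro e _
      apply Finset.prod_nonneg
      intro i _
      have : i + 1 + e = (i + e) + 1 := by ring
      rw [this]
      exact hpos _
  have hmain := tsum_pN T N
  rw [hprod] at hmain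
  have hne : ∑' n : ℕ, (pN N n : ℝ≥0∞) * T ^ n ≠ ⊤ := by rw [hmain]; exact ENNReal.ofReal_ne_top
  have hterm : ∀ n : ℕ, ((pN N n : ℝ≥0∞) * T ^ n).toReal = (pN N n : ℝ) * t ^ n := by
    intro n
    rw [ENNReal.toReal_mul, ENNReal.toReal_pow, hT, ENNReal.toReal_ofReal h0.le,
      ENNReal.toReal_natCast]
  have hsum : Summable (fun n : ℕ => (pN N n : ℝ) * t ^ n) := by
    have := ENNReal.summable_toReal hne
    exact this.congr hterm
  have hval : ∑' n : ℕ, (pN N n : ℝ) * t ^ n =
      ∏ e ∈ Finset.range N, ∏ i ∈ Finset.range N, (1 - t ^ (i + 1 + e))⁻¹ := by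
    rw [← tsum_congr hterm, ← ENNReal.tsum_toReal_eq, hmain, ENNReal.toReal_ofReal]
    · apply Finset.prod_nonneg
      intro e _
      apply Finset.prod_nonneg
      intro i _
      have : i + 1 + e = (i + e) + 1 := by ring
      rw [this]
      exact hpos _
    · intro n
      exact ENNReal.ne_top_of_tsum_ne_top hne n
  constructor
  · unfold conv
    refine hsum.congr ?_
    intro n
    simp only [AN, PowerSeries.coeff_mk]
    rw [norm_mul, norm_pow, Complex.norm_natCast, Complex.norm_real, Real.norm_eq_abs,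
      abs_of_pos h0]
  · unfold evq
    have : ∀ n : ℕ, PowerSeries.coeff n (AN N) * (t : ℂ) ^ n =
        (((pN N n : ℝ) * t ^ n : ℝ) : ℂ) := by
      intro n
      simp [AN, PowerSeries.coeff_mk]
    rw [tsum_congr this, ← Complex.ofReal_tsum, hval]
    push_cast
    rfl

/-- uniqueness of power series -/
theorem eq_zero_of_evq (a : PowerSeries ℂ)
    (h : ∀ t : ℝ, 0 < t → t < 1 → conv (t : ℂ) a ∧ evq (t : ℂ) a = 0) : a = 0 := by
  ext n
  induction n using Nat.strong_induction_on with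
  | _ n ih =>
    rw [map_zero]
    have hs : Summable (fun k : ℕ => ‖PowerSeries.coeff (k + (n + 1)) a‖ * (1 / 2 : ℝ) ^ k) := by
      have h1 := (h (1 / 2) (by norm_num) (by norm_num)).1
      unfold conv at h1
      have h2 := ((summable_nat_add_iff (n + 1)).mpr h1).mul_right ((2 : ℝ) ^ (n + 1))
      refine h2.congr ?_
      intro k
      rw [norm_mul, norm_pow, Complex.norm_real, Real.norm_eq_abs,
        abs_of_pos (by norm_num : (0 : ℝ) < 1 / 2), pow_add, mul_assoc, mul_assoc,
        ← mul_pow]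
      norm_num
    set C := ∑' k : ℕ, ‖PowerSeries.coeff (k + (n + 1)) a‖ * (1 / 2 : ℝ) ^ k with hC
    have hb : ∀ t : ℝ, 0 < t → t ≤ 1 / 2 → ‖PowerSeries.coeff n a‖ ≤ t * C := by
      intro t ht0 ht1
      obtain ⟨hc, hv⟩ := h t ht0 (by linarith)
      have hsm : Summable (fun k => PowerSeries.coeff k a * (t : ℂ) ^ k) := Summable.of_norm hc
      have h1 := hsm.sum_add_tsum_nat_add (n + 1)
      unfold evq at hv
      rw [hv, Finset.sum_range_succ, Finset.sum_eq_zero (fun k hk => by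
        rw [ih k (Finset.mem_range.mp hk)]; simp), zero_add] at h1
      have h2 : ∑' k : ℕ, PowerSeries.coeff (k + (n + 1)) a * (t : ℂ) ^ (k + (n + 1)) =
          (t : ℂ) ^ n * (t * ∑' k : ℕ, PowerSeries.coeff (k + (n + 1)) a * (t : ℂ) ^ k) := by
        rw [← tsum_mul_left, ← tsum_mul_left]
        apply tsum_congr
        intro k
        ring
      rw [h2] at h1
      have ht0' : (t : ℂ) ≠ 0 := by exact_mod_cast ht0.ne'
      have h3 : (t : ℂ) ^ n * (PowerSeries.coeff n a +
          (t * ∑' k : ℕ, PowerSeries.coeff (k + (n + 1)) a * (t : ℂ) ^ k)) = 0 := by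
        rw [mul_add, mul_comm ((t : ℂ) ^ n) (PowerSeries.coeff n a)]; exact h1
      have h4 := (mul_eq_zero.mp h3).resolve_left (pow_ne_zero n ht0')
      have h5 : PowerSeries.coeff n a =
          -(t * ∑' k : ℕ, PowerSeries.coeff (k + (n + 1)) a * (t : ℂ) ^ k) :=
        eq_neg_of_add_eq_zero_left h4
      rw [h5, norm_neg, norm_mul, Complex.norm_real, Real.norm_eq_abs, abs_of_pos ht0]
      apply mul_le_mul_of_nonneg_left _ ht0.le
      apply tsum_of_norm_bounded hs.hasSum
      intro k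
      rw [norm_mul, norm_pow, Complex.norm_real, Real.norm_eq_abs, abs_of_pos ht0]
      gcongr
    by_contra hne
    have hpos : 0 < ‖PowerSeries.coeff n a‖ := norm_pos_iff.mpr hne
    have hC0 : 0 ≤ C := tsum_nonneg (fun k => by positivity)
    set x := ‖PowerSeries.coeff n a‖ with hx
    have ht : 0 < min (1 / 2) (x / (2 * (C + 1))) := by positivity
    have h6 := hb _ ht (min_le_left _ _)
    have h7 : min (1 / 2) (x / (2 * (C + 1))) * C ≤ x / 2 := by
      calc min (1 / 2) (x / (2 * (C + 1))) * C ≤ (x / (2 * (C + 1))) * C :=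
            mul_le_mul_of_nonneg_right (min_le_right _ _) hC0
        _ ≤ (x / (2 * (C + 1))) * (C + 1) := by
            apply mul_le_mul_of_nonneg_left (by linarith) (by positivity)
        _ = x / 2 := by field_simp
    linarith

/-- geometric series -/
def geo (m : ℕ) : PowerSeries ℂ := PowerSeries.mk (fun n => if m ∣ n then 1 else 0)

theorem one_sub_mul_geo (m : ℕ) (hm : 0 < m) :
    (1 - (PowerSeries.X : PowerSeries ℂ) ^ m) * geo m = 1 := by
  ext n
  rw [sub_mul, one_mul, map_sub, PowerSeries.coeff_X_pow_mul', PowerSeries.coeff_one]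
  simp only [geo, PowerSeries.coeff_mk]
  rcases Nat.eq_zero_or_pos n with h | h
  · subst h
    simp; omega
  · rw [if_neg (by omega : ¬ n = 0)]
    rcases Nat.lt_or_ge n m with h1 | h1
    · have : ¬ m ∣ n := fun h2 => by have := Nat.le_of_dvd h h2; omega
      rw [if_neg this, if_neg (by omega)]; simp
    · rw [if_pos h1]
      by_cases h2 : m ∣ n
      · have : m ∣ n - m := Nat.dvd_sub h2 (dvd_refl m)
        rw [if_pos h2, if_pos this]; simp
      · have : ¬ m ∣ n - m := fun h3 => h2 (by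
          have := Nat.dvd_add h3 (dvd_refl m)
          rwa [Nat.sub_add_cancel h1] at this)
        rw [if_neg h2, if_neg this]; simp

theorem conv_one_sub (t : ℂ) (m : ℕ) : conv t (1 - (PowerSeries.X : PowerSeries ℂ) ^ (m + 1)) ∧
    evq t (1 - (PowerSeries.X : PowerSeries ℂ) ^ (m + 1)) = 1 - t ^ (m + 1) := by
  have hco : ∀ n, PowerSeries.coeff n (1 - (PowerSeries.X : PowerSeries ℂ) ^ (m + 1)) =
      (if n = 0 then 1 else 0) - (if n = m + 1 then 1 else 0) := by
    intro n
    rw [map_sub, PowerSeries.coeff_one, PowerSeries.coeff_X_pow]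
  have hz : ∀ n ∉ ({0, m + 1} : Finset ℕ),
      PowerSeries.coeff n (1 - (PowerSeries.X : PowerSeries ℂ) ^ (m + 1)) * t ^ n = 0 := by
    intro n hn
    simp only [Finset.mem_insert, Finset.mem_singleton, not_or] at hn
    rw [hco, if_neg hn.1, if_neg hn.2]; simp
  constructor
  · unfold conv
    apply summable_of_ne_finset_zero (s := {0, m + 1})
    intro n hn
    rw [hz n hn, norm_zero]
  · unfold evq
    rw [tsum_eq_sum (s := {0, m + 1}) hz, Finset.sum_pair (by omega), hco, hco]
    simp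
    ring

theorem conv_one (t : ℂ) : conv t (1 : PowerSeries ℂ) ∧ evq t (1 : PowerSeries ℂ) = 1 := by
  have := conv_C t 1
  rwa [map_one] at this

theorem conv_prod {ι : Type*} (t : ℂ) (s : Finset ι) (g : ι → PowerSeries ℂ)
    (hg : ∀ i ∈ s, conv t (g i)) :
    conv t (∏ i ∈ s, g i) ∧ evq t (∏ i ∈ s, g i) = ∏ i ∈ s, evq t (g i) := by
  classical
  induction s using Finset.induction_on with
  | empty => simpa using conv_one t
  | insert a s ha ih =>
    rw [Finset.prod_insert ha, Finset.prod_insert ha]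
    have h1 := ih (fun i hi => hg i (Finset.mem_insert_of_mem hi))
    have h2 := hg a (Finset.mem_insert_self _ _)
    have h3 := conv_mul h2 h1.1
    exact ⟨h3.1, by rw [h3.2, h1.2]⟩

/-- the denominator -/
def DN (N : ℕ) : PowerSeries ℂ :=
  ∏ e ∈ Finset.range N, ∏ i ∈ Finset.range N, (1 - (PowerSeries.X : PowerSeries ℂ) ^ (i + e + 1))

/-- **MacMahon for the square.** -/
theorem AN_mul_DN (N : ℕ) : AN N * DN N = 1 := by
  rw [← sub_eq_zero]
  apply eq_zero_of_evq
  intro t h0 h1
  obtain ⟨hA1, hA2⟩ := AN_eval N h0 h1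
  have hin : ∀ e, conv (t : ℂ) (∏ i ∈ Finset.range N,
      (1 - (PowerSeries.X : PowerSeries ℂ) ^ (i + e + 1))) ∧
      evq (t : ℂ) (∏ i ∈ Finset.range N, (1 - (PowerSeries.X : PowerSeries ℂ) ^ (i + e + 1))) =
      ∏ i ∈ Finset.range N, (1 - (t : ℂ) ^ (i + e + 1)) := by
    intro e
    have h2 := conv_prod (t : ℂ) (Finset.range N)
      (fun i => (1 - (PowerSeries.X : PowerSeries ℂ) ^ (i + e + 1)))
      (fun i _ => (conv_one_sub t (i + e)).1)
    refine ⟨h2.1, ?_⟩
    rw [h2.2]
    exact Finset.prod_congr rfl (fun i _ => (conv_one_sub t (i + e)).2)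
  have hD := conv_prod (t : ℂ) (Finset.range N)
    (fun e => ∏ i ∈ Finset.range N, (1 - (PowerSeries.X : PowerSeries ℂ) ^ (i + e + 1)))
    (fun e _ => (hin e).1)
  have hD2 : evq (t : ℂ) (DN N) = ∏ e ∈ Finset.range N, ∏ i ∈ Finset.range N,
      (1 - (t : ℂ) ^ (i + 1 + e)) := by
    unfold DN
    rw [hD.2]
    apply Finset.prod_congr rfl
    intro e _
    rw [(hin e).2]
    apply Finset.prod_congr rfl
    intro i _
    congr 2
    ring
  have hAD := conv_mul hA1 hD.1
  have hne : ∀ m : ℕ, (1 - (t : ℂ) ^ (m + 1)) ≠ 0 := by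
    intro m
    have h2 : t ^ (m + 1) < 1 := pow_lt_one₀ h0.le h1 (by omega)
    have h3 : (1 - t ^ (m + 1)) ≠ 0 := by linarith
    exact_mod_cast h3
  have hAD2 : evq (t : ℂ) (AN N * DN N) = 1 := by
    have h2 : evq (t : ℂ) (AN N * DN N) = evq (t : ℂ) (AN N) * evq (t : ℂ) (DN N) := hAD.2
    rw [h2, hA2, hD2, ← Finset.prod_mul_distrib]
    apply Finset.prod_eq_one
    intro e _
    rw [← Finset.prod_mul_distrib]
    apply Finset.prod_eq_one
    intro i _
    have : i + 1 + e = (i + e) + 1 := by ring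
    rw [this]
    exact inv_mul_cancel₀ (hne _)
  have hneg := conv_C (t : ℂ) (-1)
  have hfin := conv_add hAD.1 hneg.1
  have e1 : AN N * DN N - 1 = AN N * DN N + PowerSeries.C (-1) := by
    rw [map_neg, map_one]; ring
  rw [e1]
  refine ⟨hfin.1, ?_⟩
  have h3 : evq (t : ℂ) (AN N * DN N + PowerSeries.C (-1)) =
    evq (t : ℂ) (AN N * DN N) + evq (t : ℂ) (PowerSeries.C (-1)) := hfin.2
  rw [h3, hAD2, hneg.2]
  ring

end

end Pool.Agent.H25
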