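import Mathlib
import Pool.Agent.H25.Mac4

/-!
MacMahon's formula, part 5: the logarithmic derivative of the generating function of plane
partitions.
-/

set_option autoImplicit false

namespace Pool.Agent.H25

noncomputable section

/-- stable description of plane partitions of `n` -/
def ppInf (n : ℕ) : Set (ℕ → ℕ → ℕ) :=
  {F | (∀ i j k, i ≤ k → F k j ≤ F i j) ∧ (∀ i j k, j ≤ k → F i k ≤ F i j) ∧
    (∀ i j, n ≤ i ∨ n ≤ j → F i j = 0) ∧
    (∑ i ∈ Finset.range n, ∑ j ∈ Finset.range n, F i j) = n}

theorem ext0_injective {N : ℕ} : Function.Injective (ext0 (N := N)) := by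
  intro f g h
  funext i j
  have h1 := congrFun (congrFun h i) j
  unfold ext0 at h1
  rw [dif_pos ⟨i.2, j.2⟩, dif_pos ⟨i.2, j.2⟩] at h1
  exact h1

theorem ext0_sum {N : ℕ} (f : Fin N → Fin N → ℕ) :
    ∑ i ∈ Finset.range N, ∑ j ∈ Finset.range N, ext0 f i j = ∑ i, ∑ j, f i j := by
  rw [← Fin.sum_univ_eq_sum_range (fun i => ∑ j ∈ Finset.range N, ext0 f i j)]
  apply Finset.sum_congr rfl
  intro i _
  rw [← Fin.sum_univ_eq_sum_range (fun j => ext0 f i j)]
  apply Finset.sum_congr rfl
  intro j _
  unfold ext0
  rw [dif_pos ⟨i.2, j.2⟩]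

theorem double_sum_extend (F : ℕ → ℕ → ℕ) (n N : ℕ) (hnN : n ≤ N)
    (hF : ∀ i j, n ≤ i ∨ n ≤ j → F i j = 0) :
    ∑ i ∈ Finset.range n, ∑ j ∈ Finset.range n, F i j =
      ∑ i ∈ Finset.range N, ∑ j ∈ Finset.range N, F i j := by
  have h1 : ∀ i, ∑ j ∈ Finset.range n, F i j = ∑ j ∈ Finset.range N, F i j := by
    intro i
    apply Finset.sum_subset (Finset.range_mono hnN)
    intro j _ hj
    rw [Finset.mem_range, not_lt] at hj
    exact hF i j (Or.inr hj)
  rw [Finset.sum_congr rfl (fun i _ => h1 i)]
  apply Finset.sum_subset (Finset.range_mono hnN)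
  intro i _ hi
  rw [Finset.mem_range, not_lt] at hi
  exact Finset.sum_eq_zero (fun j _ => hF i j (Or.inl hi))

theorem image_ppSet (N n : ℕ) (hnN : n ≤ N) : ext0 '' (ppSet N n) = ppInf n := by
  ext F
  constructor
  · rintro ⟨f, ⟨hf, hsum⟩, rfl⟩
    have hsum' := ext0_sum f
    rw [hsum] at hsum'
    have hz : ∀ i j, n ≤ i ∨ n ≤ j → ext0 f i j = 0 := by
      intro i j hij
      by_contra hne
      have hiN : i < N := by
        by_contra hc
        exact hne (ext0_of_ge_left f j (by omega))
      have hjN : j < N := by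
        by_contra hc
        exact hne (ext0_of_ge_right f i (by omega))
      rcases hij with h | h
      · -- the column of i+1 entries
        have h1 : i + 1 ≤ ∑ i' ∈ Finset.range N, ∑ j' ∈ Finset.range N, ext0 f i' j' := by
          calc i + 1 = ∑ i' ∈ Finset.range (i + 1), 1 := by simp
            _ ≤ ∑ i' ∈ Finset.range (i + 1), ∑ j' ∈ Finset.range N, ext0 f i' j' := by
                apply Finset.sum_le_sum
                intro i' hi'
                rw [Finset.mem_range] at hi'
                have h2 : ext0 f i' j ≤ ∑ j' ∈ Finset.range N, ext0 f i' j' :=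
                  Finset.single_le_sum (f := fun j' => ext0 f i' j') (fun _ _ => Nat.zero_le _)
                    (Finset.mem_range.mpr hjN)
                have h3 : ext0 f i j ≤ ext0 f i' j := ext0_anti_left hf j (by omega)
                omega
            _ ≤ ∑ i' ∈ Finset.range N, ∑ j' ∈ Finset.range N, ext0 f i' j' :=
                Finset.sum_le_sum_of_subset (Finset.range_mono (by omega))
        omega
      · have h1 : j + 1 ≤ ∑ i' ∈ Finset.range N, ∑ j' ∈ Finset.range N, ext0 f i' j' := by
          calc j + 1 = ∑ j' ∈ Finset.range (j + 1), 1 := by simp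
            _ ≤ ∑ j' ∈ Finset.range (j + 1), ext0 f i j' := by
                apply Finset.sum_le_sum
                intro j' hj'
                rw [Finset.mem_range] at hj'
                have h3 : ext0 f i j ≤ ext0 f i j' := ext0_anti_right hf i (by omega)
                omega
            _ ≤ ∑ j' ∈ Finset.range N, ext0 f i j' :=
                Finset.sum_le_sum_of_subset (Finset.range_mono (by omega))
            _ ≤ ∑ i' ∈ Finset.range N, ∑ j' ∈ Finset.range N, ext0 f i' j' :=
                Finset.single_le_sum (f := fun i' => ∑ j' ∈ Finset.range N, ext0 f i' j')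
                  (fun _ _ => Nat.zero_le _) (Finset.mem_range.mpr hiN)
        omega
    refine ⟨fun i j k h => ext0_anti_left hf j h, fun i j k h => ext0_anti_right hf i h, hz, ?_⟩
    rw [double_sum_extend _ n N hnN hz]
    exact hsum'
  · rintro ⟨h1, h2, h3, h4⟩
    have he : ext0 (fun i j : Fin N => F i j) = F := by
      funext i j
      unfold ext0
      by_cases h : i < N ∧ j < N
      · rw [dif_pos h]
      · rw [dif_neg h]
        exact (h3 i j (by omega)).symm
    refine ⟨fun i j => F i j, ⟨⟨fun i j k h => h1 i j k h, fun i j k h => h2 i j k h⟩, ?_⟩, he⟩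
    rw [← ext0_sum, he, ← double_sum_extend F n N hnN h3]
    exact h4

theorem pN_eq (N n : ℕ) (hnN : n ≤ N) : pN N n = pN n n := by
  unfold pN
  rw [← Set.ncard_image_of_injective (ppSet N n) ext0_injective, image_ppSet N n hnN,
    ← Set.ncard_image_of_injective (ppSet n n) ext0_injective, image_ppSet n n le_rfl]

/-! ### logarithmic derivative -/

theorem theta_pow_X (m : ℕ) : theta ((PowerSeries.X : PowerSeries ℂ) ^ m) =
    (m : PowerSeries ℂ) * PowerSeries.X ^ m := by
  rw [theta_apply, Derivation.leibniz_pow, PowerSeries.derivative_X]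
  rcases m with _ | m
  · simp
  · simp only [Nat.add_sub_cancel, smul_eq_mul, nsmul_eq_mul]
    ring

/-- logarithmic derivative of the geometric series -/
def Lg (m : ℕ) : PowerSeries ℂ := (m : PowerSeries ℂ) * PowerSeries.X ^ m * geo m

theorem theta_geo (m : ℕ) (hm : 0 < m) : theta (geo m) = geo m * Lg m := by
  have h1 := one_sub_mul_geo m hm
  have h2 := congrArg theta h1
  rw [Derivation.leibniz, Derivation.map_one_eq_zero, map_sub, Derivation.map_one_eq_zero,
    theta_pow_X, smul_eq_mul, smul_eq_mul] at h2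
  unfold Lg
  have h3 : theta (geo m) = geo m * ((1 - PowerSeries.X ^ m) * theta (geo m)) := by
    rw [← mul_assoc, mul_comm (geo m), h1, one_mul]
  rw [h3]
  have h4 : (1 - PowerSeries.X ^ m) * theta (geo m) =
      (m : PowerSeries ℂ) * PowerSeries.X ^ m * geo m := by
    linear_combination h2
  rw [h4]

theorem coeff_Lg (m n : ℕ) (hm : 0 < m) : PowerSeries.coeff n (Lg m) =
    if (n ≠ 0 ∧ m ∣ n) then (m : ℂ) else 0 := by
  have h1 : Lg m = PowerSeries.C (m : ℂ) * (geo m - 1) := by
    have h2 := one_sub_mul_geo m hm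
    have h3 : PowerSeries.X ^ m * geo m = geo m - 1 := by
      rw [← h2]; ring
    unfold Lg
    rw [mul_assoc, h3, map_natCast]
  rw [h1, PowerSeries.coeff_C_mul, map_sub, PowerSeries.coeff_one]
  simp only [geo, PowerSeries.coeff_mk]
  by_cases hn : n = 0
  · subst hn; simp
  · by_cases hd : m ∣ n
    · simp [hn, hd]
    · simp [hn, hd]

theorem theta_prod {ι : Type*} (s : Finset ι) (g l : ι → PowerSeries ℂ)
    (h : ∀ i ∈ s, theta (g i) = g i * l i) :
    theta (∏ i ∈ s, g i) = (∏ i ∈ s, g i) * ∑ i ∈ s, l i := by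
  classical
  induction s using Finset.induction_on with
  | empty => simp
  | insert a s ha ih =>
    rw [Finset.prod_insert ha, Finset.sum_insert ha, Derivation.leibniz, smul_eq_mul, smul_eq_mul,
      ih (fun i hi => h i (Finset.mem_insert_of_mem hi)), h a (Finset.mem_insert_self _ _)]
    ring

/-- product of geometric series -/
def GN (N : ℕ) : PowerSeries ℂ :=
  ∏ e ∈ Finset.range N, ∏ i ∈ Finset.range N, geo (i + e + 1)

theorem AN_eq_GN (N : ℕ) : AN N = GN N := by
  have h1 : GN N * DN N = 1 := by
    unfold GN DN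
    rw [← Finset.prod_mul_distrib]
    apply Finset.prod_eq_one
    intro e _
    rw [← Finset.prod_mul_distrib]
    apply Finset.prod_eq_one
    intro i _
    rw [mul_comm]
    exact one_sub_mul_geo _ (by omega)
  have h2 := AN_mul_DN N
  have hne : DN N ≠ 0 := by
    intro h
    rw [h, mul_zero] at h1
    exact zero_ne_one h1
  exact mul_right_cancel₀ hne (h2.trans h1.symm)

theorem theta_GN (N : ℕ) : theta (GN N) =
    GN N * ∑ e ∈ Finset.range N, ∑ i ∈ Finset.range N, Lg (i + e + 1) := by
  unfold GN
  apply theta_prod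
  intro e _
  apply theta_prod
  intro i _
  exact theta_geo _ (by omega)

theorem sum_Lg (N b : ℕ) (hb : b ≤ N) :
    PowerSeries.coeff b (∑ e ∈ Finset.range N, ∑ i ∈ Finset.range N, Lg (i + e + 1)) =
      ((ArithmeticFunction.sigma 2 b : ℕ) : ℂ) := by
  rw [map_sum]
  have h1 : ∀ e ∈ Finset.range N, PowerSeries.coeff b (∑ i ∈ Finset.range N, Lg (i + e + 1)) =
      ∑ i ∈ Finset.range N, (((if (b ≠ 0 ∧ (i + e + 1) ∣ b) then (i + e + 1) else 0 : ℕ)) : ℂ) := by
    intro e _
    rw [map_sum]
    apply Finset.sum_congr rfl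
    intro i _
    rw [coeff_Lg _ _ (by omega)]
    split_ifs <;> push_cast <;> rfl
  rw [Finset.sum_congr rfl h1]
  have h2 : ∑ e ∈ Finset.range N, ∑ i ∈ Finset.range N,
      (if (b ≠ 0 ∧ (i + e + 1) ∣ b) then (i + e + 1) else 0 : ℕ) =
      ArithmeticFunction.sigma 2 b := by
    rcases Nat.eq_zero_or_pos b with hb0 | hb0
    · subst hb0; simp
    · rw [← Finset.sum_product']
      rw [ArithmeticFunction.sigma_apply]
      -- group by the value of i + e + 1
      have hdvd : ∀ m ∈ b.divisors, 1 ≤ m ∧ m ≤ b := fun m hm =>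
        ⟨Nat.pos_of_mem_divisors hm, Nat.divisor_le hm⟩
      have h3 : ∑ x ∈ Finset.range N ×ˢ Finset.range N,
          (if (b ≠ 0 ∧ (x.2 + x.1 + 1) ∣ b) then (x.2 + x.1 + 1) else 0 : ℕ) =
          ∑ x ∈ (Finset.range N ×ˢ Finset.range N).filter (fun x => (x.2 + x.1 + 1) ∣ b),
            (x.2 + x.1 + 1) := by
        rw [Finset.sum_filter]
        apply Finset.sum_congr rfl
        intro x _
        simp [hb0.ne']
      rw [h3, ← Finset.sum_fiberwise_of_maps_to (g := fun x : ℕ × ℕ => x.2 + x.1 + 1)
        (t := b.divisors)]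
      · apply Finset.sum_congr rfl
        intro m hm
        obtain ⟨hm1, hm2⟩ := hdvd m hm
        have h4 : ∀ x ∈ ((Finset.range N ×ˢ Finset.range N).filter
            (fun x => (x.2 + x.1 + 1) ∣ b)).filter (fun x => x.2 + x.1 + 1 = m),
            x.2 + x.1 + 1 = m := fun x hx => (Finset.mem_filter.mp hx).2
        rw [Finset.sum_congr rfl h4, Finset.sum_const, smul_eq_mul, sq]
        congr 1
        have h5 : ((Finset.range N ×ˢ Finset.range N).filter
            (fun x => (x.2 + x.1 + 1) ∣ b)).filter (fun x => x.2 + x.1 + 1 = m) =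
            Finset.HasAntidiagonal.antidiagonal (m - 1) := by
          ext ⟨x, y⟩
          simp only [Finset.mem_filter, Finset.mem_product, Finset.mem_range,
            Finset.HasAntidiagonal.mem_antidiagonal]
          constructor
          · rintro ⟨_, h⟩; omega
          · intro h
            have h6 : y + x + 1 = m := by omega
            refine ⟨⟨⟨by omega, by omega⟩, ?_⟩, h6⟩
            rw [h6]; exact Nat.dvd_of_mem_divisors hm
        rw [h5, Finset.Nat.card_antidiagonal]
        omega
      · intro x hx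
        rw [Finset.mem_filter] at hx
        rw [Nat.mem_divisors]
        exact ⟨hx.2, hb0.ne'⟩
  rw [← h2]
  push_cast
  rfl

/-- the generating function of plane partitions -/
def PPs : PowerSeries ℂ := PowerSeries.mk (fun n => (pN n n : ℂ))

/-- **MacMahon's formula in logarithmic form.** -/
theorem macmahon : PowerSeries.X * PowerSeries.derivative ℂ PPs = PPs * Gi 0 := by
  ext n
  have h1 : PowerSeries.coeff n (theta (AN n)) = PowerSeries.coeff n (AN n *
      ∑ e ∈ Finset.range n, ∑ i ∈ Finset.range n, Lg (i + e + 1)) := by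
    rw [AN_eq_GN, theta_GN]
  have h2 : PowerSeries.coeff n (theta (AN n)) =
      PowerSeries.coeff n (PowerSeries.X * PowerSeries.derivative ℂ PPs) := by
    rw [theta_apply]
    rcases n with _ | n
    · simp
    · rw [PowerSeries.coeff_succ_X_mul, PowerSeries.coeff_succ_X_mul, PowerSeries.coeff_derivative,
        PowerSeries.coeff_derivative]
      simp [AN, PPs]
  rw [← h2, h1, PowerSeries.coeff_mul, PowerSeries.coeff_mul]
  apply Finset.sum_congr rfl
  rintro ⟨a, b⟩ hab
  rw [Finset.HasAntidiagonal.mem_antidiagonal] at hab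
  simp only at hab ⊢
  rw [sum_Lg n b (by omega)]
  simp only [AN, PPs, Gi, PowerSeries.coeff_mk, pow_zero, one_mul]
  rw [pN_eq n a (by omega)]

theorem PPs_ne_zero : PPs ≠ 0 := by
  intro h
  have h1 := congrArg (PowerSeries.coeff 0) h
  simp only [PPs, PowerSeries.coeff_mk, map_zero] at h1
  have h2 : pN 0 0 = 1 := by
    unfold pN
    rw [Set.ncard_eq_one]
    refine ⟨fun i => i.elim0, ?_⟩
    ext f
    simp only [Set.mem_singleton_iff]
    constructor
    · intro _; funext i; exact i.elim0
    · rintro rfl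
      refine ⟨⟨fun i => i.elim0, fun i => i.elim0⟩, by simp⟩
  rw [h2] at h1
  simp at h1

end

end Pool.Agent.H25
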