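import Mathlib
import Pool.Agent.H25.Core

/-!
The function `W(z) = ∑_{m,j ≥ 1} (mz+j)^{-3} + (1/2) ∑_{m ≥ 1} (mz)^{-3}` on the slit plane.
-/

set_option autoImplicit false

namespace Pool.Agent.H25

open Complex Filter Asymptotics Set Topology Bornology

noncomputable section

/-- summand -/
def zt (p : ℕ+ × ℕ+) (z : ℂ) : ℂ := 1 / ((p.1 : ℂ) * z + (p.2 : ℂ)) ^ 3

/-- the double series -/
def Zf (z : ℂ) : ℂ := ∑' p : ℕ+ × ℕ+, zt p z

/-- the constant -/
def z3 : ℂ := ∑' m : ℕ+, 1 / (m : ℂ) ^ 3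

/-- the function `W` -/
def Wf (z : ℂ) : ℂ := Zf z + z3 / 2 * (1 / z ^ 3)

/-- the majorant -/
def ut (p : ℕ+ × ℕ+) : ℝ := 1 / ((p.1 : ℝ) + (p.2 : ℝ)) ^ 3

theorem summable_ut : Summable ut := by
  have h1 : Summable (fun n : ℕ => 1 / (n : ℝ) ^ ((3 : ℝ) / 2)) :=
    Real.summable_one_div_nat_rpow.mpr (by norm_num)
  have h2 : Summable (fun n : ℕ+ => 1 / ((n : ℕ) : ℝ) ^ ((3 : ℝ) / 2)) :=
    h1.comp_injective PNat.coe_injective
  have h3 := h2.mul_of_nonneg h2 (fun n => by positivity) (fun n => by positivity)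
  refine Summable.of_nonneg_of_le (fun p => by unfold ut; positivity) ?_ h3
  rintro ⟨m, j⟩
  unfold ut
  have hm : (0 : ℝ) < m := by exact_mod_cast m.pos
  have hj : (0 : ℝ) < j := by exact_mod_cast j.pos
  simp only
  rw [div_mul_div_comm, one_mul]
  apply one_div_le_one_div_of_le (by positivity)
  have e : ((m : ℝ) + (j : ℝ)) ^ 3 = ((m : ℝ) + j) ^ ((3 : ℝ) / 2) * ((m : ℝ) + j) ^ ((3 : ℝ) / 2) := by
    rw [← Real.rpow_add (by positivity)]
    norm_num
  rw [e]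
  gcongr <;> linarith

/-- lower bound predicate -/
def LB (c : ℝ) (z : ℂ) : Prop := ∀ m j : ℕ+, c * ((m : ℝ) + (j : ℝ)) ≤ ‖(m : ℂ) * z + (j : ℂ)‖

theorem lb_re {z : ℂ} {δ : ℝ} (hz : δ ≤ z.re) : LB (min δ 1) z := by
  intro m j
  have hm : (0 : ℝ) < m := by exact_mod_cast m.pos
  have hj : (0 : ℝ) < j := by exact_mod_cast j.pos
  have h1 : ((m : ℂ) * z + (j : ℂ)).re ≤ ‖(m : ℂ) * z + (j : ℂ)‖ := Complex.re_le_norm _
  have h2 : ((m : ℂ) * z + (j : ℂ)).re = m * z.re + j := by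
    simp [Complex.add_re, Complex.mul_re]
  rw [h2] at h1
  refine le_trans ?_ h1
  rw [mul_add]
  apply add_le_add
  · rw [mul_comm]
    exact mul_le_mul_of_nonneg_left ((min_le_left _ _).trans hz) hm.le
  · exact mul_le_of_le_one_left hj.le (min_le_right _ _)

theorem lb_im {z : ℂ} {δ R : ℝ} (hδ : 0 < δ) (hδz : δ ≤ |z.im|) (hR : ‖z‖ ≤ R) :
    LB (min (δ / 2) (δ / (2 * R))) z := by
  intro m j
  have hm : (0 : ℝ) < m := by exact_mod_cast m.pos
  have hj : (0 : ℝ) < j := by exact_mod_cast j.pos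
  have hzpos : 0 < ‖z‖ := lt_of_lt_of_le (lt_of_lt_of_le hδ hδz) (Complex.abs_im_le_norm z)
  have hRpos : 0 < R := lt_of_lt_of_le hzpos hR
  set w : ℂ := (m : ℂ) * z + (j : ℂ) with hw
  have h1 : m * δ ≤ ‖w‖ := by
    have : |w.im| ≤ ‖w‖ := Complex.abs_im_le_norm _
    have h2 : w.im = m * z.im := by simp [hw]
    rw [h2, abs_mul, abs_of_pos hm] at this
    exact (mul_le_mul_of_nonneg_left hδz hm.le).trans this
  have h2 : j * δ ≤ ‖w‖ * R := by
    have h3 : |(w * (starRingEnd ℂ) z).im| ≤ ‖w * (starRingEnd ℂ) z‖ := Complex.abs_im_le_norm _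
    have h4 : (w * (starRingEnd ℂ) z).im = -(j * z.im) := by
      simp [hw, Complex.mul_im]
      ring
    rw [h4, abs_neg, abs_mul, abs_of_pos hj, norm_mul, RCLike.norm_conj] at h3
    calc (j : ℝ) * δ ≤ j * |z.im| := mul_le_mul_of_nonneg_left hδz hj.le
      _ ≤ ‖w‖ * ‖z‖ := h3
      _ ≤ ‖w‖ * R := mul_le_mul_of_nonneg_left hR (norm_nonneg _)
  have h5 : min (δ / 2) (δ / (2 * R)) * (m : ℝ) ≤ ‖w‖ / 2 := by
    calc min (δ / 2) (δ / (2 * R)) * (m : ℝ) ≤ (δ / 2) * m :=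
          mul_le_mul_of_nonneg_right (min_le_left _ _) hm.le
      _ = m * δ / 2 := by ring
      _ ≤ ‖w‖ / 2 := by linarith
  have h6 : min (δ / 2) (δ / (2 * R)) * (j : ℝ) ≤ ‖w‖ / 2 := by
    calc min (δ / 2) (δ / (2 * R)) * (j : ℝ) ≤ (δ / (2 * R)) * j :=
          mul_le_mul_of_nonneg_right (min_le_right _ _) hj.le
      _ = (j * δ) / R / 2 := by field_simp
      _ ≤ (‖w‖ * R) / R / 2 := by gcongr
      _ = ‖w‖ / 2 := by field_simp
  rw [mul_add]
  linarith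

theorem zt_bound {c : ℝ} (hc : 0 < c) {z : ℂ} (h : LB c z) (p : ℕ+ × ℕ+) :
    ‖zt p z‖ ≤ (1 / c ^ 3) * ut p := by
  have hm : (0 : ℝ) < p.1 := by exact_mod_cast p.1.pos
  have hj : (0 : ℝ) < p.2 := by exact_mod_cast p.2.pos
  unfold zt ut
  rw [norm_div, norm_one, norm_pow, div_mul_div_comm, one_mul, ← mul_pow]
  apply one_div_le_one_div_of_le (by positivity)
  exact pow_le_pow_left₀ (by positivity) (h p.1 p.2) 3

theorem zt_ne {c : ℝ} (hc : 0 < c) {z : ℂ} (h : LB c z) (p : ℕ+ × ℕ+) :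
    (p.1 : ℂ) * z + (p.2 : ℂ) ≠ 0 := by
  have hm : (0 : ℝ) < p.1 := by exact_mod_cast p.1.pos
  have hj : (0 : ℝ) < p.2 := by exact_mod_cast p.2.pos
  have := h p.1 p.2
  intro h0
  rw [h0, norm_zero] at this
  have : 0 < c * ((p.1 : ℝ) + (p.2 : ℝ)) := by positivity
  linarith

theorem diff_Zf_of_LB {U : Set ℂ} (hU : IsOpen U) {c : ℝ} (hc : 0 < c) (h : ∀ z ∈ U, LB c z) :
    DifferentiableOn ℂ Zf U := by
  unfold Zf
  apply differentiableOn_tsum_of_summable_norm (summable_ut.mul_left (1 / c ^ 3)) _ hU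
  · intro p z hz
    exact zt_bound hc (h z hz) p
  · intro p z hz
    unfold zt
    apply DifferentiableAt.differentiableWithinAt
    apply DifferentiableAt.div (by fun_prop) (by fun_prop)
    exact pow_ne_zero _ (zt_ne hc (h z hz) p)

theorem exists_LB_nhds {z : ℂ} (hz : z ∈ slitPlane) :
    ∃ U : Set ℂ, IsOpen U ∧ z ∈ U ∧ ∃ c : ℝ, 0 < c ∧ ∀ w ∈ U, LB c w := by
  rw [mem_slitPlane_iff] at hz
  rcases hz with h | h
  · refine ⟨{w : ℂ | z.re / 2 < w.re}, isOpen_lt continuous_const Complex.continuous_re, ?_,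
      min (z.re / 2) 1, lt_min (by linarith) one_pos, ?_⟩
    · simp only [mem_ofPred_eq]; linarith
    · intro w hw
      simp only [mem_ofPred_eq] at hw
      exact lb_re hw.le
  · have hpos : 0 < |z.im| := abs_pos.mpr h
    refine ⟨{w : ℂ | |z.im| / 2 < |w.im|} ∩ {w : ℂ | ‖w‖ < ‖z‖ + 1},
      IsOpen.inter (isOpen_lt continuous_const (continuous_abs.comp Complex.continuous_im))
        (isOpen_lt continuous_norm continuous_const), ⟨?_, ?_⟩,
      min (|z.im| / 2 / 2) (|z.im| / 2 / (2 * (‖z‖ + 1))), by positivity, ?_⟩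
    · simp only [mem_ofPred_eq]; linarith
    · simp only [mem_ofPred_eq]; linarith
    · intro w hw
      obtain ⟨h1, h2⟩ := hw
      simp only [mem_ofPred_eq] at h1 h2
      exact lb_im (by linarith) h1.le h2.le

theorem diff_Zf : DifferentiableOn ℂ Zf slitPlane := by
  intro z hz
  obtain ⟨U, hU, hzU, c, hc, hLB⟩ := exists_LB_nhds hz
  exact ((diff_Zf_of_LB hU hc hLB).differentiableAt (hU.mem_nhds hzU)).differentiableWithinAt

theorem diff_Wf : DifferentiableOn ℂ Wf slitPlane := by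
  unfold Wf
  apply diff_Zf.add
  intro z hz
  apply DifferentiableAt.differentiableWithinAt
  apply DifferentiableAt.const_mul
  apply DifferentiableAt.div (by fun_prop) (by fun_prop)
  exact pow_ne_zero _ (slitPlane_ne_zero hz)

theorem summable_zt {z : ℂ} (hz : z ∈ slitPlane) : Summable (fun p => zt p z) := by
  obtain ⟨U, hU, hzU, c, hc, hLB⟩ := exists_LB_nhds hz
  exact Summable.of_norm_bounded (summable_ut.mul_left (1 / c ^ 3)) (zt_bound hc (hLB z hzU))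

theorem Wf_bound : ∃ C : ℝ, ∀ z : ℂ, 1 / 2 ≤ z.re → ‖Wf z‖ ≤ C := by
  refine ⟨∑' p, (1 / (1 / 2 : ℝ) ^ 3) * ut p + ‖z3 / 2‖ * 8, fun z hz => ?_⟩
  have hLB : LB (1 / 2) z := by
    have := lb_re hz
    rwa [min_eq_left (by norm_num)] at this
  unfold Wf
  refine (norm_add_le _ _).trans (add_le_add ?_ ?_)
  · exact tsum_of_norm_bounded ((summable_ut.mul_left _).hasSum) (zt_bound (by norm_num) hLB)
  · rw [norm_mul]
    apply mul_le_mul_of_nonneg_left _ (norm_nonneg _)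
    rw [norm_div, norm_one, norm_pow]
    have h1 : 1 / 2 ≤ ‖z‖ := hz.trans (Complex.re_le_norm z)
    have h2 : (1 / 2 : ℝ) ^ 3 ≤ ‖z‖ ^ 3 := pow_le_pow_left₀ (by norm_num) h1 3
    calc 1 / ‖z‖ ^ 3 ≤ 1 / (1 / 2 : ℝ) ^ 3 := one_div_le_one_div_of_le (by norm_num) h2
      _ = 8 := by norm_num

/-- the functional equation -/
theorem Zf_inv {z : ℂ} (hz : z ≠ 0) : Zf (1 / z) = z ^ 3 * Zf z := by
  unfold Zf
  rw [← (Equiv.prodComm ℕ+ ℕ+).tsum_eq, ← tsum_mul_left]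
  apply tsum_congr
  rintro ⟨m, j⟩
  unfold zt
  simp only [Equiv.prodComm_apply, Prod.swap_prod_mk]
  have e : (j : ℂ) * (1 / z) + (m : ℂ) = (m * z + j) / z := by field_simp; ring
  rw [e, div_pow, one_div_div, mul_one_div]

theorem inv_slit {z : ℂ} (hz : z ≠ 0) : Wf (1 / z) = z ^ 3 * (Zf z + z3 / 2) := by
  unfold Wf
  rw [Zf_inv hz]
  field_simp

/-- the relation expressing `Zf` through `H z = Wf z - Wf (-z)` and `H (-1/z)`. -/
theorem Zf_relation {z : ℂ} (hz : z ≠ 0) :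
    2 * Zf z = (Wf z - Wf (-z)) - z3 * (1 / z ^ 3)
      - (1 / z ^ 3) * (Wf (-1 / z) - Wf (-(-1 / z))) - z3 := by
  have h1 : Wf (-1 / z) = (-z) ^ 3 * (Zf (-z) + z3 / 2) := by
    have : (-1 : ℂ) / z = 1 / (-z) := by rw [div_neg, neg_div]
    rw [this, inv_slit (neg_ne_zero.mpr hz)]
  have h2 : Wf (-(-1 / z)) = z ^ 3 * (Zf z + z3 / 2) := by
    have : -((-1 : ℂ) / z) = 1 / z := by rw [neg_div, neg_neg]
    rw [this, inv_slit hz]
  rw [h1, h2]
  unfold Wf
  field_simp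
  ring

/-- the constant in the Lipschitz formula -/
def lipc : ℂ := (-2 * Real.pi * I) ^ (2 + 1) / (Nat.factorial 2 : ℕ)

theorem lipc_ne : lipc ≠ 0 := by
  unfold lipc
  apply div_ne_zero
  · apply pow_ne_zero
    simp [Real.pi_ne_zero, I_ne_zero]
  · simp

/-- the coefficients -/
def hc (n : ℕ) : ℂ := lipc * (ArithmeticFunction.sigma 2 n : ℕ)

theorem hc_zero : hc 0 = 0 := by simp [hc]

theorem hc_ne (n : ℕ) (hn : 1 ≤ n) : hc n ≠ 0 := by
  unfold hc
  apply mul_ne_zero lipc_ne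
  have : 0 < ArithmeticFunction.sigma 2 n := ArithmeticFunction.sigma_pos 2 n (by omega)
  exact_mod_cast this.ne'

theorem sigma_two_le (n : ℕ) : ArithmeticFunction.sigma 2 n ≤ n ^ 3 := by
  rw [ArithmeticFunction.sigma_apply]
  calc ∑ d ∈ n.divisors, d ^ 2 ≤ ∑ _d ∈ n.divisors, n ^ 2 := by
        apply Finset.sum_le_sum
        intro d hd
        exact Nat.pow_le_pow_left (Nat.divisor_le hd) 2
    _ = n.divisors.card * n ^ 2 := by rw [Finset.sum_const, smul_eq_mul]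
    _ ≤ n * n ^ 2 := Nat.mul_le_mul_right _ (Nat.card_divisors_le_self n)
    _ = n ^ 3 := by ring

theorem summable_sigma {q : ℂ} (hq : ‖q‖ < 1) :
    Summable (fun n : ℕ => ((ArithmeticFunction.sigma 2 n : ℕ) : ℂ) * q ^ n) := by
  have h1 := summable_norm_pow_mul_geometric_of_norm_lt_one 3 hq
  refine Summable.of_norm_bounded h1 ?_
  intro n
  rw [norm_mul, norm_mul]
  apply mul_le_mul_of_nonneg_right _ (norm_nonneg _)
  rw [Complex.norm_natCast, ← Nat.cast_pow, Complex.norm_natCast]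
  exact_mod_cast sigma_two_le n

theorem qe_eq_pow (n : ℕ) (z : ℂ) : qe n z = (Complex.exp (2 * Real.pi * I * z)) ^ n := by
  unfold qe
  rw [← Complex.exp_nat_mul]
  congr 1
  ring

theorem norm_q_lt {z : ℂ} (hz : 0 < z.im) : ‖Complex.exp (2 * Real.pi * I * z)‖ < 1 := by
  rw [Complex.norm_exp, Real.exp_lt_one_iff]
  simp
  positivity

/-- double series over `m ≥ 1`, `n ∈ ℤ` -/
theorem double_series {z : ℂ} (hz : 0 < z.im) :
    Wf z - Wf (-z) = ∑' m : ℕ+, ∑' n : ℤ, 1 / ((m : ℂ) * z + n) ^ 3 := by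
  have hz0 : z ≠ 0 := by rintro rfl; simp at hz
  have hs1 : z ∈ slitPlane := slit_of_im hz.ne'
  have hs2 : -z ∈ slitPlane := slit_of_im (by simp only [Complex.neg_im]; linarith)
  have hin : ∀ m : ℕ+, ∑' n : ℤ, 1 / ((m : ℂ) * z + n) ^ 3 =
      1 / (m : ℂ) ^ 3 * (1 / z ^ 3) + ∑' j : ℕ+, zt (m, j) z - ∑' j : ℕ+, zt (m, j) (-z) := by
    intro m
    have hsum : Summable (fun n : ℤ => 1 / ((m : ℂ) * z + n) ^ 3) := by
      have := EisensteinSeries.linear_right_summable z (m : ℤ) (k := 3) (by norm_num)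
      refine this.congr ?_
      intro n
      rw [one_div]
      norm_cast
    rw [tsum_int_eq_zero_add_tsum_pnat hsum]
    have e1 : (1 : ℂ) / ((m : ℂ) * z + ((0 : ℤ) : ℂ)) ^ 3 = 1 / (m : ℂ) ^ 3 * (1 / z ^ 3) := by
      simp [mul_pow]
      ring
    have e2 : ∑' n : ℕ+, (1 : ℂ) / ((m : ℂ) * z + (((n : ℕ) : ℤ) : ℂ)) ^ 3 =
        ∑' j : ℕ+, zt (m, j) z := by
      apply tsum_congr; intro n; simp [zt]
    have e3 : ∑' n : ℕ+, (1 : ℂ) / ((m : ℂ) * z + ((-((n : ℕ) : ℤ) : ℤ) : ℂ)) ^ 3 =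
        - ∑' j : ℕ+, zt (m, j) (-z) := by
      rw [← tsum_neg]
      apply tsum_congr; intro n
      unfold zt
      simp only
      have : (m : ℂ) * -z + (n : ℂ) = -((m : ℂ) * z + ((-((n : ℕ) : ℤ) : ℤ) : ℂ)) := by
        push_cast; ring
      rw [this, Odd.neg_pow (by decide), div_neg, neg_neg]
    rw [e1, e2, e3]
    ring
  rw [tsum_congr hin]
  have hA : Summable (fun m : ℕ+ => 1 / (m : ℂ) ^ 3 * (1 / z ^ 3)) := by
    apply Summable.mul_right
    have : Summable (fun n : ℕ => 1 / ((n : ℂ)) ^ 3) := by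
      apply Summable.of_norm
      simpa using (Real.summable_one_div_nat_pow (p := 3)).mpr (by norm_num)
    exact this.comp_injective PNat.coe_injective
  have hB := (summable_zt hs1).prod
  have hC := (summable_zt hs2).prod
  rw [(hA.add hB).tsum_sub hC, hA.tsum_add hB, ← (summable_zt hs1).tsum_prod,
    ← (summable_zt hs2).tsum_prod, tsum_mul_right]
  unfold Wf Zf z3
  rw [Odd.neg_pow (by decide), div_neg]
  ring

/-- the `q`-expansion of `W z - W (-z)`. -/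
theorem hasSum_H (z : ℂ) (hz : 0 < z.im) :
    HasSum (fun n : ℕ => hc n * qe n z) (Wf z - Wf (-z)) := by
  set q := Complex.exp (2 * Real.pi * I * z) with hq
  have hqn : ‖q‖ < 1 := norm_q_lt hz
  have hsum := summable_sigma hqn
  have h1 : ∀ m : ℕ+, ∑' n : ℤ, 1 / ((m : ℂ) * z + n) ^ 3 =
      lipc * ∑' c : ℕ+, (c : ℂ) ^ 2 * q ^ ((m : ℕ) * (c : ℕ)) := by
    intro m
    have him : 0 < ((m : ℂ) * z).im := by
      have hm : (0 : ℝ) < m := by exact_mod_cast m.pos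
      simp; positivity
    have := EisensteinSeries.qExpansion_identity_pnat (k := 2) (by norm_num) ⟨(m : ℂ) * z, him⟩
    simp only at this
    rw [this]
    unfold lipc
    congr 1
    apply tsum_congr
    intro c
    congr 1
    rw [hq, ← Complex.exp_nat_mul, ← Complex.exp_nat_mul]
    congr 1
    push_cast
    ring
  rw [double_series hz, tsum_congr h1, tsum_mul_left, tsum_prod_pow_eq_tsum_sigma 2 hqn]
  have h2 : ∑' e : ℕ+, ((ArithmeticFunction.sigma 2 (e : ℕ) : ℕ) : ℂ) * q ^ (e : ℕ) =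
      ∑' e : ℕ, ((ArithmeticFunction.sigma 2 e : ℕ) : ℂ) * q ^ e := by
    rw [← tsum_zero_pnat_eq_tsum_nat hsum]
    simp
  rw [h2]
  have h3 := hsum.hasSum.mul_left lipc
  refine h3.congr_fun ?_
  intro n
  rw [qe_eq_pow, hc, mul_assoc]

/-- **`Wf` satisfies no algebraic differential equation.** -/
theorem Wf_transcendental (P : MvPolynomial ℕ ℂ)
    (hP : ∀ z ∈ slitPlane, MvPolynomial.eval (jet Wf z) P = 0) : P = 0 := by
  obtain ⟨C, hC⟩ := Wf_bound
  exact core Wf hc diff_Wf C hC hasSum_H hc_zero hc_ne P hP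

end

end Pool.Agent.H25
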