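import Mathlib
import Pool.Agent.H25.WFun
import Pool.Agent.H25.Stage1

/-!
The series `G = ∑ σ₂(n) X^n` is differentially transcendental.
-/

set_option autoImplicit false

namespace Pool.Agent.H25

open Complex Filter Topology

noncomputable section

/-- Taylor expansion at `I` -/
def tay (f : ℂ → ℂ) : PowerSeries ℂ := PowerSeries.mk (fun n => iteratedDeriv n f I / n.factorial)

theorem tay_congr {f g : ℂ → ℂ} (h : f =ᶠ[𝓝 I] g) : tay f = tay g := by
  unfold tay
  congr 1
  funext n
  rw [h.iteratedDeriv_eq]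

theorem tay_add {f g : ℂ → ℂ} (hf : AnalyticAt ℂ f I) (hg : AnalyticAt ℂ g I) :
    tay (fun z => f z + g z) = tay f + tay g := by
  ext n
  simp only [tay, PowerSeries.coeff_mk, map_add]
  rw [iteratedDeriv_fun_add hf.contDiffAt hg.contDiffAt, add_div]

theorem tay_const (c : ℂ) : tay (fun _ => c) = PowerSeries.C c := by
  ext n
  simp only [tay, PowerSeries.coeff_mk]
  rw [iteratedDeriv_const, PowerSeries.coeff_C]
  rcases Nat.eq_zero_or_pos n with h | h
  · simp [h]
  · have : n ≠ 0 := by omega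
    simp [this]

theorem tay_mul {f g : ℂ → ℂ} (hf : AnalyticAt ℂ f I) (hg : AnalyticAt ℂ g I) :
    tay (fun z => f z * g z) = tay f * tay g := by
  ext n
  rw [PowerSeries.coeff_mul]
  simp only [tay, PowerSeries.coeff_mk]
  rw [iteratedDeriv_fun_mul hf.contDiffAt hg.contDiffAt,
    Finset.Nat.sum_antidiagonal_eq_sum_range_succ_mk, Finset.sum_div]
  apply Finset.sum_congr rfl
  intro i hi
  rw [Finset.mem_range] at hi
  simp only
  have hin : i ≤ n := by omega
  have h1 : (n.choose i : ℂ) * (i.factorial : ℂ) * ((n - i).factorial : ℂ) = (n.factorial : ℂ) := by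
    exact_mod_cast Nat.choose_mul_factorial_mul_factorial hin
  have h2 : (i.factorial : ℂ) ≠ 0 := by exact_mod_cast Nat.factorial_ne_zero i
  have h3 : ((n - i).factorial : ℂ) ≠ 0 := by exact_mod_cast Nat.factorial_ne_zero (n - i)
  have h4 : (n.factorial : ℂ) ≠ 0 := by exact_mod_cast Nat.factorial_ne_zero n
  rw [div_mul_div_comm, div_eq_div_iff h4 (mul_ne_zero h2 h3), ← h1]
  ring

theorem derivative_tay (f : ℂ → ℂ) : PowerSeries.derivative ℂ (tay f) = tay (deriv f) := by
  ext n
  rw [PowerSeries.coeff_derivative]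
  simp only [tay, PowerSeries.coeff_mk]
  rw [iteratedDeriv_succ', Nat.factorial_succ]
  have h4 : (n.factorial : ℂ) ≠ 0 := by exact_mod_cast Nat.factorial_ne_zero n
  have h5 : ((n : ℂ) + 1) ≠ 0 := by exact_mod_cast Nat.succ_ne_zero n
  push_cast
  field_simp

theorem iterate_derivative_tay (f : ℂ → ℂ) (i : ℕ) :
    ((PowerSeries.derivative ℂ)^[i]) (tay f) = tay (iteratedDeriv i f) := by
  induction i with
  | zero => simp
  | succ i ih => rw [Function.iterate_succ_apply', ih, derivative_tay, iteratedDeriv_succ]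

theorem tay_eval (f : ℕ → ℂ → ℂ) (hf : ∀ i, AnalyticAt ℂ (f i) I) (P : MvPolynomial ℕ ℂ) :
    AnalyticAt ℂ (fun z => MvPolynomial.eval (fun i => f i z) P) I ∧
    tay (fun z => MvPolynomial.eval (fun i => f i z) P) =
      MvPolynomial.aeval (fun i => tay (f i)) P := by
  induction P using MvPolynomial.induction_on with
  | C a =>
    constructor
    · simpa using analyticAt_const
    · simp only [MvPolynomial.eval_C]
      rw [tay_const, MvPolynomial.aeval_C]; rfl
  | add p q hp hq =>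
    constructor
    · simp only [map_add]
      exact hp.1.add hq.1
    · simp only [map_add]
      rw [tay_add hp.1 hq.1, hp.2, hq.2]
  | mul_X p i hp =>
    constructor
    · simp only [map_mul, MvPolynomial.eval_X]
      exact hp.1.mul (hf i)
    · simp only [map_mul, MvPolynomial.eval_X, MvPolynomial.aeval_X]
      rw [tay_mul hp.1 (hf i), hp.2]

theorem eventually_zero_of_tay {f : ℂ → ℂ} (hf : AnalyticAt ℂ f I) (h : tay f = 0) :
    f =ᶠ[𝓝 I] 0 := by
  have h1 := hf.hasFPowerSeriesAt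
  have h2 : (fun n : ℕ => iteratedDeriv n f I / (n.factorial : ℂ)) = fun _ => 0 := by
    funext n
    have := congrArg (PowerSeries.coeff n) h
    simpa [tay] using this
  rw [h2] at h1
  have h4 : FormalMultilinearSeries.ofScalars ℂ (fun _ : ℕ => (0 : ℂ)) =
      (0 : FormalMultilinearSeries ℂ ℂ ℂ) := by
    ext n
    simp [FormalMultilinearSeries.ofScalars]
  rw [h4] at h1
  have h3 : HasFPowerSeriesAt f (0 : FormalMultilinearSeries ℂ ℂ ℂ) I := h1
  exact h3.eventually_eq_zero

/-! ### the functions `g_i` -/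

/-- nome -/
def qq (z : ℂ) : ℂ := Complex.exp (2 * Real.pi * I * z)

/-- the functions `g_i(z) = ∑ n^i σ₂(n) q^n` -/
def gf (i : ℕ) (z : ℂ) : ℂ := evq (qq z) (Gi i)

theorem summable_poly_exp (i : ℕ) {ε : ℝ} (hε : 0 < ε) :
    Summable (fun n : ℕ => (n : ℝ) ^ i * Real.exp (-(ε * n))) := by
  have h1 : ‖Real.exp (-ε)‖ < 1 := by
    rw [Real.norm_eq_abs, abs_of_pos (Real.exp_pos _), Real.exp_lt_one_iff]; linarith
  have h2 := summable_pow_mul_geometric_of_norm_lt_one i h1
  refine h2.congr ?_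
  intro n
  rw [← Real.exp_nat_mul]
  congr 2
  ring

theorem term_bound (i n : ℕ) {ε : ℝ} {z : ℂ} (hz : ε ≤ 2 * Real.pi * z.im) :
    ‖PowerSeries.coeff n (Gi i) * qq z ^ n‖ ≤ (n : ℝ) ^ (i + 3) * Real.exp (-(ε * n)) := by
  simp only [Gi, PowerSeries.coeff_mk]
  rw [norm_mul, norm_mul, norm_pow, norm_pow, Complex.norm_natCast, Complex.norm_natCast, pow_add]
  have h1 : ‖qq z‖ = Real.exp (-(2 * Real.pi * z.im)) := by
    unfold qq; rw [Complex.norm_exp]; simp
  rw [h1, ← Real.exp_nat_mul]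
  have h2 : ((ArithmeticFunction.sigma 2 n : ℕ) : ℝ) ≤ (n : ℝ) ^ 3 := by
    exact_mod_cast sigma_two_le n
  have h3 : Real.exp (n * (-(2 * Real.pi * z.im))) ≤ Real.exp (-(ε * n)) := by
    apply Real.exp_le_exp.mpr
    have hn : (0 : ℝ) ≤ n := Nat.cast_nonneg n
    nlinarith
  have h0 : (0 : ℝ) ≤ ((ArithmeticFunction.sigma 2 n : ℕ) : ℝ) := Nat.cast_nonneg _
  gcongr

theorem conv_Gi (i : ℕ) {z : ℂ} (hz : 0 < z.im) : conv (qq z) (Gi i) := by
  unfold conv
  have hpi := Real.pi_pos
  exact Summable.of_nonneg_of_le (fun n => norm_nonneg _)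
    (fun n => term_bound i n (le_refl (2 * Real.pi * z.im)))
    (summable_poly_exp (i + 3) (by positivity))

theorem differentiable_qq : Differentiable ℂ qq := by unfold qq; fun_prop

theorem deriv_qq_pow (c : ℂ) (n : ℕ) (z : ℂ) :
    deriv (fun w => c * qq w ^ n) z = 2 * Real.pi * I * (n * c * qq z ^ n) := by
  have e : (fun w => c * qq w ^ n) = fun w => c * Complex.exp (2 * Real.pi * I * n * w) := by
    funext w
    unfold qq
    rw [← Complex.exp_nat_mul]
    congr 2
    ring
  have e2 : qq z ^ n = Complex.exp (2 * Real.pi * I * n * z) := by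
    unfold qq
    rw [← Complex.exp_nat_mul]
    congr 1
    ring
  rw [e, e2]
  have h1 : HasDerivAt (fun w : ℂ => c * Complex.exp (2 * Real.pi * I * n * w))
      (c * (Complex.exp (2 * Real.pi * I * n * z) * (2 * Real.pi * I * n * 1))) z := by
    apply HasDerivAt.const_mul
    apply HasDerivAt.cexp
    exact (hasDerivAt_id z).const_mul _
  rw [h1.deriv]
  ring

theorem diff_gf (i : ℕ) : DifferentiableOn ℂ (gf i) {z : ℂ | 0 < z.im} ∧
    ∀ z : ℂ, 0 < z.im → deriv (gf i) z = 2 * Real.pi * I * gf (i + 1) z := by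
  have hpi := Real.pi_pos
  have key : ∀ z : ℂ, 0 < z.im → DifferentiableAt ℂ (gf i) z ∧
      deriv (gf i) z = 2 * Real.pi * I * gf (i + 1) z := by
    intro z hz
    set U : Set ℂ := {w : ℂ | z.im / 2 < w.im} with hU
    have hUo : IsOpen U := isOpen_lt continuous_const Complex.continuous_im
    have hzU : z ∈ U := by rw [hU]; simp only [Set.mem_ofPred_eq]; linarith
    have hsum := summable_poly_exp (i + 3) (ε := 2 * Real.pi * (z.im / 2)) (by positivity)
    have hF : ∀ n : ℕ, DifferentiableOn ℂ (fun w => PowerSeries.coeff n (Gi i) * qq w ^ n) U :=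
      fun n => ((differentiable_qq.pow n).const_mul _).differentiableOn
    have hle : ∀ (n : ℕ) (w : ℂ), w ∈ U → ‖PowerSeries.coeff n (Gi i) * qq w ^ n‖ ≤
        (n : ℝ) ^ (i + 3) * Real.exp (-((2 * Real.pi * (z.im / 2)) * n)) := by
      intro n w hw
      rw [hU] at hw
      simp only [Set.mem_ofPred_eq] at hw
      apply term_bound
      nlinarith
    constructor
    · exact (Complex.differentiableOn_tsum_of_summable_norm hsum hF hUo hle).differentiableAt
        (hUo.mem_nhds hzU)
    · have h1 := (Complex.hasSum_deriv_of_summable_norm hsum hF hUo hle hzU).tsum_eq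
      have h2 : deriv (gf i) z = ∑' n : ℕ, deriv (fun w => PowerSeries.coeff n (Gi i) * qq w ^ n) z :=
        h1.symm
      rw [h2]
      unfold gf evq
      rw [← tsum_mul_left]
      apply tsum_congr
      intro n
      rw [deriv_qq_pow]
      simp only [Gi, PowerSeries.coeff_mk]
      ring
  exact ⟨fun z hz => (key z hz).1.differentiableWithinAt, fun z hz => (key z hz).2⟩

theorem isOpen_up : IsOpen {z : ℂ | 0 < z.im} := isOpen_lt continuous_const Complex.continuous_im

theorem I_up : I ∈ {z : ℂ | 0 < z.im} := by simp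

theorem up_nhds : {z : ℂ | 0 < z.im} ∈ 𝓝 I := isOpen_up.mem_nhds I_up

theorem neg_inv_im {z : ℂ} (hz : 0 < z.im) : 0 < (-1 / z).im := by
  have hz0 : z ≠ 0 := by rintro rfl; simp at hz
  have : 0 < Complex.normSq z := Complex.normSq_pos.mpr hz0
  rw [neg_div, one_div, Complex.neg_im, Complex.inv_im]
  rw [neg_div, neg_neg]
  positivity

theorem analytic_gf (i : ℕ) : AnalyticAt ℂ (gf i) I :=
  (diff_gf i).1.analyticAt up_nhds

theorem diff_gfS (i : ℕ) {z : ℂ} (hz : 0 < z.im) :
    HasDerivAt (fun w => gf i (-1 / w)) (2 * Real.pi * I * gf (i + 1) (-1 / z) * (1 / z ^ 2)) z := by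
  have hz0 : z ≠ 0 := by rintro rfl; simp at hz
  have h1 : HasDerivAt (gf i) (2 * Real.pi * I * gf (i + 1) (-1 / z)) (-1 / z) := by
    rw [← (diff_gf i).2 _ (neg_inv_im hz)]
    exact ((diff_gf i).1.differentiableAt (isOpen_up.mem_nhds (neg_inv_im hz))).hasDerivAt
  have h2 : HasDerivAt (fun w : ℂ => -1 / w) (1 / z ^ 2) z := by
    have h3 := (hasDerivAt_inv hz0).const_mul (-1)
    have e1 : (fun w : ℂ => -1 / w) = fun y => -1 * y⁻¹ := by
      funext w; rw [div_eq_mul_inv]
    have e2 : 1 / z ^ 2 = -1 * -(z ^ 2)⁻¹ := by rw [one_div]; ring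
    rw [e1, e2]
    exact h3
  exact h1.comp z h2

theorem analytic_gfS (i : ℕ) : AnalyticAt ℂ (fun w => gf i (-1 / w)) I := by
  have : DifferentiableOn ℂ (fun w => gf i (-1 / w)) {z : ℂ | 0 < z.im} := fun z hz =>
    (diff_gfS i hz).differentiableAt.differentiableWithinAt
  exact this.analyticAt up_nhds

theorem analytic_inv : AnalyticAt ℂ (fun z : ℂ => 1 / z) I := by
  have : DifferentiableOn ℂ (fun z : ℂ => 1 / z) {z : ℂ | 0 < z.im} := by
    intro z hz
    simp only [Set.mem_ofPred_eq] at hz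
    have hz0 : z ≠ 0 := by rintro rfl; simp at hz
    apply DifferentiableAt.differentiableWithinAt
    exact DifferentiableAt.div (by fun_prop) (by fun_prop) hz0
  exact this.analyticAt up_nhds

theorem H_eq {z : ℂ} (hz : 0 < z.im) : Wf z - Wf (-z) = lipc * gf 0 z := by
  rw [← (hasSum_H z hz).tsum_eq]
  unfold gf evq
  rw [← tsum_mul_left]
  apply tsum_congr
  intro n
  rw [qe_eq_pow, hc, mul_assoc]
  simp [Gi, qq]

theorem Wf_eq {z : ℂ} (hz : 0 < z.im) :
    Wf z = lipc / 2 * gf 0 z + (-(lipc / 2)) * (((1 / z) * (1 / z)) * (1 / z)) * gf 0 (-1 / z)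
      + (-(z3 / 2)) := by
  have hz0 : z ≠ 0 := by rintro rfl; simp at hz
  have h1 := Zf_relation hz0
  rw [H_eq hz, H_eq (neg_inv_im hz)] at h1
  have h2 : Wf z = Zf z + z3 / 2 * (1 / z ^ 3) := rfl
  have h3 : Zf z = (lipc * gf 0 z - z3 * (1 / z ^ 3) - 1 / z ^ 3 * (lipc * gf 0 (-1 / z)) - z3) / 2 := by
    rw [← h1]; ring
  rw [h2, h3]
  field_simp
  ring

/-- **Stage 2.** -/
theorem stage2 (P : MvPolynomial ℕ ℂ) (hP : P ≠ 0) (hrel : MvPolynomial.aeval Gi P = 0) :
    False := by
  have hev : ∀ z : ℂ, 0 < z.im → MvPolynomial.eval (fun i => gf i z) P = 0 := by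
    intro z hz
    have h1 := (conv_aeval (q := qq z) Gi (fun i => conv_Gi i hz) P).2
    rw [hrel] at h1
    have h2 : evq (qq z) 0 = 0 := by simp [evq]
    rw [h2] at h1
    exact h1.symm
  set u : PowerSeries ℂ := tay (fun z : ℂ => 1 / z) with hu
  set z1 : ℕ → PowerSeries ℂ := fun i => tay (gf i) with hz1
  set z2 : ℕ → PowerSeries ℂ := fun i => tay (fun w => gf i (-1 / w)) with hz2
  have hr1 : MvPolynomial.aeval z1 P = 0 := by
    rw [hz1, ← (tay_eval gf analytic_gf P).2]
    have h1 : (fun z => MvPolynomial.eval (fun i => gf i z) P) =ᶠ[𝓝 I] fun _ => (0 : ℂ) := by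
      filter_upwards [up_nhds] with z hz
      exact hev z hz
    rw [tay_congr h1, tay_const, map_zero]
  have hr2 : MvPolynomial.aeval z2 P = 0 := by
    rw [hz2, ← (tay_eval (fun i w => gf i (-1 / w)) analytic_gfS P).2]
    have h1 : (fun z => MvPolynomial.eval (fun i => gf i (-1 / z)) P) =ᶠ[𝓝 I] fun _ => (0 : ℂ) := by
      filter_upwards [up_nhds] with z hz
      exact hev _ (neg_inv_im hz)
    rw [tay_congr h1, tay_const, map_zero]
  obtain ⟨n1, hn1⟩ := exists_clos_of_rel z1 hP hr1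
  obtain ⟨n2, hn2⟩ := exists_clos_of_rel z2 hP hr2
  set s : Set (PowerSeries ℂ) := (z1 '' Set.Iio n1 ∪ z2 '' Set.Iio n2) ∪ {u} with hs
  have hsfin : s.Finite :=
    (((Set.finite_Iio n1).image z1).union ((Set.finite_Iio n2).image z2)).union
      (Set.finite_singleton u)
  have hsub1 : z1 '' Set.Iio n1 ⊆ s := fun x hx => Or.inl (Or.inl hx)
  have hsub2 : z2 '' Set.Iio n2 ⊆ s := fun x hx => Or.inl (Or.inr hx)
  have huc : u ∈ clos s := subset_clos (Or.inr rfl)
  have hCc : ∀ c : ℂ, PowerSeries.C c ∈ clos s := fun c => const_clos c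
  have hz1c : ∀ i, i ≤ n1 → z1 i ∈ clos s := by
    intro i hi
    rcases Nat.lt_or_ge i n1 with h | h
    · exact subset_clos (hsub1 ⟨i, h, rfl⟩)
    · have : i = n1 := by omega
      rw [this]; exact clos_mono hsub1 hn1
  have hz2c : ∀ i, i ≤ n2 → z2 i ∈ clos s := by
    intro i hi
    rcases Nat.lt_or_ge i n2 with h | h
    · exact subset_clos (hsub2 ⟨i, h, rfl⟩)
    · have : i = n2 := by omega
      rw [this]; exact clos_mono hsub2 hn2
  have hD1 : ∀ i, PowerSeries.derivative ℂ (z1 i) = PowerSeries.C (2 * Real.pi * I) * z1 (i + 1) := by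
    intro i
    simp only [hz1]
    rw [derivative_tay]
    have h1 : deriv (gf i) =ᶠ[𝓝 I] fun z => (2 * Real.pi * I) * gf (i + 1) z := by
      filter_upwards [up_nhds] with z hz
      exact (diff_gf i).2 z hz
    rw [tay_congr h1, tay_mul analyticAt_const (analytic_gf _), tay_const]
  have hD2 : ∀ i, PowerSeries.derivative ℂ (z2 i) =
      PowerSeries.C (2 * Real.pi * I) * z2 (i + 1) * (u * u) := by
    intro i
    simp only [hz2]
    rw [derivative_tay]
    have h1 : deriv (fun w => gf i (-1 / w)) =ᶠ[𝓝 I]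
        fun z => ((2 * Real.pi * I) * gf (i + 1) (-1 / z)) * ((1 / z) * (1 / z)) := by
      filter_upwards [up_nhds] with z hz
      rw [(diff_gfS i hz).deriv]
      congr 1
      ring
    have ac : AnalyticAt ℂ (fun _ : ℂ => (2 * Real.pi * I : ℂ)) I := analyticAt_const
    have aii : AnalyticAt ℂ (fun z : ℂ => (1 / z) * (1 / z)) I := analytic_inv.mul analytic_inv
    have ag := analytic_gfS (i + 1)
    have acg : AnalyticAt ℂ (fun z => (2 * Real.pi * I) * gf (i + 1) (-1 / z)) I := ac.mul ag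
    rw [tay_congr h1, tay_mul acg aii, tay_mul ac ag, tay_mul analytic_inv analytic_inv, tay_const]
  have hDu : PowerSeries.derivative ℂ u = PowerSeries.C (-1) * (u * u) := by
    rw [hu, derivative_tay]
    have h1 : deriv (fun z : ℂ => 1 / z) =ᶠ[𝓝 I] fun z => (-1) * ((1 / z) * (1 / z)) := by
      filter_upwards [up_nhds] with z hz
      simp only [one_div]
      rw [deriv_inv]
      ring
    have ac : AnalyticAt ℂ (fun _ : ℂ => (-1 : ℂ)) I := analyticAt_const
    have aii : AnalyticAt ℂ (fun z : ℂ => (1 / z) * (1 / z)) I := analytic_inv.mul analytic_inv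
    rw [tay_congr h1, tay_mul ac aii, tay_mul analytic_inv analytic_inv, tay_const]
  have hDs : ∀ y ∈ s, PowerSeries.derivative ℂ y ∈ clos s := by
    rintro y ((⟨i, hi, rfl⟩ | ⟨i, hi, rfl⟩) | hy)
    · simp only [Set.mem_Iio] at hi
      rw [hD1]
      exact Subalgebra.mul_mem _ (hCc _) (hz1c _ hi)
    · simp only [Set.mem_Iio] at hi
      rw [hD2]
      exact Subalgebra.mul_mem _ (Subalgebra.mul_mem _ (hCc _) (hz2c _ hi))
        (Subalgebra.mul_mem _ huc huc)
    · rw [Set.mem_singleton_iff] at hy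
      rw [hy, hDu]
      exact Subalgebra.mul_mem _ (hCc _) (Subalgebra.mul_mem _ huc huc)
  have hWt : tay Wf = PowerSeries.C (lipc / 2) * z1 0 +
      PowerSeries.C (-(lipc / 2)) * (u * u * u) * z2 0 + PowerSeries.C (-(z3 / 2)) := by
    have h1 : Wf =ᶠ[𝓝 I] fun z => lipc / 2 * gf 0 z +
        (-(lipc / 2)) * (((1 / z) * (1 / z)) * (1 / z)) * gf 0 (-1 / z) + (-(z3 / 2)) := by
      filter_upwards [up_nhds] with z hz
      exact Wf_eq hz
    have a1 := analytic_inv
    have a2 := analytic_gf 0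
    have a3 := analytic_gfS 0
    have ac : ∀ c : ℂ, AnalyticAt ℂ (fun _ : ℂ => c) I := fun c => analyticAt_const
    have hp2 : AnalyticAt ℂ (fun z : ℂ => (1 / z) * (1 / z)) I := a1.mul a1
    have hp3 : AnalyticAt ℂ (fun z : ℂ => ((1 / z) * (1 / z)) * (1 / z)) I := hp2.mul a1
    have b1 : AnalyticAt ℂ (fun z => lipc / 2 * gf 0 z) I := (ac _).mul a2
    have b2 : AnalyticAt ℂ (fun z => (-(lipc / 2)) * (((1 / z) * (1 / z)) * (1 / z))) I :=
      (ac _).mul hp3
    have b3 : AnalyticAt ℂ (fun z => (-(lipc / 2)) * (((1 / z) * (1 / z)) * (1 / z)) *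
      gf 0 (-1 / z)) I := b2.mul a3
    have b4 : AnalyticAt ℂ (fun z => lipc / 2 * gf 0 z +
      (-(lipc / 2)) * (((1 / z) * (1 / z)) * (1 / z)) * gf 0 (-1 / z)) I := b1.add b3
    rw [tay_congr h1, tay_add b4 (ac _), tay_add b1 b3, tay_mul (ac _) a2, tay_mul b2 a3,
      tay_mul (ac _) hp3, tay_mul hp2 a1, tay_mul a1 a1, tay_const, tay_const, tay_const]
  have hWc : tay Wf ∈ clos s := by
    rw [hWt]
    exact Subalgebra.add_mem _ (Subalgebra.add_mem _
      (Subalgebra.mul_mem _ (hCc _) (hz1c 0 (Nat.zero_le _)))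
      (Subalgebra.mul_mem _ (Subalgebra.mul_mem _ (hCc _)
        (Subalgebra.mul_mem _ (Subalgebra.mul_mem _ huc huc) huc)) (hz2c 0 (Nat.zero_le _))))
      (hCc _)
  obtain ⟨P', hP', hP'0⟩ := dalg_of_clos (PowerSeries.derivative ℂ) hsfin hDs hWc
  apply hP'
  apply Wf_transcendental
  -- from the Taylor series to the function
  have hIs : I ∈ slitPlane := slit_of_im (by simp)
  have hjan : ∀ i, AnalyticAt ℂ (iteratedDeriv i Wf) I := fun i =>
    (differentiableOn_iteratedDeriv isOpen_slitPlane diff_Wf i).analyticAt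
      (isOpen_slitPlane.mem_nhds hIs)
  have h1 := tay_eval (fun i => iteratedDeriv i Wf) hjan P'
  have h2 : (fun i : ℕ => ((PowerSeries.derivative ℂ)^[i]) (tay Wf)) =
      fun i => tay (iteratedDeriv i Wf) := by
    funext i; exact iterate_derivative_tay Wf i
  rw [h2] at hP'0
  rw [hP'0] at h1
  have h3 := eventually_zero_of_tay h1.1 h1.2
  have hd : DifferentiableOn ℂ (fun z => MvPolynomial.eval (jet Wf z) P') slitPlane := by
    apply differentiableOn_eval (fun i z => jet Wf z i)
    intro i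
    exact differentiableOn_iteratedDeriv isOpen_slitPlane diff_Wf i
  have hpre : IsPreconnected slitPlane := by
    apply IsPathConnected.isConnected _ |>.isPreconnected
    exact starConvex_one_slitPlane.isPathConnected one_mem_slitPlane
  intro z hz
  have := (hd.analyticOnNhd isOpen_slitPlane).eqOn_zero_of_preconnected_of_eventuallyEq_zero
    hpre hIs h3
  exact this hz

end

end Pool.Agent.H25
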